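import Pool.Agent.Helper92.RB.Fast
import Pool.Agent.Helper92.KR.Final
import Pool.Agent.Helper31.Conv.FinalB

/-!
# Programs with few expensive changes and described memory
-/

namespace Pool.Agent.Helper92.RB

open Pool.Agent.Helper65.LinSpace Pool.Agent.Helper78.Mpc Pool.Agent.Helper28.Ram Finset
open Pool.Agent.Helper81.Sus2 (Decomp NBM)
open Pool.Agent.Helper81.RP (Ins lett step AcceptsAt conf wd bd word word_eq pair_lt says_mono a0 a1
  dst npc uu conf_succ ls_pair)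
open Pool.Agent.Helper92.RE (LD inpL valL vvL step_eqL)
open Pool.Agent.Helper92.RF (parN parW parN_par parW_par par par_lt dst_le unpair_pair_fst
  unpair_pair_snd ls_parW)
open Pool.Agent.Helper92.KR (idLD idLD_is)
open Pool.Agent.Helper31.Conv (Digit convB)
open Pool.Agent.Helper81.Gen4 (Q Q_mono)
open Pool.Agent.Helper31.Gen5 (Hard)
open Pool.Agent.Helper92.RE (hard_adv)

/-- The registers with a number `≥ 2 ^ s` contain `0`. -/
theorem reg_zero {P : List Ins} {x y : List Bool} {T s : ℕ} (hb : bd P < 2 ^ s)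
    (hlt : ∀ u ≤ T, ∀ i, (conf P x y u).2 i < 2 ^ s) {k : ℕ} (hk : k ≤ T) {i : ℕ}
    (hi : 2 ^ s ≤ i) : (conf P x y k).2 i = 0 := by
  induction k with
  | zero => rfl
  | succ k ih =>
    rw [conf_succ, step_eqL]
    dsimp only
    rw [Function.update_of_ne, ih (by omega)]
    rintro rfl
    rcases dst_le P (conf P x y k).1 (uu P (conf P x y k)) with h1 | ⟨a, b, -, h1⟩
    · omega
    · rw [h1] at hi
      exact absurd (hlt k (by omega) _) (not_lt.2 hi)

/-! ### The functions of the description -/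

/-- The header: the parameters, the size of the cells, the number of the block and the two codes. -/
def hdr (p z q κ₁ κ₂ : ℕ) : ℕ := Nat.pair p (Nat.pair z (Nat.pair q (Nat.pair κ₁ κ₂)))

theorem hdr_lt {p z q κ₁ κ₂ e : ℕ} (h1 : p < 2 ^ e) (h2 : z < 2 ^ e) (h3 : q < 2 ^ e)
    (h4 : κ₁ < 2 ^ e) (h5 : κ₂ < 2 ^ e) : hdr p z q κ₁ κ₂ < 2 ^ (16 * e) := by
  have hm : ∀ {x k : ℕ}, x < 2 ^ e → 1 ≤ k → x < 2 ^ (k * e) := fun hx hk =>
    hx.trans_le (Nat.pow_le_pow_right (by norm_num) (Nat.le_mul_of_pos_left _ hk))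
  have g1 := pair_lt h4 h5
  have g2 := pair_lt (hm h3 (k := 2) (by norm_num)) g1
  have g3 := pair_lt (hm h2 (k := 2 * 2) (by norm_num)) (by rwa [Nat.mul_assoc])
  have g4 := pair_lt (hm h1 (k := 2 * (2 * 2)) (by norm_num)) (by rwa [Nat.mul_assoc])
  unfold hdr
  rw [show 2 * (2 * (2 * 2) * e) = 16 * e by ring] at g4
  exact g4

/-- The number of digits. -/
def wN (h _j : ℕ) : ℕ := parM h.unpair.1

/-- The base. -/
def wB (h _j : ℕ) : ℕ := parW h.unpair.1

/-- The question for a digit. -/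
def wG (P : List Ins) (h j i : ℕ) : ℕ :=
  ifz (lt01 (bd P) (j / 2 * parM h.unpair.1 + i) *
    lt01 (j / 2 * parM h.unpair.1 + i) (parW h.unpair.1)) 0
    (4 * (j / 2 * parM h.unpair.1 + i + 1) + 1)

/-- The answer. -/
def wF (P : List Ins) (h j V : ℕ) : ℕ :=
  h.unpair.2.unpair.1 + newV P h.unpair.1 h.unpair.2.unpair.2.unpair.1
    h.unpair.2.unpair.2.unpair.2.unpair.1 h.unpair.2.unpair.2.unpair.2.unpair.2 (j / 2)
    (h.unpair.2.unpair.1 + V)

theorem ls_wN : LS (fun z : ℕ × ℕ => wN z.1 z.2) := ls_parM (by fun_prop)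

theorem ls_wB : LS (fun z : ℕ × ℕ => wB z.1 z.2) := ls_parW (by fun_prop)

theorem ls_wG (P : List Ins) : LS (fun z : ℕ × ℕ × ℕ => wG P z.1 z.2.1 z.2.2) := by
  have h1 : LS (fun z : ℕ × ℕ × ℕ => parM z.1.unpair.1) := ls_parM (by fun_prop)
  have h2 : LS (fun z : ℕ × ℕ × ℕ => parW z.1.unpair.1) := ls_parW (by fun_prop)
  have h3 : LS (fun z : ℕ × ℕ × ℕ => z.2.1 / 2 * parM z.1.unpair.1 + z.2.2) :=
    LS.add (LS.mul (by fun_prop) h1) (by fun_prop)
  unfold wG
  exact LS.ifz (LS.mul (LS.lt01 (LS.const _) h3) (LS.lt01 h3 h2)) (LS.const 0)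
    (LS.add (LS.mul (LS.const 4) (LS.add h3 (LS.const 1))) (LS.const 1))

theorem ls_wF (P : List Ins) : LS (fun z : ℕ × ℕ × ℕ => wF P z.1 z.2.1 z.2.2) := by
  unfold wF
  refine LS.add (by fun_prop) (ls_newV P ?_ ?_ ?_ ?_ ?_ ?_) <;> fun_prop

theorem wN_hdr {m : ℕ} (hm : 0 < m) (n s z q κ₁ κ₂ j : ℕ) :
    wN (hdr (par n m s) z q κ₁ κ₂) j = m := by
  unfold wN hdr
  rw [unpair_pair_fst, parM_par hm]

theorem wB_hdr (m n s z q κ₁ κ₂ j : ℕ) : wB (hdr (par n m s) z q κ₁ κ₂) j = 2 ^ s := by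
  unfold wB hdr
  rw [unpair_pair_fst, parW_par]

theorem wF_hdr (P : List Ins) (p z q κ₁ κ₂ j V : ℕ) : wF P (hdr p z q κ₁ κ₂) j V =
    z + newV P p q κ₁ κ₂ (j / 2) (z + V) := by
  unfold wF hdr
  simp only [unpair_pair_fst, unpair_pair_snd]

theorem wG_hdr {P : List Ins} {m : ℕ} (hm : 0 < m) (n s z q κ₁ κ₂ j i : ℕ) :
    wG P (hdr (par n m s) z q κ₁ κ₂) j i =
      if bd P < j / 2 * m + i ∧ j / 2 * m + i < 2 ^ s then 4 * (j / 2 * m + i + 1) + 1 else 0 := by
  unfold wG hdr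
  rw [unpair_pair_fst, parM_par hm, parW_par]
  unfold lt01
  by_cases h1 : bd P < j / 2 * m + i
  · by_cases h2 : j / 2 * m + i < 2 ^ s
    · rw [if_pos h1, if_pos h2, if_pos ⟨h1, h2⟩, ifz_ne (by norm_num)]
    · rw [if_neg h2, mul_zero, ifz_zero, if_neg fun h => h2 h.2]
  · rw [if_neg h1, zero_mul, ifz_zero, if_neg fun h => h1 h.1]

/-- From a description of the registers, a description of the memory after the next message. -/
theorem short_block (P : List Ins) (E : Decomp) : ∃ (E' : Decomp) (K : ℕ),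
    ∀ (w y : List Bool) (T s a m z k l q κ₁ κ₂ n s' : ℕ), 0 < m → bd P < 2 ^ s →
      (∀ u ≤ T, ∀ i, (conf P w y u).2 i < 2 ^ s) → k ≤ T → Short P E w y s a z k →
      ∃ D : List Bool, D.length ≤ 2 * z + K * (Nat.log 2 (hdr (par n m s) (2 ^ l) q κ₁ κ₂) + 1) ∧
        ∀ j : List Bool, j.length ≤ s' → j.head? ≠ some false →
          E'.Says w y (a + K * (Nat.log 2 (hdr (par n m s) (2 ^ l) q κ₁ κ₂) + s' +
              Nat.log 2 (z + 1) + s * m + 1)) D j
            (wd (2 ^ l + newV P (par n m s) q κ₁ κ₂ (num j / 2)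
              (2 ^ l + blk P (2 ^ s) m (conf P w y k).2 (num j / 2)))) := by
  obtain ⟨E', K, hK⟩ := convB E wN wB (wG P) (wF P) ls_wN ls_wB (ls_wG P) (ls_wF P)
  refine ⟨E', K, ?_⟩
  intro w y T s a m z k l q κ₁ κ₂ n s' hm hb hlt hk ⟨d, hd, hsays⟩
  set H := hdr (par n m s) (2 ^ l) q κ₁ κ₂ with hH
  obtain ⟨D, hD, h1⟩ := hK w y d H a s' (s * m)
  refine ⟨D, by omega, fun j hj hj0 => ?_⟩
  have hN : wN H (num j) = m := wN_hdr hm _ _ _ _ _ _ _
  have hB : wB H (num j) = 2 ^ s := wB_hdr _ _ _ _ _ _ _ _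
  have h2 := h1 j (fun i => if num j / 2 * m + i ≤ bd P then 0 else
    (conf P w y k).2 (num j / 2 * m + i)) hj hj0 (by rw [hN, hB, ← pow_mul]) ?_
  · rw [hN, hB, hH, wF_hdr] at h2
    refine says_mono ?_ h2
    have h3 : Nat.log 2 (d.length + 1) ≤ Nat.log 2 (z + 1) := Nat.log_mono_right (by omega)
    gcongr
  · intro i _
    rw [hB]
    constructor
    · split_ifs
      · positivity
      · exact hlt k hk _
    · have hg := wG_hdr (P := P) hm n s (2 ^ l) q κ₁ κ₂ (num j) i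
      rw [← hH] at hg
      rw [hg]
      by_cases h3 : num j / 2 * m + i ≤ bd P
      · left
        rw [if_neg (by omega), if_pos h3]
      · rw [if_neg h3]
        by_cases h4 : num j / 2 * m + i < 2 ^ s
        · right
          left
          rw [if_pos ⟨by omega, h4⟩]
          refine ⟨_, rfl, ?_⟩
          have h5 := (hsays (num j / 2 * m + i) _ h4).2 rfl
          rwa [word_eq (Nat.succ_pos _), word_eq (Nat.succ_pos _)] at h5
        · left
          rw [if_neg fun h => h4 h.2, reg_zero hb hlt hk (not_lt.1 h4)]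

/-! ### Numbers -/

theorem sm_le {m s n h X : ℕ} {C : ℝ}
    (b4 : (m : ℝ) * s * ((h : ℝ) + ((Nat.log 2 n : ℝ) + 1)) ^ 2 ≤ C * ((n : ℝ) + 1))
    (hn : 2 ^ (2 * X * ⌈|C|⌉₊ + 1) ≤ n) : X * (s * m) ≤ n := by
  set c₀ := ⌈|C|⌉₊ with hc₀
  have hn1 : 1 ≤ n := Nat.one_le_two_pow.trans hn
  have hL : 2 * X * c₀ + 1 ≤ Nat.log 2 n := Nat.le_log_of_pow_le (by norm_num) hn
  set L := Nat.log 2 n with hLdef
  have h1 : m * s * (L + 1) ^ 2 ≤ c₀ * (n + 1) := by
    have h2 : (m : ℝ) * s * ((L : ℝ) + 1) ^ 2 ≤ (c₀ : ℝ) * ((n : ℝ) + 1) := by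
      calc (m : ℝ) * s * ((L : ℝ) + 1) ^ 2 ≤ (m : ℝ) * s * ((h : ℝ) + ((L : ℝ) + 1)) ^ 2 := by
            have h3 : (0 : ℝ) ≤ h := Nat.cast_nonneg _
            have h4 : (0 : ℝ) ≤ L := Nat.cast_nonneg _
            have h5 : (L : ℝ) + 1 ≤ (h : ℝ) + ((L : ℝ) + 1) := by linarith
            exact mul_le_mul_of_nonneg_left (pow_le_pow_left₀ (by linarith) h5 2) (by positivity)
        _ ≤ C * ((n : ℝ) + 1) := b4
        _ ≤ (c₀ : ℝ) * ((n : ℝ) + 1) := by
            gcongr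
            exact (le_abs_self C).trans (Nat.le_ceil _)
    exact_mod_cast h2
  have h2 : m * s * (2 * X * c₀ + 1) ≤ 2 * c₀ * n := by
    calc m * s * (2 * X * c₀ + 1) ≤ m * s * (L + 1) ^ 2 := by
          refine Nat.mul_le_mul_left _ ?_
          nlinarith
      _ ≤ c₀ * (n + 1) := h1
      _ ≤ c₀ * (2 * n) := Nat.mul_le_mul_left _ (by omega)
      _ = 2 * c₀ * n := by ring
  rcases Nat.eq_zero_or_pos c₀ with h0 | h0
  · rw [h0] at h2
    have h3 : m * s = 0 := by simpa using h2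
    rw [mul_comm s m, h3, mul_zero]
    exact Nat.zero_le _
  · have h3 : 2 * c₀ * (X * (s * m)) ≤ 2 * c₀ * n := by
      calc 2 * c₀ * (X * (s * m)) = m * s * (2 * X * c₀) := by ring
        _ ≤ m * s * (2 * X * c₀ + 1) := Nat.mul_le_mul_left _ (Nat.le_succ _)
        _ ≤ 2 * c₀ * n := h2
    exact Nat.le_of_mul_le_mul_left h3 (by omega)

theorem log_desc (c : ℕ) {n s : ℕ} (hs : Nat.log 2 n + 1 ≤ s) :
    Nat.log 2 (c * n + 1) ≤ s + c + 1 := by
  refine Nat.lt_succ_iff.1 (Nat.log_lt_of_lt_pow (by omega) ?_)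
  have h1 : n < 2 ^ s := (Nat.lt_pow_succ_log_self (b := 2) (by norm_num) n).trans_le
    (Nat.pow_le_pow_right (by norm_num) hs)
  have h2 : c + 1 < 2 ^ (c + 1) := Nat.lt_two_pow_self
  have h3 : 0 < 2 ^ s := by positivity
  calc c * n + 1 ≤ (c + 1) * 2 ^ s := by nlinarith
    _ ≤ 2 ^ (c + 1) * 2 ^ s := Nat.mul_le_mul_right _ h2.le
    _ < 2 ^ (s + c + 1).succ := by
      rw [← pow_add]
      exact Nat.pow_lt_pow_right (by norm_num) (by omega)

theorem log_hdr {b s m n l q κ₁ κ₂ : ℕ} (hs : 0 < s) (hm0 : 0 < m) (hn : n < 2 ^ s)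
    (hm : m < 2 ^ (2 * s)) (hl : l ≤ 2 * (s * m)) (hq : q ≤ 2 ^ s)
    (h1 : κ₁ < 2 ^ (2 * (s * (b + 1)))) (h2 : κ₂ < 2 ^ (2 * (s * (b + 1)))) :
    Nat.log 2 (hdr (par n m s) (2 ^ l) q κ₁ κ₂) ≤ 128 * (s * m * (b + 1)) := by
  have e0 : s ≤ s * m := Nat.le_mul_of_pos_right _ hm0
  have e1 : s * m ≤ s * m * (b + 1) := Nat.le_mul_of_pos_right _ (Nat.succ_pos _)
  have e2 : s * (b + 1) ≤ s * m * (b + 1) := Nat.mul_le_mul_right _ e0
  have hmono : ∀ {x k : ℕ}, x < 2 ^ k → k ≤ 8 * (s * m * (b + 1)) →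
      x < 2 ^ (8 * (s * m * (b + 1))) := fun h3 h4 =>
    h3.trans_le (Nat.pow_le_pow_right (by norm_num) h4)
  have g1 := hmono (par_lt hs hn hm) (by omega)
  have g2 : 2 ^ l < 2 ^ (8 * (s * m * (b + 1))) :=
    Nat.pow_lt_pow_right (by norm_num) (by omega)
  have g3 : q < 2 ^ (8 * (s * m * (b + 1))) :=
    hq.trans_lt (Nat.pow_lt_pow_right (by norm_num) (by omega))
  have g4 := hmono h1 (by omega)
  have g5 := hmono h2 (by omega)
  have g6 := hdr_lt g1 g2 g3 g4 g5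
  rcases Nat.eq_zero_or_pos (hdr (par n m s) (2 ^ l) q κ₁ κ₂) with h0 | h0
  · rw [h0, Nat.log_zero_right]
    exact Nat.zero_le _
  · have := (Nat.log_lt_of_lt_pow h0.ne' g6).le
    omega

/-- **Computations with described memory are good.** -/
theorem good_of_within (P : List Ins) (E : Decomp) (c : ℕ) (C : ℝ) :
    ∃ (E' : Decomp) (C' : ℝ) (n₁ : ℕ), ∀ w y : List Bool, n₁ ≤ w.length →
      Within P E c C w y → (mach idLD P).Good E' (2 * c + 1) C' w y := by
  obtain ⟨E', K, hK⟩ := short_block P E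
  obtain ⟨C', n₁, h⟩ := good_gen (F := fun w => w) idLD_is P E'
    (K := 2 + K * (200 * (bd P + 1) + c + 5)) (by omega) (c' := 2 * c + 1) (by omega) C
  obtain ⟨Z, hZ⟩ : ∃ Z, Z = 2 ^ (2 * (K * (129 * (bd P + 1))) * ⌈|C|⌉₊ + 1) := ⟨_, rfl⟩
  refine ⟨E', C', n₁ + bd P + 1 + ⌈|C|⌉₊ + Z, ?_⟩
  rintro w y hw ⟨T, s, a, r, m, e, hm, hls, hacc, hlt, hsus, b1, b2, b3, b4⟩
  have hn : w.length < 2 ^ s := by
    refine (Nat.lt_pow_succ_log_self (b := 2) (by norm_num) w.length).trans_le ?_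
    exact Nat.pow_le_pow_right (by norm_num) hls
  have hb : bd P < 2 ^ s := by omega
  have hl1 : (1 : ℝ) ≤ (Nat.log 2 w.length : ℝ) + 1 := by
    have : (0 : ℝ) ≤ Nat.log 2 w.length := Nat.cast_nonneg _
    linarith
  have hls' : (Nat.log 2 w.length : ℝ) + 1 ≤ s := by exact_mod_cast hls
  have hm2 : m < 2 ^ (2 * s) := m_lt hn hl1 hls' (by omega) b4
  have hsm := sm_le (X := K * (129 * (bd P + 1))) b4 (by rw [← hZ]; omega)
  have hs0 : 0 < s := by omega
  have hsm1 : s ≤ s * m := Nat.le_mul_of_pos_right _ hm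
  refine h w y (by omega) T s a r m e (Short P E w y s a (c * w.length)) hm hls hacc hlt hsus
    ?_ b1 b2 b3 b4
  intro k hk hSh l q κ₁ κ₂ hl hq h1 h2
  have hlog := log_hdr (b := bd P) hs0 hm hn hm2 hl hq h1 h2
  obtain ⟨D, hD, hD2⟩ := hK w y T s a m (c * w.length) k l q κ₁ κ₂ w.length
    (65 * (s * (bd P + 1))) hm hb hlt hk hSh
  set H := Nat.log 2 (hdr (par w.length m s) (2 ^ l) q κ₁ κ₂) with hH
  have hx : s * m ≤ s * m * (bd P + 1) := Nat.le_mul_of_pos_right _ (Nat.succ_pos _)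
  refine ⟨D, ?_, fun j hj hj0 => says_mono ?_ (hD2 j hj hj0)⟩
  · have e1 : K * (H + 1) ≤ K * (129 * (bd P + 1)) * (s * m) := by
      calc K * (H + 1) ≤ K * (129 * (s * m * (bd P + 1))) := Nat.mul_le_mul_left _ (by omega)
        _ = K * (129 * (bd P + 1)) * (s * m) := by ring
    calc D.length ≤ 2 * (c * w.length) + K * (H + 1) := hD
      _ ≤ 2 * (c * w.length) + w.length := Nat.add_le_add_left (e1.trans hsm) _
      _ = (2 * c + 1) * w.length := by ring
  · have e2 := log_desc c hls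
    have e3 : 65 * (s * (bd P + 1)) ≤ 65 * (s * m * (bd P + 1)) :=
      Nat.mul_le_mul_left _ (Nat.mul_le_mul_right _ hsm1)
    have e4 : c ≤ c * (s * m) := Nat.le_mul_of_pos_right _ (by omega)
    have e5 : H + 65 * (s * (bd P + 1)) + Nat.log 2 (c * w.length + 1) + s * m + 1 ≤
        (200 * (bd P + 1) + c + 5) * (s * m) := by
      calc H + 65 * (s * (bd P + 1)) + Nat.log 2 (c * w.length + 1) + s * m + 1 ≤
          200 * (s * m * (bd P + 1)) + c * (s * m) + 5 * (s * m) := by omega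
        _ = (200 * (bd P + 1) + c + 5) * (s * m) := by ring
    calc a + K * (H + 65 * (s * (bd P + 1)) + Nat.log 2 (c * w.length + 1) + s * m + 1) ≤
        a + K * ((200 * (bd P + 1) + c + 5) * (s * m)) :=
          Nat.add_le_add_left (Nat.mul_le_mul_left _ e5) _
      _ ≤ a + (2 + K * (200 * (bd P + 1) + c + 5)) * (s * m) := by
          refine Nat.add_le_add_left ?_ _
          calc K * ((200 * (bd P + 1) + c + 5) * (s * m)) =
              K * (200 * (bd P + 1) + c + 5) * (s * m) := by ring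
            _ ≤ (2 + K * (200 * (bd P + 1) + c + 5)) * (s * m) :=
              Nat.mul_le_mul_right _ (Nat.le_add_left _ _)

/-- Hardness for machines with messages gives hardness for programs of random access machines, with
quantifiers. -/
theorem within_hard_q {c : ℕ} (hc : 0 < c) {L : Set (List Bool)}
    (h : ∀ (A : NBM) (E : Decomp) (C : ℝ),
      Hard L c (fun w α => Q (c * w.length) fun v => ∃ g r, A.AcceptsAt w (α ++ v) g r)
        (fun w α => Q (c * w.length) fun v => A.Good E (2 * c + 1) C w (α ++ v)))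
    (P : List Ins) (E : Decomp) (C : ℝ) :
    Hard L c (fun w α => Q (c * w.length) fun v => ∃ t, AcceptsAt P w (α ++ v) t)
      (fun w α => Q (c * w.length) fun v => Within P E c C w (α ++ v)) := by
  obtain ⟨E', C', n₁, h1⟩ := good_of_within P E c C
  refine (hard_adv hc (h (mach idLD P) E' C') n₁ (Good' := fun w α => Q (c * w.length)
    fun v => Within P E c C w (α ++ v)) fun w α hw _ =>
    Q_mono fun x u y _ _ _ => h1 w _ hw).mono ?_ fun w _ hw => hw
  intro w α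
  refine Q_mono fun x u y _ _ _ => ?_
  rintro ⟨g, r, h2⟩
  exact accepts_sound idLD_is h2

/-- Hardness for machines with messages gives hardness for programs of random access machines. -/
theorem within_hard {c : ℕ} (hc : 0 < c) {L : Set (List Bool)}
    (h : ∀ (A : NBM) (E : Decomp) (C : ℝ),
      Hard L c (fun w α => ∃ g r, A.AcceptsAt w α g r)
        (fun w α => A.Good E (2 * c + 1) C w α))
    (P : List Ins) (E : Decomp) (C : ℝ) :
    Hard L c (fun w α => ∃ t, AcceptsAt P w α t) (fun w α => Within P E c C w α) := by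
  obtain ⟨E', C', n₁, h1⟩ := good_of_within P E c C
  refine (hard_adv hc (h (mach idLD P) E' C') n₁ (Good' := fun w α =>
    Within P E c C w α) fun w α hw _ => h1 w _ hw).mono ?_ fun w _ hw => hw
  rintro w α ⟨g, r, h2⟩
  exact accepts_sound idLD_is h2

end Pool.Agent.Helper92.RB
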