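import Pool.Agent.Helper92.RB.Good
import Pool.Agent.Helper92.RF.Fast

/-!
# Programs with few expensive changes on the words `F w` and `y`
-/

namespace Pool.Agent.Helper92.RB

open Pool.Agent.Helper65.LinSpace Pool.Agent.Helper78.Mpc Pool.Agent.Helper28.Ram
open Pool.Agent.Helper81.Sus2 (Decomp NBM)
open Pool.Agent.Helper81.RP (Ins AcceptsAt conf bd)
open Pool.Agent.Helper92.RE (LD)
open Pool.Agent.Helper92.KR (Sim hub_nbm nilE)
open Pool.Agent.Helper92.RF (parN parW parN_par parW_par par fast_bounds)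

/-- Fast computations are good. -/
theorem good_of_fast {D : LD} {F : List Bool → List Bool} (hF : D.Is F) {b : ℕ}
    (hlen : ∀ w, (F w).length ≤ b * (w.length + 1)) (hle : ∀ w, w.length ≤ (F w).length)
    (P : List Ins) (E : Decomp) {c : ℕ} (hc : 0 < c) (C : ℝ) :
    ∃ (C' : ℝ) (n₁ : ℕ), ∀ w y : List Bool, n₁ ≤ w.length →
      Fast P C (F w) y → (mach D P).Good E c C' w y := by
  set B : ℝ := (b : ℝ) + 1 with hB
  have hB1 : 1 ≤ B := by
    have h1 : (0 : ℝ) ≤ b := Nat.cast_nonneg _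
    linarith
  obtain ⟨C', n₁, h⟩ := good_gen hF P E (le_refl 2) hc (4 * |C| * B ^ 2)
  refine ⟨C', n₁, ?_⟩
  rintro w y hw ⟨t, s, m, r, hm, hls, hacc, hR, hparts, b1, b2, b3⟩
  have hwx : w.length ≤ (F w).length := hle w
  have hlog : Nat.log 2 w.length ≤ Nat.log 2 (F w).length := Nat.log_mono_right hwx
  have hl1 : (1 : ℝ) ≤ (Nat.log 2 w.length : ℝ) + 1 := by
    have : (0 : ℝ) ≤ Nat.log 2 w.length := Nat.cast_nonneg _
    linarith
  have hll : (Nat.log 2 w.length : ℝ) + 1 ≤ (Nat.log 2 (F w).length : ℝ) + 1 := by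
    have : (Nat.log 2 w.length : ℝ) ≤ Nat.log 2 (F w).length := by exact_mod_cast hlog
    linarith
  have hN : (1 : ℝ) ≤ (w.length : ℝ) + 1 := by
    have : (0 : ℝ) ≤ w.length := Nat.cast_nonneg _
    linarith
  have hN0 : (1 : ℝ) ≤ ((F w).length : ℝ) + 1 := by
    have : (0 : ℝ) ≤ (F w).length := Nat.cast_nonneg _
    linarith
  have hN' : ((F w).length : ℝ) + 1 ≤ B * ((w.length : ℝ) + 1) := by
    have h1 : (F w).length + 1 ≤ (b + 1) * (w.length + 1) := by
      have h2 := hlen w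
      calc (F w).length + 1 ≤ b * (w.length + 1) + 1 := by omega
        _ ≤ (b + 1) * (w.length + 1) := by nlinarith
    rw [hB]
    exact_mod_cast h1
  have hz : (0 : ℝ) ≤ ((min (Nat.log 2 t) s : ℕ) : ℝ) := Nat.cast_nonneg _
  rw [← Nat.cast_min] at b1 b2 b3
  obtain ⟨q1, q2, q3⟩ := fast_bounds hl1 hll (Nat.cast_nonneg s) (Nat.cast_nonneg r)
    (Nat.cast_nonneg m) hz hN hB1 hN' hN0 b1 b2 b3
  refine h w y hw t s 0 r m (min (Nat.log 2 t) s + 1) (fun _ => False) hm (by omega) hacc hR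
    (fun u v huv hv _ => ⟨hparts.mono (Nat.zero_le _) huv hv, ?_⟩)
    (fun _ _ hSh => hSh.elim) ?_ ?_ ?_ ?_
  · rcases le_or_gt (Nat.log 2 t) s with h1 | h1
    · left
      rw [min_eq_left h1]
      have h2 : t < 2 ^ (Nat.log 2 t + 1) := Nat.lt_pow_succ_log_self (by norm_num) _
      have h3 : 2 ^ (Nat.log 2 t + 1) ≤ 2 ^ (Nat.log 2 t + 1) * (r + 1) :=
        Nat.le_mul_of_pos_right _ (Nat.succ_pos _)
      omega
    · right
      rw [min_eq_right h1.le]
      exact Nat.lt_succ_self _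
  · push_cast
    push_cast at q1
    exact q1
  · push_cast
    push_cast at q2
    exact q2
  · have : (0 : ℝ) ≤ 4 * |C| * B ^ 2 * ((w.length : ℝ) + 1) := by positivity
    simpa using this
  · push_cast
    push_cast at q3
    exact q3

/-- The machine accepts if the program does. -/
theorem accepts_complete {D : LD} {F : List Bool → List Bool} (hF : D.Is F) (P : List Ins)
    {w y : List Bool} {T₀ s : ℕ} (hlt : ∀ u ≤ T₀, ∀ i, (conf P (F w) y u).2 i < 2 ^ s)
    (hacc₀ : AcceptsAt P (F w) y T₀) : ∃ g r, (mach D P).AcceptsAt w y g r := by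
  obtain ⟨T, hT₀, hacc, hfirst⟩ : ∃ T ≤ T₀, Acc P (conf P (F w) y T) ∧
      ∀ k < T, ¬Acc P (conf P (F w) y k) := by
    classical
    have hex : ∃ T, Acc P (conf P (F w) y T) := ⟨T₀, hacc₀⟩
    exact ⟨Nat.find hex, Nat.find_min' hex hacc₀, Nat.find_spec hex, fun k hk =>
      Nat.find_min hex hk⟩
  have hpN : parN (par w.length 1 (s + 2)) = w.length := parN_par _ _ _
  have hpM : parM (par w.length 1 (s + 2)) = 1 := parM_par Nat.one_pos _ _
  have hpW : parW (par w.length 1 (s + 2)) = 2 ^ (s + 2) := parW_par _ _ _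
  have h4 : 4 ≤ 2 ^ (s + 2) := by
    rw [pow_add]
    have : 1 ≤ 2 ^ s := Nat.one_le_two_pow
    omega
  obtain ⟨τ, l', i1, i2, -, -, -⟩ := exists_init D P w y (L := par w.length 1 (s + 2))
    (G := par w.length 1 (s + 2)) (B := s + 2) Nat.lt_two_pow_self hpN
    (by rw [hpW]; exact h4) (by rw [hpW, hpM, pow_one]) (by omega)
  have H : Run D P F w y _ (par w.length 1 (s + 2)) T τ l' :=
    ⟨hF, i1, hpN, i2, fun k hk i => by
      rw [hpW]
      exact (hlt k (hk.trans hT₀) i).trans_le (Nat.pow_le_pow_right (by norm_num) (by omega)),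
      hacc, hfirst⟩
  exact ⟨_, _, H.accepts⟩

/-- Programs of random access machines on the words `F w` and `y`. -/
theorem sim_ram {c : ℕ} {D : LD} {F : List Bool → List Bool} {b : ℕ} (hc : 0 < c) (hF : D.Is F)
    (hlen : ∀ w, (F w).length ≤ b * (w.length + 1)) (hle : ∀ w, w.length ≤ (F w).length)
    (P : List Ins) (C : ℝ) :
    Sim c (fun w y => ∃ t, AcceptsAt P (F w) y t) fun w y => Fast P C (F w) y := by
  obtain ⟨C', n₁, h3⟩ := good_of_fast hF hlen hle P nilE hc C
  refine ⟨_, _, hub_nbm c (mach D P) nilE C', ?_, ?_, n₁, fun w y hw _ h => h3 w y hw h⟩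
  · rintro w y ⟨g, r, h⟩
    exact accepts_sound hF h
  · rintro w y ⟨t, s, m, r, -, -, h, hlt, -⟩
    exact accepts_complete hF P hlt h

end Pool.Agent.Helper92.RB
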