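import Pool.Agent.Helper92.RB.Defs
import Pool.Agent.Helper92.RF.Near

/-!
# Steps of programs inside one block, and steps without reading, on numbers

The named registers (with numbers `≤ bd P`) are given by a number `N`, the other registers of one block
by a number `V`.
-/

namespace Pool.Agent.Helper92.RB

open Pool.Agent.Helper65.LinSpace Pool.Agent.Helper78.Mpc Pool.Agent.Helper28.Ram Finset
open Pool.Agent.Helper81.Sus2
open Pool.Agent.Helper81.RP (Ins lett step AcceptsAt conf wd wf num_wd wd_num wf_eq linComp_wf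
  length_wd ls_pair hd tl ls_hd ls_tl hd_eq tl_eq a0 a1 dst npc uu ls_a1 ls_dst
  ls_npc selF selF_eq ls_selF isA accF accF_le accF_eq_one ls_accF bd pc_le a0_le a1_le npc_le cst
  cst_le conf_succ)
open Pool.Agent.Helper92.RE (LD inpL valL vvL step_eqL ls_valL lett_le lett_none lt_eq adr1 ls_adr1)
open Pool.Agent.Helper92.RF (setN setN_tab setN_lt uN ls_setN ls_uN cod cod_pc cod_reg Dead
  unpair_pair_fst unpair_pair_snd)

/-- The contents of the registers of the block `g` which are not named. -/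
def blk (P : List Ins) (W m : ℕ) (R : ℕ → ℕ) (g : ℕ) : ℕ :=
  tab W m fun i => if g * m + i ≤ bd P then 0 else R (g * m + i)

/-- The content of the register `i`. -/
def getN (P : List Ins) (W m N V i : ℕ) : ℕ :=
  ifz (lt01 i (bd P + 1)) (dig W V (i % m)) (dig W N i)

/-- Not `0` if the step is allowed: for `e = 1`, all accesses to registers which are not named are in the
block `g`; for `e = 0`, no such register is read. -/
def alN (P : List Ins) (e m g : ℕ) (o : Option Ins) (u : ℕ) : ℕ :=
  ifz (inpL o)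
    (ifz (lt01 (a1 o u) (bd P + 1)) (e * eq01 (a1 o u / m) g) 1 *
      ifz (lt01 (dst o u) (bd P + 1)) (ifz e 1 (eq01 (dst o u / m) g)) 1) 0

theorem alN_ne {P : List Ins} {e m g : ℕ} {o : Option Ins} {u : ℕ} :
    alN P e m g o u ≠ 0 ↔ inpL o = 0 ∧ (a1 o u ≤ bd P ∨ e ≠ 0 ∧ a1 o u / m = g) ∧
      (dst o u ≤ bd P ∨ e = 0 ∨ dst o u / m = g) := by
  unfold alN ifz lt01 eq01
  have h1 : a1 o u < bd P + 1 ↔ a1 o u ≤ bd P := Nat.lt_succ_iff
  have h2 : dst o u < bd P + 1 ↔ dst o u ≤ bd P := Nat.lt_succ_iff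
  split_ifs <;> simp_all

/-- One step for the instruction `o`. -/
def bstO (P : List Ins) (e W m g pc N V : ℕ) (o : Option Ins) : ℕ :=
  ifz (alN P e m g o (uN o W N)) (Nat.pair (Nat.pair pc N) V)
    (ifz (lt01 (valL o (uN o W N) (getN P W m N V (a1 o (uN o W N)))) W)
      (Nat.pair (Nat.pair P.length N) V)
      (Nat.pair (Nat.pair (npc o pc (uN o W N)) (setN W (bd P + 1) N (dst o (uN o W N))
          (valL o (uN o W N) (getN P W m N V (a1 o (uN o W N))))))
        (ifz (lt01 (dst o (uN o W N)) (bd P + 1))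
          (ifz (eq01 (dst o (uN o W N) / m) g) V (setN W m V (dst o (uN o W N) % m)
            (valL o (uN o W N) (getN P W m N V (a1 o (uN o W N)))))) V)))

/-- One step of the program, if it is allowed. -/
def bst (P : List Ins) (e W m g z : ℕ) : ℕ :=
  bstO P e W m g z.unpair.1.unpair.1 z.unpair.1.unpair.2 z.unpair.2 P[z.unpair.1.unpair.1]?

section ls

variable {α : Type} [Ctx α]

theorem ls_getN (P : List Ins) {W m N V i : α → ℕ} (hW : LS W) (hm : LS m) (hN : LS N) (hV : LS V)
    (hi : LS i) : LS (fun a => getN P (W a) (m a) (N a) (V a) (i a)) := by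
  unfold getN
  exact LS.ifz (LS.lt01 hi (LS.const _)) (LS.dig hW hV (LS.mod hi hm)) (LS.dig hW hN hi)

theorem ls_alN (P : List Ins) (e : ℕ) (o : Option Ins) {m g u : α → ℕ} (hm : LS m) (hg : LS g)
    (hu : LS u) : LS (fun a => alN P e (m a) (g a) o (u a)) := by
  unfold alN
  have h1 := ls_a1 o hu
  have h2 := ls_dst o hu
  exact LS.ifz (LS.const _) (LS.mul (LS.ifz (LS.lt01 h1 (LS.const _))
    (LS.mul (LS.const _) (LS.eq01 (LS.div h1 hm) hg)) (LS.const _))
      (LS.ifz (LS.lt01 h2 (LS.const _)) (LS.ifz (LS.const _) (LS.const _)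
        (LS.eq01 (LS.div h2 hm) hg)) (LS.const _))) (LS.const _)

theorem ls_bst (P : List Ins) (e : ℕ) {W m g z B : α → ℕ} (hW : LS W) (hm : LS m) (hg : LS g)
    (hz : LS z) (hB : LS B) (hW0 : ∀ a, 0 < W a) (hb : ∀ a, W a ^ m a ≤ B a) :
    LS (fun a => bst P e (W a) (m a) (g a) (z a)) := by
  have hpc : LS (fun a => (z a).unpair.1.unpair.1) := by fun_prop
  have hN : LS (fun a => (z a).unpair.1.unpair.2) := by fun_prop
  have hV : LS (fun a => (z a).unpair.2) := by fun_prop
  have h := ls_selF (α := α) (G := fun o a => bstO P e (W a) (m a) (g a) (z a).unpair.1.unpair.1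
    (z a).unpair.1.unpair.2 (z a).unpair.2 o) (fun o => ?_) P hpc
  · refine LS.congr h fun a => ?_
    rw [selF_eq]
    rfl
  · have hu := ls_uN o hW hN
    have h1 := ls_a1 o hu
    have h2 := ls_dst o hu
    have h3 := ls_valL o hu (ls_getN P hW hm hN hV h1)
    have h4 := ls_npc o hpc hu
    have h5 := ls_setN hW (LS.const (α := α) (bd P + 1)) hN h2 h3
      (B := fun a => W a ^ (bd P + 1)) (LS.pow_const hW _) hW0 fun a => le_rfl
    have h6 := ls_setN hW hm hV (LS.mod h2 hm) h3 hB hW0 hb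
    exact LS.ifz (ls_alN P e o hm hg hu) (ls_pair (ls_pair hpc hN) hV)
      (LS.ifz (LS.lt01 h3 hW) (ls_pair (ls_pair (LS.const _) hN) hV)
        (ls_pair (ls_pair h4 h5) (LS.ifz (LS.lt01 h2 (LS.const _))
          (LS.ifz (LS.eq01 (LS.div h2 hm) hg) hV h6) hV)))

end ls

/-! ### Steps of the program -/

/-- The step is allowed. -/
def Al (P : List Ins) (e m g : ℕ) (c : ℕ × (ℕ → ℕ)) : Prop := alN P e m g P[c.1]? (uu P c) ≠ 0

theorem al_zero {P : List Ins} {m g m' g' : ℕ} {c : ℕ × (ℕ → ℕ)} (h : Al P 0 m g c) :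
    Al P 0 m' g' c := by
  unfold Al at h ⊢
  rw [alN_ne] at h ⊢
  obtain ⟨h1, h2, -⟩ := h
  refine ⟨h1, ?_, Or.inr (Or.inl rfl)⟩
  rcases h2 with h2 | ⟨h2, -⟩
  · exact Or.inl h2
  · exact absurd rfl h2

section sim

variable {P : List Ins} {W m g : ℕ} {c : ℕ × (ℕ → ℕ)} {x y : List Bool}

theorem uN_cod (hR : ∀ i, c.2 i < W) : uN P[c.1]? W (tab W (bd P + 1) c.2) = uu P c := by
  unfold uN uu
  exact dig_tab (fun i _ => hR i) ((a0_le P c.1).trans_lt (Nat.lt_succ_self _))

theorem getN_named (hR : ∀ i, c.2 i < W) (V : ℕ) {i : ℕ} (hi : i ≤ bd P) :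
    getN P W m (tab W (bd P + 1) c.2) V i = c.2 i := by
  unfold getN
  have e1 : lt01 i (bd P + 1) = 1 := by
    unfold lt01
    rw [if_pos (by omega)]
  rw [e1, ifz_ne one_ne_zero, dig_tab (fun j _ => hR j) (by omega)]

theorem div_mul_add {i : ℕ} (h : i / m = g) : g * m + i % m = i := by
  rw [← h, mul_comm]
  exact Nat.div_add_mod i m

theorem getN_blk (hm : 0 < m) (hR : ∀ i, c.2 i < W) {i : ℕ} (hi : i ≤ bd P ∨ i / m = g) :
    getN P W m (tab W (bd P + 1) c.2) (blk P W m c.2 g) i = c.2 i := by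
  rcases le_or_gt i (bd P) with h | h
  · exact getN_named hR _ h
  · have hi' : i / m = g := by
      rcases hi with h1 | h1
      · omega
      · exact h1
    unfold getN
    have e1 : lt01 i (bd P + 1) = 0 := by
      unfold lt01
      rw [if_neg (by omega)]
    have hlt : ∀ j < m, (if g * m + j ≤ bd P then 0 else c.2 (g * m + j)) < W := by
      intro j _
      split_ifs
      · exact (Nat.zero_le _).trans_lt (hR 0)
      · exact hR _
    unfold blk
    rw [e1, ifz_zero, dig_tab hlt (Nat.mod_lt _ hm), div_mul_add hi', if_neg (by omega)]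

theorem blk_update_out {R : ℕ → ℕ} {j r : ℕ} (h : j ≤ bd P ∨ j / m ≠ g) :
    blk P W m (Function.update R j r) g = blk P W m R g := by
  refine tab_congr fun i hi => ?_
  by_cases h1 : g * m + i ≤ bd P
  · rw [if_pos h1, if_pos h1]
  · rw [if_neg h1, if_neg h1, Function.update_of_ne]
    rintro rfl
    rcases h with h | h
    · omega
    · refine h ?_
      rw [Nat.add_comm, Nat.add_mul_div_right _ _ (by omega), Nat.div_eq_of_lt hi, Nat.zero_add]

theorem blk_update_in (hR : ∀ i, c.2 i < W) {j r : ℕ} (hr : r < W) (hj : bd P < j)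
    (hg : j / m = g) : setN W m (blk P W m c.2 g) (j % m) r =
      blk P W m (Function.update c.2 j r) g := by
  rcases Nat.eq_zero_or_pos m with hm | hm
  · subst hm
    rfl
  unfold blk
  have hlt : ∀ i < m, (if g * m + i ≤ bd P then 0 else c.2 (g * m + i)) < W := by
    intro i _
    split_ifs
    · omega
    · exact hR _
  rw [setN_tab hlt hr]
  refine tab_congr fun i hi => ?_
  have h1 := div_mul_add hg
  by_cases h2 : i = j % m
  · subst h2
    rw [Function.update_self, h1, if_neg (by omega), Function.update_self]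
  · rw [Function.update_of_ne h2]
    by_cases h3 : g * m + i ≤ bd P
    · rw [if_pos h3, if_pos h3]
    · rw [if_neg h3, if_neg h3, Function.update_of_ne]
      intro h4
      exact h2 (by omega)

theorem nam_update (hR : ∀ i, c.2 i < W) {j r : ℕ} (hr : r < W) :
    setN W (bd P + 1) (tab W (bd P + 1) c.2) j r =
      tab W (bd P + 1) (Function.update c.2 j r) :=
  setN_tab (fun i _ => hR i) hr j

/-- The code of a configuration and a block. -/
def cb (P : List Ins) (W m g : ℕ) (c : ℕ × (ℕ → ℕ)) : ℕ :=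
  Nat.pair (cod W (bd P + 1) c) (blk P W m c.2 g)

theorem cb_fst (W m g : ℕ) (c : ℕ × (ℕ → ℕ)) : (cb P W m g c).unpair.1 = cod W (bd P + 1) c := by
  unfold cb
  rw [unpair_pair_fst]

theorem cb_snd (W m g : ℕ) (c : ℕ × (ℕ → ℕ)) : (cb P W m g c).unpair.2 = blk P W m c.2 g := by
  unfold cb
  rw [unpair_pair_snd]

theorem bst_cb (e : ℕ) : bst P e W m g (cb P W m g c) =
    bstO P e W m g c.1 (tab W (bd P + 1) c.2) (blk P W m c.2 g) P[c.1]? := by
  unfold bst
  rw [cb_fst, cb_snd, cod_pc, cod_reg]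

theorem al_iff (hR : ∀ i, c.2 i < W) (e : ℕ) : Al P e m g c ↔
    alN P e m g P[c.1]? (uN P[c.1]? W (tab W (bd P + 1) c.2)) ≠ 0 := by
  rw [uN_cod hR]
  exact Iff.rfl

/-- The value in an allowed step. -/
theorem val_al {e : ℕ} (hm : 0 < m ∨ e = 0) (hR : ∀ i, c.2 i < W) (h : Al P e m g c) :
    valL P[c.1]? (uN P[c.1]? W (tab W (bd P + 1) c.2)) (getN P W m (tab W (bd P + 1) c.2)
      (blk P W m c.2 g) (a1 P[c.1]? (uN P[c.1]? W (tab W (bd P + 1) c.2)))) =
      valL P[c.1]? (uu P c) (vvL P x y c) := by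
  obtain ⟨h1, h2, -⟩ := alN_ne.1 h
  rw [uN_cod hR]
  unfold vvL
  rw [h1, ifz_zero]
  rcases h2 with h2 | ⟨h2, h3⟩
  · rw [getN_named hR _ h2]
  · rcases hm with hm | hm
    · rw [getN_blk hm hR (Or.inr h3)]
    · exact absurd hm h2

/-- An allowed step. -/
theorem bst_step {e : ℕ} (hm : 0 < m ∨ e = 0) (hR : ∀ i, c.2 i < W) (h : Al P e m g c)
    (hr : valL P[c.1]? (uu P c) (vvL P x y c) < W) :
    bst P e W m g (cb P W m g c) = cb P W m g (step P x y c) := by
  rw [bst_cb]
  unfold bstO
  rw [val_al (x := x) (y := y) hm hR h, ifz_ne ((al_iff hR e).1 h), lt01, if_pos hr,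
    ifz_ne one_ne_zero, uN_cod hR, nam_update hR hr, step_eqL]
  unfold cb cod
  dsimp only
  congr 1
  rcases le_or_gt (dst P[c.1]? (uu P c)) (bd P) with h1 | h1
  · have e1 : lt01 (dst P[c.1]? (uu P c)) (bd P + 1) = 1 := by
      unfold lt01
      rw [if_pos (by omega)]
    rw [e1, ifz_ne one_ne_zero, blk_update_out (Or.inl h1)]
  · have e1 : lt01 (dst P[c.1]? (uu P c)) (bd P + 1) = 0 := by
      unfold lt01
      rw [if_neg (by omega)]
    rw [e1, ifz_zero]
    by_cases h2 : dst P[c.1]? (uu P c) / m = g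
    · have e2 : eq01 (dst P[c.1]? (uu P c) / m) g = 1 := by
        unfold eq01
        rw [if_pos h2]
      rw [e2, ifz_ne one_ne_zero, blk_update_in hR hr h1 h2]
    · have e2 : eq01 (dst P[c.1]? (uu P c) / m) g = 0 := by
        unfold eq01
        rw [if_neg h2]
      rw [e2, ifz_zero, blk_update_out (Or.inr h2)]

/-- A step which is not allowed. -/
theorem bst_stop {e : ℕ} (hR : ∀ i, c.2 i < W) (h : ¬Al P e m g c) :
    bst P e W m g (cb P W m g c) = cb P W m g c := by
  rw [bst_cb]
  unfold bstO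
  have h1 : alN P e m g P[c.1]? (uN P[c.1]? W (tab W (bd P + 1) c.2)) = 0 := by
    rw [al_iff hR] at h
    exact not_not.1 h
  rw [h1, ifz_zero]
  rfl

/-- A step with a number which is too large. -/
theorem bst_over {e : ℕ} (hm : 0 < m ∨ e = 0) (hR : ∀ i, c.2 i < W) (h : Al P e m g c)
    (hr : W ≤ valL P[c.1]? (uu P c) (vvL P x y c)) :
    Dead P (bst P e W m g (cb P W m g c)).unpair.1 := by
  rw [bst_cb]
  unfold bstO
  rw [val_al (x := x) (y := y) hm hR h, ifz_ne ((al_iff hR e).1 h), lt01,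
    if_neg (not_lt.2 hr), ifz_zero, unpair_pair_fst]
  unfold Dead
  rw [unpair_pair_fst]

theorem dead_bst {e : ℕ} {z : ℕ} (h : Dead P z.unpair.1) : Dead P (bst P e W m g z).unpair.1 := by
  unfold Dead at h ⊢
  have e1 : P[z.unpair.1.unpair.1]? = none := by rw [h]; simp
  unfold bst
  rw [e1]
  unfold bstO ifz
  split_ifs <;> rw [unpair_pair_fst, unpair_pair_fst] <;> exact h

theorem step_lt (hR : ∀ i, c.2 i < W) (hr : valL P[c.1]? (uu P c) (vvL P x y c) < W) :
    ∀ i, (step P x y c).2 i < W := by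
  intro i
  rw [step_eqL]
  show Function.update c.2 _ _ i < W
  by_cases h : i = dst P[c.1]? (uu P c)
  · subst h
    rw [Function.update_self]
    exact hr
  · rw [Function.update_of_ne h]
    exact hR i

end sim

/-! ### The run -/

/-- The code after `J` steps. -/
def runB (P : List Ins) (e W m g z J : ℕ) : ℕ := nrec z (fun _ r => bst P e W m g r) J

theorem runB_succ (P : List Ins) (e W m g z J : ℕ) :
    runB P e W m g z (J + 1) = bst P e W m g (runB P e W m g z J) := rfl

theorem runB_iter (P : List Ins) (e W m g z J : ℕ) :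
    runB P e W m g z J = (bst P e W m g)^[J] z := by
  induction J with
  | zero => rfl
  | succ J ih => rw [runB_succ, ih, Function.iterate_succ_apply']

theorem dead_runB {P : List Ins} {e W m g z : ℕ} (h : Dead P z.unpair.1) (J : ℕ) :
    Dead P (runB P e W m g z J).unpair.1 := by
  induction J with
  | zero => exact h
  | succ J ih =>
    rw [runB_succ]
    exact dead_bst ih

theorem npc_bound (P : List Ins) {p pc : ℕ} (h1 : pc ≤ p + bd P) (u : ℕ) :
    npc P[pc]? pc u ≤ p + bd P := by
  rcases h : P[pc]? with _ | o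
  · exact h1
  · have h4 := cst_le h
    have h5 : pc < P.length := (List.getElem?_eq_some_iff.1 h).1
    unfold bd
    cases o <;> simp only [npc, cst, ifz] at h4 ⊢ <;>
      first | omega | (split_ifs <;> omega)

theorem bst_bound (P : List Ins) {e W m g z p B : ℕ} (hW : 0 < W) (hB : W ^ m ≤ B)
    (h1 : z.unpair.1.unpair.1 ≤ p + bd P) (h2 : z.unpair.1.unpair.2 ≤ p + W ^ (bd P + 1))
    (h3 : z.unpair.2 ≤ p + B) :
    (bst P e W m g z).unpair.1.unpair.1 ≤ p + bd P ∧
      (bst P e W m g z).unpair.1.unpair.2 ≤ p + W ^ (bd P + 1) ∧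
        (bst P e W m g z).unpair.2 ≤ p + B := by
  unfold bst bstO
  have h4 : P.length ≤ bd P := by
    unfold bd
    omega
  have h5 := fun N i r => setN_lt (m := bd P + 1) hW N i r
  have h6 := fun V i r => setN_lt (m := m) hW V i r
  have h7 := npc_bound P h1
  unfold ifz
  split_ifs <;> simp only [unpair_pair_fst, unpair_pair_snd]
  · exact ⟨h1, h2, h3⟩
  · exact ⟨by omega, h2, h3⟩
  · exact ⟨h7 _, (h5 _ _ _).le.trans (Nat.le_add_left _ _), h3⟩
  · exact ⟨h7 _, (h5 _ _ _).le.trans (Nat.le_add_left _ _),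
      (h6 _ _ _).le.trans (hB.trans (Nat.le_add_left _ _))⟩
  · exact ⟨h7 _, (h5 _ _ _).le.trans (Nat.le_add_left _ _), h3⟩

theorem runB_bound (P : List Ins) {e W m g z B : ℕ} (hW : 0 < W) (hB : W ^ m ≤ B) (J : ℕ) :
    (runB P e W m g z J).unpair.1.unpair.1 ≤ z + bd P ∧
      (runB P e W m g z J).unpair.1.unpair.2 ≤ z + W ^ (bd P + 1) ∧
        (runB P e W m g z J).unpair.2 ≤ z + B := by
  induction J with
  | zero =>
    have h1 := Nat.unpair_left_le z
    have h2 := Nat.unpair_right_le z
    have h3 := Nat.unpair_left_le z.unpair.1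
    have h4 := Nat.unpair_right_le z.unpair.1
    exact ⟨(h3.trans h1).trans (Nat.le_add_right _ _), (h4.trans h1).trans (Nat.le_add_right _ _),
      h2.trans (Nat.le_add_right _ _)⟩
  | succ J ih => exact bst_bound P hW hB ih.1 ih.2.1 ih.2.2

/-- A bound for codes. -/
def capK (P : List Ins) (κ B : ℕ) : ℕ := (κ + B + bd P + 1) ^ 2

/-- A bound for codes. -/
def capB (P : List Ins) (z B B' : ℕ) : ℕ := (capK P z B + z + B' + 1) ^ 2

theorem runB_le (P : List Ins) {e W m g z B : ℕ} (hW : 0 < W) (hB : W ^ m ≤ B) (J : ℕ) :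
    runB P e W m g z J ≤ capB P z (W ^ (bd P + 1)) B := by
  obtain ⟨h1, h2, h3⟩ := runB_bound P (e := e) (g := g) (z := z) hW hB J
  have h4 : (runB P e W m g z J).unpair.1 ≤ capK P z (W ^ (bd P + 1)) := by
    rw [← Nat.pair_unpair (runB P e W m g z J).unpair.1]
    refine (Nat.pair_lt_max_add_one_sq _ _).le.trans ?_
    unfold capK
    refine Nat.pow_le_pow_left ?_ 2
    have : max (runB P e W m g z J).unpair.1.unpair.1 (runB P e W m g z J).unpair.1.unpair.2 ≤
        z + W ^ (bd P + 1) + bd P := max_le (by omega) (by omega)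
    omega
  rw [← Nat.pair_unpair (runB P e W m g z J)]
  refine (Nat.pair_lt_max_add_one_sq _ _).le.trans ?_
  unfold capB
  refine Nat.pow_le_pow_left ?_ 2
  have : max (runB P e W m g z J).unpair.1 (runB P e W m g z J).unpair.2 ≤
      capK P z (W ^ (bd P + 1)) + z + B := max_le (by omega) (by omega)
  omega

theorem ls_runB (P : List Ins) (e : ℕ) {α : Type} [Ctx α] {W m g z J B : α → ℕ} (hW : LS W)
    (hm : LS m) (hg : LS g) (hz : LS z) (hJ : LS J) (hB : LS B) (hW0 : ∀ a, 0 < W a)
    (hb : ∀ a, W a ^ m a ≤ B a) : LS (fun a => runB P e (W a) (m a) (g a) (z a) (J a)) := by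
  have hWp : LS (fun a => W a ^ (bd P + 1)) := LS.pow_const hW _
  have hC : LS (fun a => capB P (z a) (W a ^ (bd P + 1)) (B a)) := by
    unfold capB capK
    exact LS.pow_const (LS.add (LS.add (LS.add (LS.pow_const (LS.add (LS.add (LS.add hz hWp)
      (LS.const _)) (LS.const _)) 2) hz) hB) (LS.const _)) 2
  refine LS.nrec (G := z) (N := J) (C := fun a => capB P (z a) (W a ^ (bd P + 1)) (B a))
    (K := fun a _ r => bst P e (W a) (m a) (g a) r) hz hJ hC ?_
    fun a i _ => runB_le P (hW0 a) (hb a) i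
  have h1 : LS (fun p : α × ℕ × ℕ => W p.1) := LS.comp (g := W) hW (by fun_prop)
  have h2 : LS (fun p : α × ℕ × ℕ => m p.1) := LS.comp (g := m) hm (by fun_prop)
  have h3 : LS (fun p : α × ℕ × ℕ => g p.1) := LS.comp (g := g) hg (by fun_prop)
  have h4 : LS (fun p : α × ℕ × ℕ => B p.1) := LS.comp (g := B) hB (by fun_prop)
  exact ls_bst P e h1 h2 h3 (by fun_prop) h4 (fun p => hW0 p.1) fun p => hb p.1

/-! ### Results of runs -/

theorem conf_add (P : List Ins) (x y : List Bool) (k j : ℕ) :
    conf P x y (k + j) = (step P x y)^[j] (conf P x y k) := by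
  unfold conf
  rw [Nat.add_comm, Function.iterate_add_apply]

/-- The steps without reading, for all blocks at once. -/
theorem run0_sound {P : List Ins} {W : ℕ} (x y : List Bool) {c : ℕ × (ℕ → ℕ)}
    (hR : ∀ i, c.2 i < W) (J : ℕ) :
    (∀ m g, Dead P (runB P 0 W m g (cb P W m g c) J).unpair.1) ∨
    ∃ j, (∀ i, ((step P x y)^[j] c).2 i < W) ∧
      ∀ m g, runB P 0 W m g (cb P W m g c) J = cb P W m g ((step P x y)^[j] c) := by
  induction J with
  | zero => exact Or.inr ⟨0, hR, fun _ _ => rfl⟩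
  | succ J ih =>
    rcases ih with h | ⟨j, h1, h2⟩
    · exact Or.inl fun m g => dead_bst (h m g)
    · generalize hc' : (step P x y)^[j] c = c' at h1 h2
      by_cases ha : Al P 0 0 0 c'
      · rcases lt_or_ge (valL P[c'.1]? (uu P c') (vvL P x y c')) W with hr | hr
        · refine Or.inr ⟨j + 1, ?_, fun m g => ?_⟩
          · rw [Function.iterate_succ_apply', hc']
            exact step_lt h1 hr
          · rw [runB_succ, h2, Function.iterate_succ_apply', hc']
            exact bst_step (Or.inr rfl) h1 (al_zero ha) hr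
        · refine Or.inl fun m g => ?_
          rw [runB_succ, h2]
          exact bst_over (Or.inr rfl) h1 (al_zero ha) hr
      · refine Or.inr ⟨j, ?_, fun m g => ?_⟩
        · rw [hc']
          exact h1
        · rw [runB_succ, h2, hc']
          exact bst_stop h1 fun h => ha (al_zero h)

/-- The steps inside a block. -/
theorem run1_sound {P : List Ins} {W m g : ℕ} (x y : List Bool) (hm : 0 < m) {c : ℕ × (ℕ → ℕ)}
    (hR : ∀ i, c.2 i < W) (J : ℕ) :
    Dead P (runB P 1 W m g (cb P W m g c) J).unpair.1 ∨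
    ∃ j, (∀ i, ((step P x y)^[j] c).2 i < W) ∧
      runB P 1 W m g (cb P W m g c) J = cb P W m g ((step P x y)^[j] c) ∧
      ∀ g', g' ≠ g → blk P W m ((step P x y)^[j] c).2 g' = blk P W m c.2 g' := by
  induction J with
  | zero => exact Or.inr ⟨0, hR, rfl, fun _ _ => rfl⟩
  | succ J ih =>
    rcases ih with h | ⟨j, h1, h2, h3⟩
    · exact Or.inl (dead_bst h)
    · generalize hc' : (step P x y)^[j] c = c' at h1 h2 h3
      by_cases ha : Al P 1 m g c'
      · rcases lt_or_ge (valL P[c'.1]? (uu P c') (vvL P x y c')) W with hr | hr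
        · refine Or.inr ⟨j + 1, ?_, ?_, fun g' hg' => ?_⟩
          · rw [Function.iterate_succ_apply', hc']
            exact step_lt h1 hr
          · rw [runB_succ, h2, Function.iterate_succ_apply', hc']
            exact bst_step (Or.inl hm) h1 ha hr
          · rw [Function.iterate_succ_apply', hc', ← h3 g' hg', step_eqL]
            refine blk_update_out ?_
            rcases (alN_ne.1 ha).2.2 with h4 | h4 | h4
            · exact Or.inl h4
            · exact absurd h4 one_ne_zero
            · exact Or.inr fun h5 => hg' (h5.symm.trans h4)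
        · rw [runB_succ, h2]
          exact Or.inl (bst_over (Or.inl hm) h1 ha hr)
      · refine Or.inr ⟨j, ?_, ?_, ?_⟩
        · rw [hc']
          exact h1
        · rw [runB_succ, h2, hc']
          exact bst_stop h1 ha
        · rw [hc']
          exact h3

/-- The first iterate with a property has a small number. -/
theorem first_le {f : ℕ → ℕ} {x C j : ℕ} (hC : ∀ i, f^[i] x ≤ C) {p : ℕ → Prop}
    (h1 : p (f^[j] x)) (h2 : ∀ i < j, ¬p (f^[i] x)) : j ≤ C + 1 := by
  by_contra hcon
  have h4 : Set.InjOn (fun i => f^[i] x) (range j : Finset ℕ) := by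
    intro a ha b hb hab
    simp only [Finset.coe_range, Set.mem_Iio] at ha hb
    simp only at hab
    by_contra hne
    have key : ∀ a b : ℕ, a < b → b < j → f^[a] x = f^[b] x → False := by
      intro a b hab hb h5
      refine h2 (j - b + a) (by omega) ?_
      rw [Function.iterate_add_apply, h5, ← Function.iterate_add_apply,
        show j - b + b = j by omega]
      exact h1
    rcases lt_or_gt_of_ne hne with h5 | h5
    · exact key a b h5 hb hab
    · exact key b a h5 ha hab.symm
  have h5 : (range j).card ≤ (range (C + 1)).card :=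
    Finset.card_le_card_of_injOn (fun i => f^[i] x)
      (fun i _ => Finset.mem_coe.2 (mem_range.2 (Nat.lt_succ_of_le (hC i)))) h4
  rw [card_range, card_range] at h5
  omega

/-- The step without reading, for the named registers. -/
def kst (P : List Ins) (W κ : ℕ) : ℕ := (bst P 0 W 0 0 (Nat.pair κ 0)).unpair.1

theorem bst_fst (P : List Ins) (W m g z : ℕ) :
    (bst P 0 W m g z).unpair.1 = kst P W z.unpair.1 := by
  unfold kst bst
  rw [unpair_pair_fst, unpair_pair_snd]
  set pc := z.unpair.1.unpair.1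
  set N := z.unpair.1.unpair.2
  have hz : Nat.pair pc N = z.unpair.1 := Nat.pair_unpair _
  generalize z.unpair.2 = V
  unfold bstO
  set u := uN P[pc]? W N
  have key : alN P 0 m g P[pc]? u = alN P 0 0 0 P[pc]? u := by
    unfold alN
    rw [zero_mul, zero_mul, ifz_zero, ifz_zero]
  by_cases h : alN P 0 0 0 P[pc]? u = 0
  · rw [key, h, ifz_zero, ifz_zero, unpair_pair_fst, unpair_pair_fst]
  · obtain ⟨-, h2, -⟩ := alN_ne.1 h
    have h3 : a1 P[pc]? u ≤ bd P := by
      rcases h2 with h2 | ⟨h2, -⟩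
      · exact h2
      · exact absurd rfl h2
    have h4 : ∀ m V, getN P W m N V (a1 P[pc]? u) = dig W N (a1 P[pc]? u) := by
      intro m V
      unfold getN
      have e1 : lt01 (a1 P[pc]? u) (bd P + 1) = 1 := by
        unfold lt01
        rw [if_pos (by omega)]
      rw [e1, ifz_ne one_ne_zero]
    rw [key, ifz_ne h, ifz_ne h, h4, h4]
    unfold ifz
    split_ifs <;> simp only [unpair_pair_fst]

theorem runB_fst (P : List Ins) (W m g z J : ℕ) :
    (runB P 0 W m g z J).unpair.1 = (kst P W)^[J] z.unpair.1 := by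
  induction J with
  | zero => rfl
  | succ J ih => rw [runB_succ, bst_fst, ih, Function.iterate_succ_apply']

theorem kst_le (P : List Ins) {W : ℕ} (hW : 0 < W) (κ J : ℕ) :
    (kst P W)^[J] κ ≤ capK P κ (W ^ (bd P + 1)) := by
  have h : ((kst P W)^[J] κ).unpair.1 ≤ κ + bd P ∧
      ((kst P W)^[J] κ).unpair.2 ≤ κ + W ^ (bd P + 1) := by
    induction J with
    | zero =>
      exact ⟨(Nat.unpair_left_le κ).trans (Nat.le_add_right _ _),
        (Nat.unpair_right_le κ).trans (Nat.le_add_right _ _)⟩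
    | succ J ih =>
      rw [Function.iterate_succ_apply']
      have h1 := bst_bound P (e := 0) (W := W) (m := 0) (g := 0)
        (z := Nat.pair ((kst P W)^[J] κ) 0) (p := κ) (B := 1) hW (by rw [pow_zero])
        (by rw [unpair_pair_fst]; exact ih.1) (by rw [unpair_pair_fst]; exact ih.2)
        (by rw [unpair_pair_snd]; omega)
      exact ⟨h1.1, h1.2.1⟩
  rw [← Nat.pair_unpair ((kst P W)^[J] κ)]
  refine (Nat.pair_lt_max_add_one_sq _ _).le.trans ?_
  unfold capK
  refine Nat.pow_le_pow_left ?_ 2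
  have : max ((kst P W)^[J] κ).unpair.1 ((kst P W)^[J] κ).unpair.2 ≤
      κ + W ^ (bd P + 1) + bd P := max_le (by omega) (by omega)
  omega

/-- The next instruction is `accept`. -/
def Acc (P : List Ins) (c : ℕ × (ℕ → ℕ)) : Prop := P[c.1]? = some .accept

theorem step_acc {P : List Ins} {x y : List Bool} {c : ℕ × (ℕ → ℕ)} (h : Acc P c) :
    step P x y c = c := by
  unfold step
  rw [show P[c.1]? = some .accept from h]

theorem al_acc {P : List Ins} {e m g : ℕ} {c : ℕ × (ℕ → ℕ)} (h : Acc P c) : Al P e m g c := by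
  unfold Al
  rw [show P[c.1]? = some .accept from h, alN_ne]
  exact ⟨rfl, Or.inl (Nat.zero_le _), Or.inl (Nat.zero_le _)⟩

theorem val_acc {P : List Ins} {x y : List Bool} {c : ℕ × (ℕ → ℕ)} (h : Acc P c) :
    valL P[c.1]? (uu P c) (vvL P x y c) = c.2 0 := by
  unfold vvL
  rw [show P[c.1]? = some .accept from h]
  simp [valL, inpL, a1, ifz]

theorem bst_end {P : List Ins} {e W m g : ℕ} (x y : List Bool) {c : ℕ × (ℕ → ℕ)}
    (hm : 0 < m ∨ e = 0) (hR : ∀ i, c.2 i < W) (h : ¬Al P e m g c ∨ Acc P c) :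
    bst P e W m g (cb P W m g c) = cb P W m g c := by
  rcases h with h | h
  · exact bst_stop hR h
  · rw [bst_step (x := x) (y := y) hm hR (al_acc h) (by rw [val_acc h]; exact hR 0), step_acc h]

/-- The codes in a run. -/
theorem runB_conf {P : List Ins} {e W m g : ℕ} {x y : List Bool} (hm : 0 < m ∨ e = 0) {k j : ℕ}
    (hlt : ∀ i ≤ j, ∀ r, (conf P x y (k + i)).2 r < W)
    (hal : ∀ i < j, Al P e m g (conf P x y (k + i))) {i : ℕ} (hi : i ≤ j) :
    runB P e W m g (cb P W m g (conf P x y k)) i = cb P W m g (conf P x y (k + i)) := by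
  induction i with
  | zero => rfl
  | succ i ih =>
    rw [runB_succ, ih (by omega), ← Nat.add_assoc, conf_succ]
    refine bst_step hm (hlt i (by omega)) (hal i (by omega)) ?_
    have h2 := hlt (i + 1) hi (dst P[(conf P x y (k + i)).1]? (uu P (conf P x y (k + i))))
    rw [← Nat.add_assoc, conf_succ, step_eqL] at h2
    simpa using h2

theorem runB_const {P : List Ins} {e W m g z j : ℕ}
    (h : bst P e W m g (runB P e W m g z j) = runB P e W m g z j) {J : ℕ} (hJ : j ≤ J) :
    runB P e W m g z J = runB P e W m g z j := by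
  obtain ⟨i, rfl⟩ := Nat.exists_eq_add_of_le hJ
  rw [runB_iter, runB_iter] at *
  rw [Nat.add_comm, Function.iterate_add_apply]
  exact Function.iterate_fixed h i

/-- The end of a run inside a block. -/
theorem run1_reach {P : List Ins} {W m g B : ℕ} {x y : List Bool} (hm : 0 < m) (hW : 0 < W)
    (hB : W ^ m ≤ B) {k j : ℕ} (hlt : ∀ i ≤ j, ∀ r, (conf P x y (k + i)).2 r < W)
    (hal : ∀ i < j, Al P 1 m g (conf P x y (k + i)) ∧ ¬Acc P (conf P x y (k + i)))
    (he : ¬Al P 1 m g (conf P x y (k + j)) ∨ Acc P (conf P x y (k + j))) :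
    runB P 1 W m g (cb P W m g (conf P x y k))
      (capB P (cb P W m g (conf P x y k)) (W ^ (bd P + 1)) B + 1) =
      cb P W m g (conf P x y (k + j)) := by
  have h1 : ∀ i ≤ j, runB P 1 W m g (cb P W m g (conf P x y k)) i =
      cb P W m g (conf P x y (k + i)) := fun i hi =>
    runB_conf (Or.inl hm) hlt (fun i hi => (hal i hi).1) hi
  have h2 : j ≤ capB P (cb P W m g (conf P x y k)) (W ^ (bd P + 1)) B + 1 := by
    refine first_le (f := bst P 1 W m g) (x := cb P W m g (conf P x y k))
      (p := fun z => alN P 1 m g P[z.unpair.1.unpair.1]? (uN P[z.unpair.1.unpair.1]? W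
        z.unpair.1.unpair.2) = 0 ∨ P[z.unpair.1.unpair.1]? = some .accept) (fun i => ?_) ?_ ?_
    · rw [← runB_iter]
      exact runB_le P hW hB i
    · rw [← runB_iter, h1 j le_rfl]
      rw [cb_fst, cod_pc, cod_reg]
      rcases he with he | he
      · rw [al_iff (hlt j le_rfl)] at he
        exact Or.inl (not_not.1 he)
      · exact Or.inr he
    · intro i hi
      rw [← runB_iter, h1 i hi.le]
      rw [cb_fst, cod_pc, cod_reg]
      rintro (h3 | h3)
      · exact (al_iff (hlt i hi.le) 1).1 (hal i hi).1 h3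
      · exact (hal i hi).2 h3
  rw [runB_const (j := j) ?_ h2, h1 j le_rfl]
  rw [h1 j le_rfl]
  exact bst_end x y (Or.inl hm) (hlt j le_rfl) he

/-- The end of a run without reading. -/
theorem run0_reach {P : List Ins} {W : ℕ} {x y : List Bool} (hW : 0 < W) {k j : ℕ}
    (hlt : ∀ i ≤ j, ∀ r, (conf P x y (k + i)).2 r < W)
    (hal : ∀ i < j, Al P 0 0 0 (conf P x y (k + i)) ∧ ¬Acc P (conf P x y (k + i)))
    (he : ¬Al P 0 0 0 (conf P x y (k + j)) ∨ Acc P (conf P x y (k + j))) (m g : ℕ) :
    runB P 0 W m g (cb P W m g (conf P x y k))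
      (capK P (cod W (bd P + 1) (conf P x y k)) (W ^ (bd P + 1)) + 1) =
      cb P W m g (conf P x y (k + j)) := by
  have h1 : ∀ m g, ∀ i ≤ j, runB P 0 W m g (cb P W m g (conf P x y k)) i =
      cb P W m g (conf P x y (k + i)) := fun m g i hi =>
    runB_conf (Or.inr rfl) hlt (fun i hi => al_zero (hal i hi).1) hi
  have h2 : j ≤ capK P (cod W (bd P + 1) (conf P x y k)) (W ^ (bd P + 1)) + 1 := by
    have h3 : ∀ i ≤ j, (kst P W)^[i] (cod W (bd P + 1) (conf P x y k)) =
        cod W (bd P + 1) (conf P x y (k + i)) := by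
      intro i hi
      have h4 := congrArg (fun z => z.unpair.1) (h1 0 0 i hi)
      rwa [runB_fst, cb_fst, cb_fst] at h4
    refine first_le (f := kst P W) (x := cod W (bd P + 1) (conf P x y k))
      (p := fun z => alN P 0 0 0 P[z.unpair.1]? (uN P[z.unpair.1]? W
        z.unpair.2) = 0 ∨ P[z.unpair.1]? = some .accept) (fun i => kst_le P hW _ i) ?_ ?_
    · rw [h3 j le_rfl]
      rw [cod_pc, cod_reg]
      rcases he with he | he
      · rw [al_iff (hlt j le_rfl)] at he
        exact Or.inl (not_not.1 he)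
      · exact Or.inr he
    · intro i hi
      rw [h3 i hi.le]
      rw [cod_pc, cod_reg]
      rintro (h4 | h4)
      · exact (al_iff (hlt i hi.le) 0).1 (hal i hi).1 h4
      · exact (hal i hi).2 h4
  rw [runB_const (j := j) ?_ h2, h1 m g j le_rfl]
  rw [h1 m g j le_rfl]
  refine bst_end x y (Or.inr rfl) (hlt j le_rfl) ?_
  rcases he with he | he
  · exact Or.inl fun h => he (al_zero h)
  · exact Or.inr he

end Pool.Agent.Helper92.RB
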