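import Pool.Agent.Helper92.RB.Init
import Pool.Agent.Helper92.RF.Bnd

/-!
# Programs with few expensive changes as machines with messages: bounds
-/

namespace Pool.Agent.Helper92.RB

open Pool.Agent.Helper65.LinSpace Pool.Agent.Helper78.Mpc Pool.Agent.Helper28.Ram Finset
open Pool.Agent.Helper81.Sus2
open Pool.Agent.Helper81.RP (Ins lett step AcceptsAt conf wd wf num_wd wd_num wf_eq a0 a1 dst npc uu
  bd conf_succ wd_one wd_cons_false pc_le a0_le a1_le pair_lt length_wd_le length_wd)
open Pool.Agent.Helper92.RE (LD sto pO nO uO vO sto_pos pO_sto nO_sto uO_sto vO_sto nconf_succ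
  length_sto adr1 adr1_lt inpL lett_le)
open Pool.Agent.Helper92.RF (cod cod_pc cod_reg Dead parN parW parW_pos unpair_pair_fst
  unpair_pair_snd dst_le top top_pow exists_last length_letter tab_lt_pow bitsN_pos)
open scoped Classical

section

variable {D : LD} {P : List Ins} {F : List Bool → List Bool} {w y : List Bool} {g : ℕ → Bool}
  {G T τ l : ℕ}

/-- The configurations of the main phase. -/
theorem Run.cases (H : Run D P F w y g G T τ l) {t : ℕ} (h1 : τ ≤ t)
    (h2 : t ≤ τ + mt P (F w) y (parM G) T + 1) :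
    (∃ k ≤ T, (mach D P).conf w y g t = (wd (sto 0 6 G (conf P (F w) y k).1
      (tab (parW G) (bd P + 1) (conf P (F w) y k).2)),
      memB P w y (parW G) (parM G) l (conf P (F w) y k).2)) ∨
    (∃ k < T, MsgAt P (F w) y (parM G) k ∧ t = τ + mt P (F w) y (parM G) k + 1 ∧ ∃ k₂ e,
      k₂ ≤ T ∧ e ≤ T ∧ (mach D P).conf w y g t =
      (wd (sto 0 7 G (Nat.pair (bOf P (parM G) (conf P (F w) y k) + 1)
          (cod (parW G) (bd P + 1) (conf P (F w) y k)))
        (cod (parW G) (bd P + 1) (conf P (F w) y k₂))),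
        memB P w y (parW G) (parM G) l (conf P (F w) y e).2)) ∨
    (mach D P).conf w y g t = (wd (sto 1 9 0 0 0),
        memB P w y (parW G) (parM G) l (conf P (F w) y T).2) := by
  rcases Nat.lt_or_ge (τ + mt P (F w) y (parM G) T) t with h3 | h3
  · refine Or.inr (Or.inr ?_)
    rw [show t = τ + mt P (F w) y (parM G) T + 1 by omega]
    exact H.last
  · obtain ⟨k, -, h4, ⟨h5, h6⟩, h7⟩ := exists_last
      (p := fun k => md P (F w) y (parM G) k = 0 ∧ τ + mt P (F w) y (parM G) k ≤ t)
      (a := 0) (b := T + 1) ⟨0, le_rfl, Nat.succ_pos _, rfl, by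
        show τ + 0 ≤ t
        omega⟩
    rcases Nat.eq_or_lt_of_le h6 with h8 | h8
    · refine Or.inl ⟨k, by omega, ?_⟩
      rw [← h8]
      exact H.main (by omega) h5
    · have hkT : k < T := by
        rcases Nat.lt_or_ge k T with h | h
        · exact h
        · have : k = T := by omega
          subst this
          omega
      obtain ⟨e, g1, g2, g3, g4⟩ := exists_next hkT H.mdT
      have g5 := h7 e g1 (by omega)
      have g6 : t < τ + mt P (F w) y (parM G) e := by
        by_contra hcon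
        exact g5 ⟨g3, by omega⟩
      have g7 := mt_in (P := P) (x := F w) (y := y) (m := parM G) (k := k + 1) (k' := e)
        (by omega) fun i q1 q2 => g4 i (by omega) q2
      by_cases hs : NSt P (conf P (F w) y k)
      · have g8 := mt_succ_msg (P := P) (x := F w) (y := y) (m := parM G) ⟨h5, hs⟩
        have ht : t = τ + mt P (F w) y (parM G) k + 1 := by omega
        obtain ⟨k₂, e', q1, q2, q3⟩ := H.atMsg hkT ⟨h5, hs⟩
        refine Or.inr (Or.inl ⟨k, hkT, ⟨h5, hs⟩, ht, k₂, e', q1, q2, ?_⟩)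
        rw [ht]
        exact q3
      · have g8 := mt_succ_nst (P := P) (x := F w) (y := y) (m := parM G) h5 hs
        omega

/-! ### Guesses and messages -/

theorem Run.guesses (H : Run D P F w y g G T τ l) {t' : ℕ} (t : ℕ)
    (h : t' ≤ τ + mt P (F w) y (parM G) T + 1) :
    (mach D P).guesses w y g t t' ≤ τ := by
  unfold NBM.guesses
  have hsub : {i : ℕ | t ≤ i ∧ i < t' ∧ (mach D P).ask ((mach D P).conf w y g i).1} ⊆
      ↑(range τ) := by
    rintro i ⟨-, h2, h3⟩
    refine mem_coe.2 (mem_range.2 ?_)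
    by_contra hcon
    have key : ∀ (f p n u v : ℕ) (M : List Bool → List Bool), f ≤ 1 → 2 ≤ p →
        (mach D P).conf w y g i = (wd (sto f p n u v), M) → False := by
      intro f p n u v M hf hp e
      rw [e] at h3
      have h4 : (mach D P).ask (wd (sto f p n u v)) = true := h3
      rw [ask_wd D P (sto_pos _ _ _ _ _), pO_sto hf] at h4
      exact absurd (of_decide_eq_true h4) (not_lt.2 hp)
    rcases H.cases (t := i) (by omega) (by omega) with ⟨k, -, e⟩ |
      ⟨k, -, -, -, k₂, e', -, -, e⟩ | e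
    · exact key _ _ _ _ _ _ (Nat.zero_le 1) (by norm_num) e
    · exact key _ _ _ _ _ _ (Nat.zero_le 1) (by norm_num) e
    · exact key _ _ _ _ _ _ le_rfl (by norm_num) e
  refine (Set.ncard_le_ncard hsub (Finset.finite_toSet _)).trans ?_
  rw [Set.ncard_coe_finset, card_range]

theorem Run.msgs (H : Run D P F w y g G T τ l) {t t' : ℕ}
    (h : t' ≤ τ + mt P (F w) y (parM G) T + 1) :
    (mach D P).msgs w y g t t' ≤ τ + {k : ℕ | k < T ∧ MsgAt P (F w) y (parM G) k ∧
      t < τ + mt P (F w) y (parM G) k + 1 ∧ τ + mt P (F w) y (parM G) k + 1 ≤ t'}.ncard := by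
  unfold NBM.msgs
  set S := {k : ℕ | k < T ∧ MsgAt P (F w) y (parM G) k ∧
      t < τ + mt P (F w) y (parM G) k + 1 ∧
      τ + mt P (F w) y (parM G) k + 1 ≤ t'} with hS
  have hfin : S.Finite := (Set.finite_lt_nat T).subset fun k hk => hk.1
  have hsub : {i : ℕ | t ≤ i ∧ i < t' ∧ (mach D P).msg ((mach D P).conf w y g (i + 1)).1} ⊆
      ↑(range τ) ∪ (fun k => τ + mt P (F w) y (parM G) k) '' S := by
    rintro i ⟨h1, h2, h3⟩
    rcases Nat.lt_or_ge i τ with hi | hi
    · exact Or.inl (mem_coe.2 (mem_range.2 hi))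
    · refine Or.inr ?_
      have key : ∀ (f p n u v : ℕ) (M : List Bool → List Bool), f ≤ 1 →
          (mach D P).conf w y g (i + 1) = (wd (sto f p n u v), M) → p = 5 ∨ p = 7 := by
        intro f p n u v M hf e
        rw [e] at h3
        have h4 : (mach D P).msg (wd (sto f p n u v)) = true := h3
        rw [msg_wd D P (sto_pos _ _ _ _ _), pO_sto hf] at h4
        exact of_decide_eq_true h4
      rcases H.cases (t := i + 1) (by omega) (by omega) with ⟨k, -, e⟩ |
        ⟨k, k1, k2, k3, k₂, e', -, -, e⟩ | e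
      · have h5 := key _ _ _ _ _ _ (Nat.zero_le 1) e
        omega
      · exact ⟨k, ⟨k1, k2, by omega, by omega⟩, by dsimp only; omega⟩
      · have h5 := key _ _ _ _ _ _ le_rfl e
        omega
  refine (Set.ncard_le_ncard hsub ((Finset.finite_toSet _).union (hfin.image _))).trans ?_
  refine (Set.ncard_union_le _ _).trans (Nat.add_le_add ?_ (Set.ncard_image_le hfin))
  rw [Set.ncard_coe_finset, card_range]

theorem mt_sub {x : List Bool} {m k k' : ℕ} (h : k ≤ k') :
    mt P x y m k' ≤ mt P x y m k + 2 * (k' - k) := by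
  induction k' with
  | zero => rw [show k = 0 by omega]; omega
  | succ k' ih =>
    rcases Nat.le_succ_iff.1 h with h1 | rfl
    · have h2 := ih h1
      have h3 := mt_succ_le (P := P) (x := x) (y := y) (m := m) k'
      omega
    · exact Nat.le_add_right _ _

/-- A stretch of the computation of the machine and one of the program. -/
theorem stretch {x : List Bool} {m t t' : ℕ} (h : t ≤ t') (h' : t' ≤ τ + mt P x y m T + 1) :
    ∃ u v, u ≤ v ∧ v ≤ T ∧
      (∀ k, u < k → k < v → t < τ + mt P x y m k ∧ τ + mt P x y m k < t') ∧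
      (∀ k < T, MsgAt P x y m k → t < τ + mt P x y m k + 1 →
        τ + mt P x y m k + 1 ≤ t' → u ≤ k ∧ k < v) ∧ t' ≤ t + τ + 2 * (v - u) + 2 := by
  rcases Nat.eq_or_lt_of_le h with rfl | htt
  · exact ⟨0, 0, le_rfl, Nat.zero_le _, fun k _ _ => by omega, fun k _ _ _ _ => by omega,
      by omega⟩
  obtain ⟨u, hu0, hu1, hu2, hu3⟩ : ∃ u ≤ T, (∀ k, u < k → k ≤ T → t < τ + mt P x y m k) ∧
      (∀ k < T, MsgAt P x y m k → t < τ + mt P x y m k + 1 → u ≤ k) ∧
      (τ + mt P x y m u ≤ t ∨ u = 0 ∧ t < τ) := by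
    by_cases hτ : τ ≤ t
    · obtain ⟨u, -, h4, h5, h6⟩ := exists_last
        (p := fun k => τ + mt P x y m k ≤ t)
        (a := 0) (b := T + 1) ⟨0, le_rfl, Nat.succ_pos _, by
          show τ + 0 ≤ t
          omega⟩
      refine ⟨u, by omega, fun k h7 h8 => not_le.1 (h6 k h7 (by omega)), fun k h7 h8 h9 => ?_,
        Or.inl h5⟩
      by_contra hcon
      have h10 := mt_succ_msg h8
      have h11 := mt_mono (P := P) (x := x) (y := y) (m := m) (show k + 1 ≤ u by omega)
      omega
    · exact ⟨0, Nat.zero_le _, fun k _ _ => by omega, fun k _ _ _ => Nat.zero_le _,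
        Or.inr ⟨rfl, by omega⟩⟩
  obtain ⟨v, hv0, hv1, hv2, hv3, hv4⟩ : ∃ v ≤ T, (∀ k < v, τ + mt P x y m k < t') ∧
      (∀ k < T, τ + mt P x y m k + 1 ≤ t' → k < v) ∧ t' ≤ τ + mt P x y m v + 1 ∧
      (t' ≤ τ + mt P x y m v ∨ v = T) := by
    by_cases hE : ∃ k, t' ≤ τ + mt P x y m k ∧ k ≤ T
    · have h1 := Nat.find_spec hE
      refine ⟨Nat.find hE, h1.2, fun k hk => ?_, fun k hk hk2 => ?_, by omega, Or.inl h1.1⟩
      · by_contra hcon
        exact Nat.find_min hE hk ⟨by omega, by omega⟩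
      · by_contra hcon
        have h2 := mt_mono (P := P) (x := x) (y := y) (m := m) (not_lt.1 hcon)
        omega
    · refine ⟨T, le_rfl, fun k hk => ?_, fun k hk _ => hk, h', Or.inr rfl⟩
      by_contra hcon
      exact hE ⟨k, by omega, hk.le⟩
  have huv : u ≤ v := by
    rcases hv4 with h1 | rfl
    · by_contra hcon
      have h2 := mt_mono (P := P) (x := x) (y := y) (m := m) (not_le.1 hcon).le
      omega
    · exact hu0
  have hsub := mt_sub (P := P) (x := x) (y := y) (m := m) huv
  refine ⟨u, v, huv, hv0, fun k h1 h2 => ⟨hu1 k h1 (by omega), hv1 k h2⟩,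
    fun k h1 h2 h3 h4 => ⟨hu2 k h1 h2 h3, hv2 k h1 h4⟩, ?_⟩
  rcases hu3 with h1 | ⟨rfl, h1⟩
  · omega
  · have h2 : mt P x y m 0 = 0 := rfl
    omega

/-! ### Lengths -/

theorem memB_length {W m l a : ℕ} {R : ℕ → ℕ} (hR : ∀ i, R i < W) (hl : W ^ m ≤ 2 ^ l)
    (h3 : 3 ≤ a) (ha : l ≤ a) (i : List Bool) : (memB P w y W m l R i).length ≤ a := by
  have hcell : ∀ g, (wd (2 ^ l + blk P W m R g)).length ≤ a := by
    intro g
    refine (length_wd_le (k := l) (by positivity) ?_).trans ha
    have h1 := blk_lt (P := P) (m := m) hR g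
    rw [pow_succ]
    omega
  rcases i with _ | ⟨b, u⟩
  · exact hcell 0
  · cases b
    · show (wd (1 + lett w[bval u]? + 3 * lett y[bval u]?)).length ≤ a
      refine (length_wd_le (k := 3) (by omega) ?_).trans (by omega)
      have h2 := lett_le w[bval u]?
      have h3 := lett_le y[bval u]?
      norm_num
      omega
    · exact hcell (num u)

theorem memB_length0 {W m l a : ℕ} (h3 : 3 ≤ a) (ha : l ≤ a) (i : List Bool) :
    (memB P w y W m l (fun _ => 0) i).length ≤ a := by
  have h := memB_zero P w y W m 1 0 l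
  rw [h]
  exact memB_length (fun _ => Nat.one_pos) (by rw [pow_zero]; exact Nat.one_le_two_pow) h3 ha i

theorem addr_wd (D : LD) (P : List Ins) {x : ℕ} (hx : 0 < x) :
    (mach D P).addr (wd x) = wd (addrF D P x) :=
  wf_eq (by rw [num_wd hx]) (addrF_pos D P x)

theorem length_memA {D : LD} {pc p u s : ℕ} (hb : bd P < 2 ^ s) (hn : parN p < 2 ^ s)
    (hu : u < 2 ^ s) : (wd (memA D p P[pc]? u)).length ≤ s + 2 := by
  unfold memA
  by_cases h0 : inpL P[pc]? = 0
  · rw [h0, ifz_zero]
    refine length_wd_le (by omega) ?_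
    have h1 := a1_le P pc u
    have h2 : rgO P[pc]? u ≤ bd P + u := by
      unfold rgO ifz
      split_ifs
      · exact h1
      · rcases dst_le P pc u with h3 | ⟨i, j, -, h3⟩ <;> omega
    have h3 : rgO P[pc]? u / parM p ≤ rgO P[pc]? u := Nat.div_le_self _ _
    have h4 : 2 ^ (s + 2 + 1) = 8 * 2 ^ s := by
      rw [pow_succ, pow_succ, pow_succ]
      ring
    omega
  · rw [ifz_ne h0]
    refine (length_letter (s := s) ?_).trans (by omega)
    unfold ifz
    split_ifs
    · exact adr1_lt hn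
    · exact hu

/-- **Bounds.** -/
theorem Run.fits (H : Run D P F w y g G T τ l) {s a : ℕ} (hs : 4 ≤ s) (hb : bd P < 2 ^ s)
    (hn : w.length < 2 ^ s) (hW : parW G ≤ 2 ^ s) (hG : G < 2 ^ (8 * s)) (ha : s ≤ a)
    (hl : l ≤ a) (hE : ∀ t < τ, Early P w y G a ((mach D P).conf w y g t)) :
    (mach D P).Fits w y g (τ + mt P (F w) y (parM G) T + 1) (65 * (s * (bd P + 1))) a := by
  set e := 8 * (s * (bd P + 1)) with he
  have h8 : 8 * s ≤ e := by
    rw [he]
    have : s ≤ s * (bd P + 1) := Nat.le_mul_of_pos_right _ (Nat.succ_pos _)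
    omega
  have hss : s ≤ s * (bd P + 1) := Nat.le_mul_of_pos_right _ (Nat.succ_pos _)
  have hmono : ∀ {z b : ℕ}, z < 2 ^ b → b ≤ e → z < 2 ^ e := fun h1 h2 =>
    h1.trans_le (Nat.pow_le_pow_right (by norm_num) h2)
  have h16 : 16 ≤ 2 ^ s := by
    calc 16 = 2 ^ 4 := by norm_num
      _ ≤ 2 ^ s := Nat.pow_le_pow_right (by norm_num) hs
  have hG' : G < 2 ^ e := hmono hG h8
  have hsmall : ∀ z, z ≤ 10 → z < 2 ^ e := fun z hz => hmono (b := s) (by omega) (by omega)
  have hst : ∀ f p n u v, f ≤ 1 → p ≤ 10 → n < 2 ^ e → u < 2 ^ e → v < 2 ^ e →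
      (wd (sto f p n u v)).length ≤ 65 * (s * (bd P + 1)) := by
    intro f p n u v hf hp hn' hu hv
    have := length_sto (s := e) hf (hsmall p hp) hn' hu hv
    omega
  have hlt : ∀ k ≤ T, ∀ i, (conf P (F w) y k).2 i < 2 ^ s := fun k hk i =>
    (H.lt k hk i).trans_le hW
  have hcod : ∀ k ≤ T, cod (parW G) (bd P + 1) (conf P (F w) y k) < 2 ^ (2 * (s * (bd P + 1))) := by
    intro k hk
    have h1 := pc_le P (F w) y k
    have h2 : (conf P (F w) y k).1 < 2 ^ (s * (bd P + 1)) :=
      (h1.trans_lt hb).trans_le (Nat.pow_le_pow_right (by norm_num) hss)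
    have h3 := tab_lt_pow (q := bd P + 1) hW (H.lt k hk)
    exact pair_lt h2 h3
  have hN : ∀ k ≤ T, tab (parW G) (bd P + 1) (conf P (F w) y k).2 < 2 ^ e := fun k hk =>
    hmono (tab_lt_pow (q := bd P + 1) hW (H.lt k hk)) (by omega)
  have hpc : ∀ k, (conf P (F w) y k).1 < 2 ^ e := fun k =>
    hmono (b := s) ((pc_le P (F w) y k).trans_lt hb) (by omega)
  have hne : parN G < 2 ^ s := by
    rw [H.len]
    exact hn
  have hwd1 : (wd 1).length ≤ 65 * (s * (bd P + 1)) := by
    rw [wd_one]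
    exact Nat.zero_le _
  have hmem : ∀ k ≤ T, ∀ i, (memB P w y (parW G) (parM G) l (conf P (F w) y k).2 i).length ≤ a :=
    fun k hk i => memB_length (H.lt k hk) (pow_le H.ok) (by omega) hl i
  intro t ht
  rcases Nat.lt_or_ge t τ with h | h
  · obtain ⟨ph, p, u, l', e1, e2, e3, e4, e5, e6⟩ := hE t h
    rw [e5]
    refine ⟨hst _ _ _ _ _ (by omega) (by omega) (by omega) (by omega) (hsmall 0 (by omega)), ?_,
      fun i _ => memB_length0 (by omega) e4 i⟩
    dsimp only
    rw [addr_wd D P (sto_pos _ _ _ _ _)]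
    rcases Nat.lt_or_ge ph 2 with h2 | h2
    · have : addrF D P (sto 0 ph p u 0) = 1 := by
        unfold addrF
        rw [pO_sto (by omega), show ph - 1 = 0 by omega, ifz_zero]
      rw [this]
      exact hwd1
    · obtain ⟨rfl, rfl⟩ := e6 h2
      rcases (show ph = 2 ∨ ph = 3 ∨ (ph = 4 ∨ ph = 5) by omega) with rfl | rfl | h3
      · rw [addrF_2]
        exact (length_letter hne).trans (by omega)
      · rw [addrF_3]
        exact (length_letter (show parN p - 1 < 2 ^ s by omega)).trans (by omega)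
      · rw [addrF_45 D P h3]
        exact hwd1
  · rcases H.cases h ht with ⟨k, hk, e5⟩ | ⟨k, hk, -, -, k₂, e', hk2, he', e5⟩ | e5
    · rw [e5]
      refine ⟨hst _ _ _ _ _ (by omega) (by omega) hG' (hpc _) (hN _ hk), ?_, fun i _ =>
        hmem k hk i⟩
      dsimp only
      rw [addr_wd D P (sto_pos _ _ _ _ _), addrF_6, uN_nam (H.lt k hk)]
      exact (length_memA hb hne (hlt k hk _)).trans (by omega)
    · rw [e5]
      have hq : bOf P (parM G) (conf P (F w) y k) + 1 < 2 ^ (2 * (s * (bd P + 1))) := by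
        have h1 : bOf P (parM G) (conf P (F w) y k) < 2 ^ s := by
          refine (Nat.div_le_self _ _).trans_lt ?_
          rcases dst_le P (conf P (F w) y k).1 (uu P (conf P (F w) y k)) with h3 | ⟨i, j, -, h3⟩
          · exact h3.trans_lt hb
          · rw [h3]
            exact hlt k hk.le _
        have h2 : 2 ^ (s + 1) ≤ 2 ^ (2 * (s * (bd P + 1))) :=
          Nat.pow_le_pow_right (by norm_num) (by omega)
        rw [pow_succ] at h2
        omega
      have hq2 : Nat.pair (bOf P (parM G) (conf P (F w) y k) + 1)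
          (cod (parW G) (bd P + 1) (conf P (F w) y k)) < 2 ^ e :=
        hmono (pair_lt hq (hcod k hk.le)) (by omega)
      refine ⟨hst _ _ _ _ _ (by omega) (by omega) hG' hq2 (hmono (hcod _ hk2) (by omega)), ?_,
        fun i _ => hmem e' he' i⟩
      dsimp only
      rw [addr_wd D P (sto_pos _ _ _ _ _), addrF_7 D P (Nat.zero_le 1) le_rfl]
      exact hwd1
    · have q1 := hst 1 9 0 0 0 le_rfl (by norm_num) (hsmall 0 (by norm_num))
        (hsmall 0 (by norm_num)) (hsmall 0 (by norm_num))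
      have q3 : ((mach D P).addr (wd (sto 1 9 0 0 0))).length ≤ 65 * (s * (bd P + 1)) := by
        rw [addr_wd D P (sto_pos _ _ _ _ _), addrF_7 D P le_rfl (by norm_num)]
        exact hwd1
      rw [e5]
      exact ⟨q1, q3, fun i _ => hmem T le_rfl i⟩

end

end Pool.Agent.Helper92.RB
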