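import Pool.Agent.Helper81.RP.Defs

/-!
# Programs of random access machines with few expensive changes from storing to reading: definitions

The registers are divided into blocks of `m` registers.
-/

namespace Pool.Agent.Helper92.RB

open Pool.Agent.Helper81.RP (Ins AcceptsAt conf word)
open Pool.Agent.Helper81.Sus2 (Decomp)

/-- The next instruction is `store`, and it stores into the register `i`. -/
def Stores (P : List Ins) (c : ℕ × (ℕ → ℕ)) (i : ℕ) : Prop :=
  ∃ a b, P[c.1]? = some (.store a b) ∧ c.2 a = i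

/-- The next instruction is `load`, and it loads from the register `i`. -/
def Loads (P : List Ins) (c : ℕ × (ℕ → ℕ)) (i : ℕ) : Prop :=
  ∃ a b, P[c.1]? = some (.load a b) ∧ c.2 b = i

/-- The next instruction is `input` or `advice`. -/
def Letter (P : List Ins) (c : ℕ × (ℕ → ℕ)) : Prop :=
  (∃ i j, P[c.1]? = some (.input i j)) ∨ ∃ i j, P[c.1]? = some (.advice i j)

/-- The steps from the time `u` to the time `v` are cheap: there is a block `b` (the registers
`b m, …, b m + m - 1`) such that, if the program stores into a register and later (before the time `v`)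
loads from a register, then both registers are in the block `b`; and it reads no letter after a
`store`. -/
def Cheap (P : List Ins) (w y : List Bool) (m u v : ℕ) : Prop :=
  ∃ b : ℕ, ∀ j k i : ℕ, u ≤ j → j < k → k < v → Stores P (conf P w y j) i →
    ¬Letter P (conf P w y k) ∧ ∀ i', Loads P (conf P w y k) i' → i / m = b ∧ i' / m = b

/-- The steps from the time `u` to the time `v` can be divided into `r` cheap parts. -/
def Parts (P : List Ins) (w y : List Bool) (m r u v : ℕ) : Prop :=
  ∃ f : ℕ → ℕ, f 0 = u ∧ f r = v ∧ ∀ i < r, f i ≤ f (i + 1) ∧ Cheap P w y m (f i) (f (i + 1))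

/-- The program `P` accepts the word `x` of length `n`, with the second word `y`, after `t` steps, which
can be divided into `r` cheap parts for some `m > 0`, with numbers less than `2 ^ s` in the registers up
to this time, where `⌊log₂ n⌋ + 1 ≤ s` and, for `l = ⌊log₂ n⌋ + 1 + min ⌊log₂ t⌋ s`,
`r s l ^ 2 ≤ C (n + 1) ^ (3 / 2)`, `s l ^ 2 ≤ C (n + 1) ^ (1 / 2)` and `m s l ^ 2 ≤ C (n + 1)`. For
example, `P` accepts `x`, at any time, with numbers of `O(log n)` bits and in `C n ^ (3 / 2) / log ^ 3 n`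
cheap parts for `m = C n / log ^ 3 n`. -/
def Fast (P : List Ins) (C : ℝ) (x y : List Bool) : Prop :=
  ∃ t s m r : ℕ, 0 < m ∧ Nat.log 2 x.length + 1 ≤ s ∧ AcceptsAt P x y t ∧
    (∀ u ≤ t, ∀ i, (conf P x y u).2 i < 2 ^ s) ∧ Parts P x y m r 0 t ∧
    (r : ℝ) * s * ((Nat.log 2 x.length : ℝ) + 1 + min (Nat.log 2 t : ℝ) s) ^ 2 ≤
      C * ((x.length : ℝ) + 1) ^ ((3 : ℝ) / 2) ∧
    (s : ℝ) * ((Nat.log 2 x.length : ℝ) + 1 + min (Nat.log 2 t : ℝ) s) ^ 2 ≤
      C * ((x.length : ℝ) + 1) ^ ((1 : ℝ) / 2) ∧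
    (m : ℝ) * s * ((Nat.log 2 x.length : ℝ) + 1 + min (Nat.log 2 t : ℝ) s) ^ 2 ≤
      C * ((x.length : ℝ) + 1)

/-- At the time `k` the memory has a description of at most `z` bits for the decompressor `E`: from a
word `d` of at most `z` bits (and the two given words) it computes the contents of all registers with
numbers less than `2 ^ s`; the register `i` is given by the word `word (i + 1)`, the content `x` by the
word `word (x + 1)`, and the states of the decompressor have at most `a` bits. -/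
def Short (P : List Ins) (E : Decomp) (w y : List Bool) (s a z k : ℕ) : Prop :=
  ∃ d : List Bool, d.length ≤ z ∧ ∀ i x : ℕ, i < 2 ^ s →
    (E.Says w y a d (word (i + 1)) (word (x + 1)) ↔ (conf P w y k).2 i = x)

/-- The program `P` accepts the word `w` of length `n`, with the second word `y`, after `t` steps, for
some `m > 0` with the following bounds. All numbers in the registers are less than `2 ^ s`. If the memory
has no description of at most `c n` bits at the times strictly between `u` and `v ≤ t`, then the steps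
from `u` to `v` can be divided into `r` cheap parts, and `v - u` is at most `2 ^ h (r + 1)` or `s < h`. For
`l = h + ⌊log₂ n⌋ + 1`: `⌊log₂ n⌋ + 1 ≤ s`, `r s l ^ 2 ≤ C (n + 1) ^ (3 / 2)`,
`s (h + 1) l ≤ C (n + 1) ^ (1 / 2)`, `a l ^ 2 ≤ C (n + 1)`, and `m s l ^ 2 ≤ C (n + 1)`. -/
def Within (P : List Ins) (E : Decomp) (c : ℕ) (C : ℝ) (w y : List Bool) : Prop :=
  ∃ t s a r m h : ℕ, 0 < m ∧ Nat.log 2 w.length + 1 ≤ s ∧ AcceptsAt P w y t ∧
    (∀ u ≤ t, ∀ i, (conf P w y u).2 i < 2 ^ s) ∧
    (∀ u v : ℕ, u ≤ v → v ≤ t →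
      (∀ k, u < k → k < v → ¬Short P E w y s a (c * w.length) k) →
        Parts P w y m r u v ∧ (v ≤ u + 2 ^ h * (r + 1) ∨ s < h)) ∧
    (r : ℝ) * s * ((h : ℝ) + ((Nat.log 2 w.length : ℝ) + 1)) ^ 2 ≤
      C * ((w.length : ℝ) + 1) ^ ((3 : ℝ) / 2) ∧
    (s : ℝ) * ((h : ℝ) + 1) * ((h : ℝ) + ((Nat.log 2 w.length : ℝ) + 1)) ≤
      C * ((w.length : ℝ) + 1) ^ ((1 : ℝ) / 2) ∧
    (a : ℝ) * ((h : ℝ) + ((Nat.log 2 w.length : ℝ) + 1)) ^ 2 ≤ C * ((w.length : ℝ) + 1) ∧
    (m : ℝ) * s * ((h : ℝ) + ((Nat.log 2 w.length : ℝ) + 1)) ^ 2 ≤ C * ((w.length : ℝ) + 1)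

end Pool.Agent.Helper92.RB
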