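import Pool.Agent.Helper92.RB.Bnd
import Pool.Agent.Helper92.RF.Good

/-!
# Programs with few expensive changes as machines with messages: good computations
-/

namespace Pool.Agent.Helper92.RB

open Pool.Agent.Helper65.LinSpace Pool.Agent.Helper78.Mpc Pool.Agent.Helper28.Ram Finset
open Pool.Agent.Helper81.Sus2
open Pool.Agent.Helper81.RP (Ins lett AcceptsAt conf wd bd pair_lt says_fun pc_le uu)
open Pool.Agent.Helper92.RE (LD)
open Pool.Agent.Helper92.RF (cod parN parW gF par parN_par parW_par par_lt numbers time_bound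
  tab_lt_pow unpair_pair_fst unpair_pair_snd dst_le)

theorem Early.mono {P : List Ins} {w y : List Bool} {G B B' : ℕ} (h : B ≤ B')
    {c : List Bool × (List Bool → List Bool)} (hc : Early P w y G B c) : Early P w y G B' c := by
  obtain ⟨ph, p, u, l, h1, h2, h3, h4, h5, h6⟩ := hc
  exact ⟨ph, p, u, l, h1, h2, h3, h4.trans h, h5, h6⟩

theorem parM_par {m : ℕ} (hm : 0 < m) (n s : ℕ) : parM (par n m s) = m := by
  unfold parM par
  rw [unpair_pair_snd, unpair_pair_fst]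
  omega

theorem m_lt {m s h n : ℕ} {C l : ℝ} (hn : n < 2 ^ s) (hl1 : 1 ≤ l) (hls' : l ≤ s)
    (hC : ⌈|C|⌉₊ ≤ n)
    (b4 : (m : ℝ) * s * ((h : ℝ) + l) ^ 2 ≤ C * ((n : ℝ) + 1)) : m < 2 ^ (2 * s) := by
  have h1 : (m : ℝ) ≤ C * ((n : ℝ) + 1) := by
    refine le_trans ?_ b4
    have hs1 : (1 : ℝ) ≤ s := hl1.trans hls'
    have hh : (1 : ℝ) ≤ (h : ℝ) + l := by
      have : (0 : ℝ) ≤ h := Nat.cast_nonneg _
      linarith
    calc (m : ℝ) = m * 1 * 1 ^ 2 := by ring
      _ ≤ m * s * ((h : ℝ) + l) ^ 2 := by gcongr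
  have h2 : C ≤ n := by
    have h3 := Nat.le_ceil |C|
    have h4 : ((⌈|C|⌉₊ : ℕ) : ℝ) ≤ n := by exact_mod_cast hC
    exact (le_abs_self C).trans (h3.trans h4)
  have h3 : (m : ℝ) ≤ n * ((n : ℝ) + 1) :=
    h1.trans (mul_le_mul_of_nonneg_right h2 (by positivity))
  have h4 : m ≤ n * (n + 1) := by exact_mod_cast h3
  have h5 : n * (n + 1) < 2 ^ s * 2 ^ s := by
    have h6 : 0 < 2 ^ s := by positivity
    nlinarith
  rw [two_mul, pow_add]
  omega

theorem s_lt {κ s n : ℕ} {C : ℝ} (q4 : (s : ℝ) ≤ C * ((n : ℝ) + 1) ^ ((1 : ℝ) / 2))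
    (hn : ⌈(5 * (κ : ℝ) * |C| + 30 * |C| + 1) ^ 2⌉₊ ≤ n) :
    5 * κ * s ≤ n + 1 ∧ 30 * s ≤ n := by
  have hN : (1 : ℝ) ≤ (n : ℝ) + 1 := by
    have : (0 : ℝ) ≤ n := Nat.cast_nonneg _
    linarith
  have hNN : (5 * κ * |C| + 30 * |C| + 1) ^ 2 ≤ (n : ℝ) + 1 := by
    have h2' : ⌈(5 * (κ : ℝ) * |C| + 30 * |C| + 1) ^ 2⌉₊ ≤ n := hn
    have h2 : (⌈(5 * (κ : ℝ) * |C| + 30 * |C| + 1) ^ 2⌉₊ : ℝ) ≤ n := Nat.cast_le.2 h2'
    have h3 := Nat.le_ceil ((5 * κ * |C| + 30 * |C| + 1) ^ 2)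
    linarith
  set N : ℝ := (n : ℝ) + 1 with hNdef
  have hsq : (N ^ ((1 : ℝ) / 2)) ^ 2 = N := by
    rw [← Real.rpow_natCast, ← Real.rpow_mul (by linarith)]
    norm_num
  have hp : 0 ≤ N ^ ((1 : ℝ) / 2) := Real.rpow_nonneg (by linarith) _
  have hC := abs_nonneg C
  have hroot : 5 * κ * |C| + 30 * |C| + 1 ≤ N ^ ((1 : ℝ) / 2) := by
    refine (sq_le_sq₀ (by positivity) hp).1 ?_
    rw [hsq]
    exact hNN
  set R := N ^ ((1 : ℝ) / 2) with hR
  have hsC : (s : ℝ) ≤ |C| * R := q4.trans (mul_le_mul_of_nonneg_right (le_abs_self C) hp)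
  have h1R : 1 ≤ R := by
    have : 0 ≤ 5 * (κ : ℝ) * |C| + 30 * |C| := by positivity
    linarith
  constructor
  · have : (5 : ℝ) * κ * s ≤ (n : ℝ) + 1 := by
      calc (5 : ℝ) * κ * s ≤ 5 * κ * (|C| * R) := by gcongr
        _ = (5 * κ * |C|) * R := by ring
        _ ≤ R * R := by
          have : 5 * (κ : ℝ) * |C| ≤ R := by linarith
          gcongr
        _ = N := by rw [← sq, hsq]
    exact_mod_cast this
  · have : (30 : ℝ) * s ≤ (n : ℝ) := by
      have k1 : (30 : ℝ) * s ≤ (30 * |C|) * R := by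
        calc (30 : ℝ) * s ≤ 30 * (|C| * R) := by gcongr
          _ = (30 * |C|) * R := by ring
      have k2 : (30 * |C| + 1) * R ≤ N := by
        calc (30 * |C| + 1) * R ≤ R * R := by
              have : 0 ≤ 5 * (κ : ℝ) * |C| := by positivity
              have : 30 * |C| + 1 ≤ R := by linarith
              gcongr
          _ = N := by rw [← sq, hsq]
      have k3 : (n : ℝ) = N - 1 := by rw [hNdef]; ring
      rw [k3]
      nlinarith
    exact_mod_cast this

/-- **Good computations.** -/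
theorem good_gen {D : LD} {F : List Bool → List Bool} (hF : D.Is F) (P : List Ins) (E : Decomp)
    {K : ℕ} (hK : 2 ≤ K) {c' : ℕ} (hc : 0 < c') (C : ℝ) :
    ∃ (C' : ℝ) (n₁ : ℕ), ∀ w y : List Bool, n₁ ≤ w.length →
      ∀ (T s a r m h : ℕ) (Sh : ℕ → Prop), 0 < m → Nat.log 2 w.length + 1 ≤ s →
      AcceptsAt P (F w) y T →
      (∀ u ≤ T, ∀ i, (conf P (F w) y u).2 i < 2 ^ s) →
      (∀ u v : ℕ, u ≤ v → v ≤ T → (∀ k, u < k → k < v → ¬Sh k) →
        Parts P (F w) y m r u v ∧ (v ≤ u + 2 ^ h * (r + 1) ∨ s < h)) →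
      (∀ k ≤ T, Sh k → ∀ l q κ₁ κ₂, l ≤ 2 * (s * m) → q ≤ 2 ^ s →
        κ₁ < 2 ^ (2 * (s * (bd P + 1))) → κ₂ < 2 ^ (2 * (s * (bd P + 1))) →
        ∃ d : List Bool, d.length ≤ c' * w.length ∧
          ∀ j : List Bool, j.length ≤ 65 * (s * (bd P + 1)) → j.head? ≠ some false →
            E.Says w y (a + K * (s * m)) d j
              (wd (2 ^ l + newV P (par w.length m s) q κ₁ κ₂ (num j / 2)
                (2 ^ l + blk P (2 ^ s) m (conf P (F w) y k).2 (num j / 2))))) →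
      (r : ℝ) * s * ((h : ℝ) + ((Nat.log 2 w.length : ℝ) + 1)) ^ 2 ≤
        C * ((w.length : ℝ) + 1) ^ ((3 : ℝ) / 2) →
      (s : ℝ) * ((h : ℝ) + 1) * ((h : ℝ) + ((Nat.log 2 w.length : ℝ) + 1)) ≤
        C * ((w.length : ℝ) + 1) ^ ((1 : ℝ) / 2) →
      (a : ℝ) * ((h : ℝ) + ((Nat.log 2 w.length : ℝ) + 1)) ^ 2 ≤ C * ((w.length : ℝ) + 1) →
      (m : ℝ) * s * ((h : ℝ) + ((Nat.log 2 w.length : ℝ) + 1)) ^ 2 ≤ C * ((w.length : ℝ) + 1) →
      (mach D P).Good E c' C' w y := by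
  set κ : ℕ := 65 * (bd P + 1) with hκ
  refine ⟨1000 * (κ : ℝ) ^ 3 * (1 + K) * (1 + κ) * (C + C ^ 2),
    bd P + 8 + ⌈|C|⌉₊ + ⌈(5 * κ * |C| + 30 * |C| + 1) ^ 2⌉₊, ?_⟩
  intro w y hw T₀ s a r m h Sh hm0 hls hacc₀ hlt₀ hsus₀ hSh₀ b1 b2 b3 b4
  -- the first time
  obtain ⟨T, hT₀, hacc, hfirst⟩ : ∃ T ≤ T₀, Acc P (conf P (F w) y T) ∧
      ∀ k < T, ¬Acc P (conf P (F w) y k) := by
    classical
    have hex : ∃ T, Acc P (conf P (F w) y T) := ⟨T₀, hacc₀⟩
    exact ⟨Nat.find hex, Nat.find_min' hex hacc₀, Nat.find_spec hex, fun k hk =>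
      Nat.find_min hex hk⟩
  have hlt : ∀ u ≤ T, ∀ i, (conf P (F w) y u).2 i < 2 ^ s := fun u hu => hlt₀ u (hu.trans hT₀)
  have hsus := fun (u v : ℕ) (huv : u ≤ v) (hv : v ≤ T) => hsus₀ u v huv (hv.trans hT₀)
  have hSh := fun (k : ℕ) (hk : k ≤ T) => hSh₀ k (hk.trans hT₀)
  have hκ1 : 65 ≤ κ := by omega
  have hn : w.length < 2 ^ s := by
    refine (Nat.lt_pow_succ_log_self (b := 2) (by norm_num) w.length).trans_le ?_
    exact Nat.pow_le_pow_right (by norm_num) hls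
  have hs4 : 4 ≤ s := by
    by_contra hcon
    have : 2 ^ s ≤ 2 ^ 3 := Nat.pow_le_pow_right (by norm_num) (by omega)
    omega
  have hb : bd P < 2 ^ s := by omega
  set l : ℝ := (Nat.log 2 w.length : ℝ) + 1 with hl
  have hl1 : 1 ≤ l := by
    rw [hl]
    have : (0 : ℝ) ≤ Nat.log 2 w.length := Nat.cast_nonneg _
    linarith
  have hls' : l ≤ s := by
    rw [hl]
    exact_mod_cast hls
  have hN : (1 : ℝ) ≤ (w.length : ℝ) + 1 := by
    have : (0 : ℝ) ≤ w.length := Nat.cast_nonneg _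
    linarith
  -- the number of registers of a block
  have hm : m < 2 ^ (2 * s) := m_lt hn hl1 hls' (by omega) b4
  -- the first phases
  have hG := par_lt (n := w.length) (m := m) (s := s) (by omega) hn hm
  set G := par w.length m s with hGdef
  have hpN : parN G = w.length := parN_par _ _ _
  have hpM : parM G = m := parM_par hm0 _ _
  have hpW : parW G = 2 ^ s := parW_par _ _ _
  have h16 : 4 ≤ 2 ^ s := by
    calc 4 = 2 ^ 2 := by norm_num
      _ ≤ 2 ^ s := Nat.pow_le_pow_right (by norm_num) (by omega)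
  have hB0 : 0 < s * m := Nat.mul_pos (by omega) hm0
  obtain ⟨τ, l', i1, i2, i3, i4, i5⟩ := exists_init D P w y (L := 8 * s) (G := G)
    (B := s * m) hG hpN (by rw [hpW]; exact h16)
    (by rw [hpW, hpM, ← pow_mul]) hB0
  have hlogB : Nat.log 2 (s * m) ≤ 3 * s := by
    refine Nat.lt_succ_iff.1 (Nat.log_lt_of_lt_pow hB0.ne' ?_)
    have j1 : s < 2 ^ s := Nat.lt_two_pow_self
    calc s * m < 2 ^ s * 2 ^ (2 * s) := Nat.mul_lt_mul_of_lt_of_le j1 hm.le (by positivity)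
      _ ≤ 2 ^ (3 * s).succ := by
        rw [← pow_add]
        exact Nat.pow_le_pow_right (by norm_num) (by omega)
  have hτ : τ ≤ 30 * s := by omega
  have H : Run D P F w y (gF (8 * s) G) G T τ l' :=
    ⟨hF, i1, hpN, i2, fun k hk i => by rw [hpW]; exact hlt k hk i, hacc, hfirst⟩
  set a' := a + K * (s * m) with ha'
  have hKB : 2 * (s * m) ≤ K * (s * m) := Nat.mul_le_mul_right _ hK
  have hsM : s ≤ s * m := Nat.le_mul_of_pos_right _ hm0
  have hfits := H.fits (s := s) (a := a') hs4 hb hn (by rw [hpW]) hG (by omega) (by omega)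
    fun t ht => (i5 t ht).mono (by omega)
  -- the numbers
  set h₁ := min h (s + 1) with hh1
  have hκr : (1 : ℝ) ≤ (κ : ℝ) := by
    exact_mod_cast (by omega : 1 ≤ κ)
  have hMr : (m : ℝ) ≤ (m : ℝ) + κ := by
    have : m ≤ m + κ := by omega
    exact_mod_cast this
  have h1s : (h₁ : ℝ) ≤ (s : ℝ) + 1 := by
    have : h₁ ≤ s + 1 := min_le_right _ _
    exact_mod_cast this
  have h1h : (h₁ : ℝ) ≤ (h : ℝ) := by
    have : h₁ ≤ h := min_le_left _ _
    exact_mod_cast this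
  obtain ⟨q1, q2, q3, q4⟩ := numbers (κ := (κ : ℝ)) (K := (K : ℝ)) (τ := (τ : ℝ)) (M := (m : ℝ))
    (h₁ := (h₁ : ℝ)) hl1 hls' (Nat.cast_nonneg a) (Nat.cast_nonneg r) (Nat.cast_nonneg h) hN hκr
    (Nat.cast_nonneg K) (Nat.cast_nonneg τ) (by exact_mod_cast hτ) (Nat.cast_nonneg m) hMr
    (Nat.cast_nonneg h₁) h1h h1s b1 b2 b3 b4
  have hbig := s_lt (κ := κ) q4 (by omega)
  have hκs : 65 * (s * (bd P + 1)) = κ * s := by
    rw [hκ]
    ring
  refine ⟨gF (8 * s) G, τ + mt P (F w) y (parM G) T + 1, κ * s, a', τ + (r + 1),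
    κ * (h₁ + 1), 0, 0, 1,
    fun i => if i = 0 then 0 else τ + mt P (F w) y (parM G) T + 1, fun _ => [],
    H.accepts, ?_, ?_, ?_, Nat.one_pos, le_rfl, ?_, ?_, ?_, ?_, ?_, ?_⟩
  · rw [← hκs]
    exact hfits
  · simp
  · simp
  · intro i hi
    have hi0 : i = 0 := by omega
    subst hi0
    simp only [if_true, Nat.zero_add, one_ne_zero, if_false]
    refine ⟨Nat.zero_le _, ?_, ?_, ?_⟩
    · refine (H.guesses 0 le_rfl).trans ?_
      calc τ ≤ 30 * s := hτ
        _ ≤ 1 * w.length := by omega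
        _ ≤ c' * w.length := Nat.mul_le_mul_right _ hc
    · intro u _ _
      exact Or.inl rfl
    · intro t t' _ htt ht' hns
      obtain ⟨u, v, k1, k2, k3, k4, k5⟩ := stretch (P := P) (x := F w) (y := y)
        (m := parM G) (T := T) htt ht'
      have hκ0 : Nat.pair P.length 0 < 2 ^ (2 * (s * (bd P + 1))) := by
        have g1 : P.length < 2 ^ (s * (bd P + 1)) := by
          have g2 : P.length ≤ bd P := Nat.le_add_right _ _
          exact (g2.trans_lt hb).trans_le (Nat.pow_le_pow_right (by norm_num)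
            (Nat.le_mul_of_pos_right _ (Nat.succ_pos _)))
        exact pair_lt g1 (by positivity)
      have hκc : ∀ i ≤ T, cod (parW G) (bd P + 1) (conf P (F w) y i) <
          2 ^ (2 * (s * (bd P + 1))) := by
        intro i hi
        have g1 : (conf P (F w) y i).1 < 2 ^ (s * (bd P + 1)) :=
          ((pc_le P (F w) y i).trans_lt hb).trans_le (Nat.pow_le_pow_right (by norm_num)
            (Nat.le_mul_of_pos_right _ (Nat.succ_pos _)))
        exact pair_lt g1 (tab_lt_pow (q := bd P + 1) (by rw [hpW]) (H.lt i hi))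
      have hno : ∀ k, u < k → k < v → ¬Sh k := by
        intro k hk1 hk2 hk
        have hkT : k ≤ T := by omega
        obtain ⟨p1, p2⟩ := k3 k hk1 hk2
        refine hns _ p1 p2 ?_
        obtain ⟨e, q, κ₁, κ₂, he, hmem, hnew, hc1, hc2, hq⟩ := H.mem hkT
        have hd0 : κ₁ < 2 ^ (2 * (s * (bd P + 1))) := by
          rcases hc1 with rfl | ⟨i, hi, rfl⟩
          · exact hκ0
          · exact hκc i hi
        have hd1 : κ₂ < 2 ^ (2 * (s * (bd P + 1))) := by
          rcases hc2 with rfl | ⟨i, hi, rfl⟩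
          · exact hκ0
          · exact hκc i hi
        have hd2 : q ≤ 2 ^ s := by
          rcases hq with rfl | ⟨i, hi, rfl⟩
          · exact Nat.zero_le _
          · refine Nat.succ_le_of_lt ((Nat.div_le_self _ _).trans_lt ?_)
            rcases dst_le P (conf P (F w) y i).1 (uu P (conf P (F w) y i)) with h3 | ⟨j, j', -, h3⟩
            · exact h3.trans_lt hb
            · rw [h3]
              exact hlt i hi _
        obtain ⟨d, hd3, hd4⟩ := hSh k hkT hk l' q κ₁ κ₂ i3 hd2 hd0 hd1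
        refine ⟨d, hd3, fun i v' hi hi0 => ?_⟩
        have hd5 := hd4 i (by rw [hκs]; exact hi) hi0
        have h6 := hnew (num i / 2)
        rw [hpW, hpM] at h6
        rw [h6] at hd5
        have h7 := memB_num P w y (parW G) (parM G) l' (conf P (F w) y e).2 hi0
        rw [hpW, hpM] at h7
        rw [hpM] at hmem
        rw [hpM, hmem, hpW, h7]
        constructor
        · exact fun hs => ⟨Or.inl rfl, says_fun hd5 hs⟩
        · rintro ⟨-, hv⟩
          rw [hv] at hd5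
          exact hd5
      obtain ⟨c1, c2⟩ := hsus u v k1 k2 hno
      constructor
      · have hmp := msgs_le_parts c1
        have hfin : {k : ℕ | u ≤ k ∧ k < v ∧ MsgAt P (F w) y m k}.Finite :=
          (Set.finite_lt_nat v).subset fun k hk => hk.2.1
        have hsub : {k : ℕ | k < T ∧ MsgAt P (F w) y (parM G) k ∧
            t < τ + mt P (F w) y (parM G) k + 1 ∧
            τ + mt P (F w) y (parM G) k + 1 ≤ t'} ⊆
            {k : ℕ | u ≤ k ∧ k < v ∧ MsgAt P (F w) y m k} := by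
          rintro k ⟨o1, o2, o3, o4⟩
          obtain ⟨o5, o6⟩ := k4 k o1 o2 o3 o4
          rw [hpM] at o2
          exact ⟨o5, o6, o2⟩
        have hnc := Set.ncard_le_ncard hsub hfin
        have hmsg := H.msgs (t := t) ht'
        omega
      · exact time_bound hκ1 k1 k5 c2
  · intro i hi0 hi
    omega
  · push_cast
    exact q1
  · push_cast
    exact q2
  · push_cast [ha']
    exact q3
  · have hle : κ * (h₁ + 1) ≤ κ * (s + 2) := Nat.mul_le_mul_left _ (by
      have : h₁ ≤ s + 1 := min_le_right _ _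
      omega)
    have hk2 : κ * (s + 2) = κ * s + κ * 2 := by ring
    have hk3 : κ * 4 ≤ κ * s := Nat.mul_le_mul_left _ hs4
    have hk4 : s ≤ κ * s := Nat.le_mul_of_pos_left _ (by omega)
    calc (0 + 1) * (0 + κ * s + (κ * (h₁ + 1) + (Nat.log 2 w.length + 1))) ≤ 5 * κ * s := by
          have : 5 * κ * s = 5 * (κ * s) := by ring
          omega
      _ ≤ 1 * (w.length + 1) := by omega
      _ ≤ c' * (w.length + 1) := Nat.mul_le_mul_right _ hc

end Pool.Agent.Helper92.RB
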