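import Pool.Agent.Helper92.RB.Blk
import Pool.Agent.Helper92.RF.Mach

/-!
# Programs with few expensive changes from storing to reading as machines with messages: the machine

Phases: `0`, `1`: the numbers `n`, `m`, `W` are guessed; `2`, `3`: `n = |w|` is verified; `4`, `5`: the
registers are made long enough; `6`: the next step of the program, or the beginning of a segment with
a message; `7`: the message; `9`: accepted; `10`: dead.
-/

namespace Pool.Agent.Helper92.RB

open Pool.Agent.Helper65.LinSpace Pool.Agent.Helper78.Mpc Pool.Agent.Helper28.Ram Finset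
open Pool.Agent.Helper81.Sus2
open Pool.Agent.Helper81.RP (Ins lett step AcceptsAt conf wd wf num_wd wd_num wf_eq linComp_wf
  length_wd ls_pair hd tl ls_hd ls_tl hd_eq tl_eq a0 a1 dst npc uu ls_a1 ls_dst
  ls_npc selF selF_eq ls_selF isA accF accF_le accF_eq_one ls_accF bd pc_le a0_le a1_le npc_le cst
  cst_le)
open Pool.Agent.Helper92.RE (LD inpL valL vvL step_eqL ls_valL lett_le lett_none lt_eq adr1 ls_adr1
  sto pO nO uO vO sto_pos pO_sto nO_sto uO_sto vO_sto ls_sto ls_pO ls_nO ls_uO ls_vO)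
open Pool.Agent.Helper92.RF (setN setN_tab setN_lt uN ls_setN ls_uN cod cod_pc cod_reg Dead
  unpair_pair_fst unpair_pair_snd parN parW parW_pos top top_pos ls_parN ls_parW ls_top)

/-! ### Parameters -/

/-- The number of registers of a block. -/
def parM (p : ℕ) : ℕ := p.unpair.2.unpair.1 - 1 + 1

theorem parM_pos (p : ℕ) : 0 < parM p := Nat.succ_pos _

/-- Not `0` if the cell `c` is long enough for a block. -/
def okN (p c : ℕ) : ℕ :=
  lt01 3 (parW p) * (1 - lt01 (top c) (capPow (parW p) (parM p) (top c)))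

/-- The base, or `1`. -/
def gW (p c : ℕ) : ℕ := ifz (okN p c) 1 (parW p)

/-- The number of registers of a block, or `0`. -/
def gM (p c : ℕ) : ℕ := ifz (okN p c) 0 (parM p)

theorem gW_pos (p c : ℕ) : 0 < gW p c := by
  unfold gW ifz
  split_ifs
  · exact Nat.one_pos
  · exact parW_pos p

theorem okN_ne {p c : ℕ} : okN p c ≠ 0 ↔ 4 ≤ parW p ∧ parW p ^ parM p ≤ top c := by
  have h0 := top_pos c
  have h1 : capPow (parW p) (parM p) (top c) ≤ top c ↔ parW p ^ parM p ≤ top c := by
    unfold capPow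
    omega
  unfold okN
  by_cases h3 : 3 < parW p
  · have e1 : lt01 3 (parW p) = 1 := by
      unfold lt01
      rw [if_pos h3]
    by_cases h4 : capPow (parW p) (parM p) (top c) ≤ top c
    · have e2 : lt01 (top c) (capPow (parW p) (parM p) (top c)) = 0 := by
        unfold lt01
        rw [if_neg (by omega)]
      rw [e1, e2]
      exact ⟨fun _ => ⟨by omega, h1.1 h4⟩, fun _ => by norm_num⟩
    · have e2 : lt01 (top c) (capPow (parW p) (parM p) (top c)) = 1 := by
        unfold lt01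
        rw [if_pos (by omega)]
      rw [e1, e2]
      exact ⟨fun h => absurd rfl h, fun h => absurd (h1.2 h.2) h4⟩
  · have e1 : lt01 3 (parW p) = 0 := by
      unfold lt01
      rw [if_neg h3]
    rw [e1, zero_mul]
    exact ⟨fun h => absurd rfl h, fun h => absurd h.1 (by omega)⟩

theorem gpow (p c : ℕ) : gW p c ^ gM p c ≤ top c := by
  unfold gW gM
  by_cases h : okN p c = 0
  · rw [h, ifz_zero, ifz_zero, pow_zero]
    exact top_pos c
  · rw [ifz_ne h, ifz_ne h]
    exact (okN_ne.1 h).2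

/-! ### Segments -/

/-- The run inside the block `g` with the cell `c`, from the code `κ`. -/
def seg1 (P : List Ins) (p g κ c : ℕ) : ℕ :=
  runB P 1 (gW p c) (gM p c) g (Nat.pair κ (c - top c))
    (capB P (Nat.pair κ (c - top c)) (gW p c ^ (bd P + 1)) (top c) + 1)

/-- The run without reading for the block `g` with the cell `c`, from the code `z`; `κ` is the number
for the number of steps. -/
def seg0 (P : List Ins) (p g κ z c : ℕ) : ℕ :=
  runB P 0 (gW p c) (gM p c) g z (capK P κ (parW p ^ (bd P + 1)) + 1)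

/-- The code after the run without reading. -/
def kap3 (P : List Ins) (p κ : ℕ) : ℕ :=
  (runB P 0 (parW p) 0 0 (Nat.pair κ 0) (capK P κ (parW p ^ (bd P + 1)) + 1)).unpair.1

/-- The number of registers after a message, `q` being the number of the block plus `1` (or `0`), `κ₁` the
code at the beginning, `κ₂` the code after the run inside the block. -/
def newV (P : List Ins) (p q κ₁ κ₂ g c : ℕ) : ℕ :=
  (seg0 P p g κ₂ (ifz (eq01 (g + 1) q) (Nat.pair κ₂ (c - top c)) (seg1 P p g κ₁ c)) c).unpair.2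

/-! ### The functions of the machine -/

/-- `1` if the instruction is `store`. -/
def isS : Option Ins → ℕ
  | some (.store _ _) => 1
  | _ => 0

/-- The register which is read first. -/
def rgO (o : Option Ins) (u : ℕ) : ℕ := ifz (isS o) (a1 o u) (dst o u)

/-- The name of the register which is read in phase `6`. -/
def memA (D : LD) (p : ℕ) (o : Option Ins) (u : ℕ) : ℕ :=
  ifz (inpL o) (2 * (rgO o u / parM p) + 1)
    (2 * bitsN (ifz (inpL o - 1) (adr1 D (parN p) u) u))

/-- The name of the register which is read. -/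
def addrF (D : LD) (P : List Ins) (x : ℕ) : ℕ :=
  ifz (pO x - 1) 1 (ifz (pO x - 2) (2 * bitsN (parN (nO x))) (ifz (pO x - 3)
    (2 * bitsN (parN (nO x) - 1)) (ifz (pO x - 5) 1 (ifz (pO x - 6)
      (selF (fun o x => memA D (nO x) o (uN o (parW (nO x)) (vO x))) P (uO x) x) 1))))

/-- The value which is read, `t` being the number of the cell. -/
def memV (D : LD) (P : List Ins) (p N t : ℕ) (o : Option Ins) (u : ℕ) : ℕ :=
  ifz (inpL o) (getN P (parW p) (parM p) N (t - top t) (a1 o u))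
    (ifz (inpL o - 1) (D.lt (parN p) u ((t - 1) % 3)) ((t - 1) / 3))

/-- The new content of the register which is changed. -/
def memR (D : LD) (P : List Ins) (p N t : ℕ) (o : Option Ins) : ℕ :=
  valL o (uN o (parW p) N) (memV D P p N t o (uN o (parW p) N))

/-- The state after phase `6`. -/
def resO (D : LD) (P : List Ins) (p pc N t : ℕ) (o : Option Ins) : ℕ :=
  ifz (isA o)
    (ifz (isS o * (1 - lt01 (dst o (uN o (parW p) N)) (bd P + 1)))
      (ifz (lt01 (memR D P p N t o) (parW p)) (sto 0 10 0 0 0)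
        (sto 0 6 p (npc o pc (uN o (parW p) N))
          (setN (parW p) (bd P + 1) N (dst o (uN o (parW p) N)) (memR D P p N t o))))
      (sto 0 7 p (Nat.pair (dst o (uN o (parW p) N) / parM p + 1) (Nat.pair pc N))
        (seg1 P p (dst o (uN o (parW p) N) / parM p) (Nat.pair pc N) t).unpair.1))
    (sto 1 9 0 0 0)

/-- The new state, `x` being the number of the state, `b` the letter and `t` the number of the cell. -/
def nextG (D : LD) (P : List Ins) (x b t : ℕ) : ℕ :=
  ifz (pO x) (ifz b (sto 0 2 (uO x) 0 0) (sto 0 1 0 (uO x) 0))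
  (ifz (pO x - 1) (sto 0 0 0 (2 * uO x + b) 0)
  (ifz (pO x - 2) (ifz ((t - 1) % 3) (sto 0 (ifz (parN (nO x)) 4 3) (nO x) 0 0) (sto 0 10 0 0 0))
  (ifz (pO x - 3) (ifz ((t - 1) % 3) (sto 0 10 0 0 0) (sto 0 4 (nO x) 0 0))
  (ifz (pO x - 4) (ifz (okN (nO x) t) (sto 0 5 (nO x) 0 0) (sto 0 6 (nO x) 0 0))
  (ifz (pO x - 5) (sto 0 4 (nO x) 0 0)
  (ifz (pO x - 6) (selF (fun o (z : ℕ × ℕ) => resO D P (nO z.1) (uO z.1) (vO z.1) z.2 o) P (uO x)
    (x, t))
  (ifz (pO x - 7) (sto 0 6 (nO x) (kap3 P (nO x) (vO x)).unpair.1 (kap3 P (nO x) (vO x)).unpair.2)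
    (sto 0 10 0 0 0))))))))

/-- The new state. -/
def nextF (D : LD) (P : List Ins) (x : ℕ) : ℕ := nextG D P (hd x) (tl x % 2) (tl x / 2)

/-- The new content, `x` being the number of the state, `i` that of the name, `c` that of the old
content. -/
def writeG (P : List Ins) (x i c : ℕ) : ℕ :=
  ifz (pO x - 5) (2 * c ^ 2)
    (top c + newV P (nO x) (uO x).unpair.1 (uO x).unpair.2 (vO x) (i / 2) c)

/-- The new content. -/
def writeF (P : List Ins) (x : ℕ) : ℕ := writeG P (hd x) (hd (tl x)) (tl (tl x))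

section ls

variable {α : Type} [Ctx α]

theorem ls_parM {p : α → ℕ} (hp : LS p) : LS (fun a => parM (p a)) := by
  unfold parM
  fun_prop

theorem ls_okN {p c : α → ℕ} (hp : LS p) (hc : LS c) : LS (fun a => okN (p a) (c a)) := by
  unfold okN
  have h1 := ls_parW hp
  have h2 := ls_parM hp
  have h3 := ls_top hc
  have h4 := LS.capPow h1 h2 h3
  have h5 := LS.lt01 h3 h4
  have h6 := LS.lt01 (LS.const (α := α) 3) h1
  exact LS.mul h6 (LS.sub (LS.const 1) h5)

theorem ls_gW {p c : α → ℕ} (hp : LS p) (hc : LS c) : LS (fun a => gW (p a) (c a)) := by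
  unfold gW
  exact LS.ifz (ls_okN hp hc) (LS.const 1) (ls_parW hp)

theorem ls_gM {p c : α → ℕ} (hp : LS p) (hc : LS c) : LS (fun a => gM (p a) (c a)) := by
  unfold gM
  exact LS.ifz (ls_okN hp hc) (LS.const 0) (ls_parM hp)

theorem ls_capK (P : List Ins) {κ B : α → ℕ} (hκ : LS κ) (hB : LS B) :
    LS (fun a => capK P (κ a) (B a)) := by
  unfold capK
  exact LS.pow_const (LS.add (LS.add (LS.add hκ hB) (LS.const _)) (LS.const _)) 2

theorem ls_capB (P : List Ins) {z B B' : α → ℕ} (hz : LS z) (hB : LS B) (hB' : LS B') :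
    LS (fun a => capB P (z a) (B a) (B' a)) := by
  unfold capB
  exact LS.pow_const (LS.add (LS.add (LS.add (ls_capK P hz hB) hz) hB') (LS.const _)) 2

theorem ls_seg1 (P : List Ins) {p g κ c : α → ℕ} (hp : LS p) (hg : LS g) (hκ : LS κ) (hc : LS c) :
    LS (fun a => seg1 P (p a) (g a) (κ a) (c a)) := by
  have hz := ls_pair hκ (LS.sub hc (ls_top hc))
  exact ls_runB P 1 (ls_gW hp hc) (ls_gM hp hc) hg hz
    (LS.add (ls_capB P hz (LS.pow_const (ls_gW hp hc) _) (ls_top hc)) (LS.const 1)) (ls_top hc)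
    (fun a => gW_pos _ _) fun a => gpow _ _

theorem ls_seg0 (P : List Ins) {p g κ z c : α → ℕ} (hp : LS p) (hg : LS g) (hκ : LS κ)
    (hz : LS z) (hc : LS c) : LS (fun a => seg0 P (p a) (g a) (κ a) (z a) (c a)) :=
  ls_runB P 0 (ls_gW hp hc) (ls_gM hp hc) hg hz
    (LS.add (ls_capK P hκ (LS.pow_const (ls_parW hp) _)) (LS.const 1)) (ls_top hc)
    (fun a => gW_pos _ _) fun a => gpow _ _

theorem ls_kap3 (P : List Ins) {p κ : α → ℕ} (hp : LS p) (hκ : LS κ) :
    LS (fun a => kap3 P (p a) (κ a)) := by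
  have h := ls_runB P 0 (ls_parW hp) (LS.const (α := α) 0) (LS.const 0)
    (ls_pair hκ (LS.const 0)) (LS.add (ls_capK P hκ (LS.pow_const (ls_parW hp) (bd P + 1)))
      (LS.const 1)) (LS.const 1) (fun a => parW_pos _) fun a => by rw [pow_zero]
  unfold kap3
  fun_prop

theorem ls_newV (P : List Ins) {p q κ₁ κ₂ g c : α → ℕ} (hp : LS p) (hq : LS q) (h1 : LS κ₁)
    (h2 : LS κ₂) (hg : LS g) (hc : LS c) :
    LS (fun a => newV P (p a) (q a) (κ₁ a) (κ₂ a) (g a) (c a)) := by
  unfold newV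
  have h3 := LS.ifz (LS.eq01 (LS.add hg (LS.const 1)) hq) (ls_pair h2 (LS.sub hc (ls_top hc)))
    (ls_seg1 P hp hg h1 hc)
  have h4 := ls_seg0 P hp hg h2 h3 hc
  fun_prop

theorem ls_rgO (o : Option Ins) {u : α → ℕ} (hu : LS u) : LS (fun a => rgO o (u a)) := by
  unfold rgO
  exact LS.ifz (LS.const _) (ls_a1 o hu) (ls_dst o hu)

theorem ls_memA (D : LD) (o : Option Ins) {p u : α → ℕ} (hp : LS p) (hu : LS u) :
    LS (fun a => memA D (p a) o (u a)) := by
  unfold memA
  have h1 := LS.div (ls_rgO o hu) (ls_parM hp)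
  have h2 := LS.bitsN (LS.ifz (LS.const (α := α) (inpL o - 1)) (ls_adr1 D (ls_parN hp) hu) hu)
  exact LS.ifz (LS.const _) (LS.add (LS.mul (LS.const 2) h1) (LS.const 1))
    (LS.mul (LS.const 2) h2)

theorem ls_memR (D : LD) (P : List Ins) {p N t : α → ℕ} (hp : LS p) (hN : LS N) (ht : LS t)
    (o : Option Ins) : LS (fun a => memR D P (p a) (N a) (t a) o) := by
  unfold memR memV
  have hW := ls_parW hp
  have hu := ls_uN o hW hN
  have h1 := ls_getN P hW (ls_parM hp) hN (LS.sub ht (ls_top ht)) (ls_a1 o hu)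
  have h2 := D.ls_lt' (ls_parN hp) hu (x := fun a => (t a - 1) % 3) (by fun_prop)
  exact ls_valL o hu (LS.ifz (LS.const _) h1 (LS.ifz (LS.const _) h2 (by fun_prop)))

theorem ls_resO (D : LD) (P : List Ins) {p pc N t : α → ℕ} (hp : LS p) (hpc : LS pc) (hN : LS N)
    (ht : LS t) (o : Option Ins) : LS (fun a => resO D P (p a) (pc a) (N a) (t a) o) := by
  unfold resO
  have hW := ls_parW hp
  have hu := ls_uN o hW hN
  have hd := ls_dst o hu
  have hr := ls_memR D P hp hN ht o
  have hs := ls_setN hW (LS.const (α := α) (bd P + 1)) hN hd hr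
    (B := fun a => parW (p a) ^ (bd P + 1)) (LS.pow_const hW _) (fun a => parW_pos _)
    fun a => le_rfl
  have hg := LS.div hd (ls_parM hp)
  have h1 := ls_seg1 P hp hg (ls_pair hpc hN) ht
  have h2 : LS (fun a => (seg1 P (p a) (dst o (uN o (parW (p a)) (N a)) / parM (p a))
    (Nat.pair (pc a) (N a)) (t a)).unpair.1) := by fun_prop
  exact LS.ifz (LS.const _) (LS.ifz (LS.mul (LS.const _) (LS.sub (LS.const 1)
    (LS.lt01 hd (LS.const _)))) (LS.ifz (LS.lt01 hr hW) (LS.const _)
      (ls_sto (LS.const 0) (LS.const 6) hp (ls_npc o hpc hu) hs))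
    (ls_sto (LS.const 0) (LS.const 7) hp (ls_pair (LS.add hg (LS.const 1)) (ls_pair hpc hN)) h2))
    (LS.const _)

end ls

theorem ls_addrF (D : LD) (P : List Ins) : LS (addrF D P) := by
  have hp : LS (fun x : ℕ => pO x) := ls_pO (by fun_prop)
  have hn : LS (fun x : ℕ => parN (nO x)) := ls_parN (ls_nO (by fun_prop))
  have hW : LS (fun x : ℕ => parW (nO x)) := ls_parW (ls_nO (by fun_prop))
  have hu : LS (fun x : ℕ => uO x) := ls_uO (by fun_prop)
  have hv : LS (fun x : ℕ => vO x) := ls_vO (by fun_prop)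
  have h1 : LS (fun x : ℕ => 2 * bitsN (parN (nO x))) := LS.mul (LS.const 2) (LS.bitsN hn)
  have h2 : LS (fun x : ℕ => 2 * bitsN (parN (nO x) - 1)) :=
    LS.mul (LS.const 2) (LS.bitsN (by fun_prop))
  have h3 := ls_selF (α := ℕ)
    (G := fun o x => memA D (nO x) o (uN o (parW (nO x)) (vO x)))
    (fun o => ls_memA D o (ls_nO (by fun_prop)) (ls_uN o hW hv)) P hu
  exact LS.ifz (by fun_prop) (LS.const 1) (LS.ifz (by fun_prop) h1 (LS.ifz (by fun_prop) h2
    (LS.ifz (by fun_prop) (LS.const 1) (LS.ifz (by fun_prop) h3 (LS.const 1)))))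

theorem ls_nextF (D : LD) (P : List Ins) : LS (nextF D P) := by
  have hh := ls_hd
  have ht := ls_tl
  have hp : LS (fun x : ℕ => pO (hd x)) := ls_pO hh
  have hn : LS (fun x : ℕ => nO (hd x)) := ls_nO hh
  have hu : LS (fun x : ℕ => uO (hd x)) := ls_uO hh
  have hv : LS (fun x : ℕ => vO (hd x)) := ls_vO hh
  have hb : LS (fun x : ℕ => tl x % 2) := LS.mod ht (LS.const 2)
  have hc : LS (fun x : ℕ => tl x / 2) := LS.div ht (LS.const 2)
  have hr : LS (fun x : ℕ => (tl x / 2 - 1) % 3) := by fun_prop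
  have z : LS (fun _ : ℕ => 0) := LS.const 0
  have dd : LS (fun _ : ℕ => sto 0 10 0 0 0) := LS.const _
  have k0 := LS.ifz hb (ls_sto z (LS.const 2) hu z z) (ls_sto z (LS.const 1) z hu z)
  have k1 := ls_sto z z z (LS.add (LS.mul (LS.const 2) hu) hb) z
  have k2 := LS.ifz hr (ls_sto z (LS.ifz (ls_parN hn) (LS.const 4) (LS.const 3)) hn z z) dd
  have k3 := LS.ifz hr dd (ls_sto z (LS.const 4) hn z z)
  have k4 := LS.ifz (ls_okN hn hc) (ls_sto z (LS.const 5) hn z z)
    (ls_sto z (LS.const 6) hn z z)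
  have k5 := ls_sto z (LS.const 4) hn z z
  have hz1 : LS (fun q : ℕ × ℕ => nO q.1) := ls_nO (by fun_prop)
  have hz2 : LS (fun q : ℕ × ℕ => uO q.1) := ls_uO (by fun_prop)
  have hz3 : LS (fun q : ℕ × ℕ => vO q.1) := ls_vO (by fun_prop)
  have hz4 : LS (fun q : ℕ × ℕ => q.2) := by fun_prop
  have k6 := ls_selF (α := ℕ × ℕ) (G := fun o z => resO D P (nO z.1) (uO z.1) (vO z.1) z.2 o)
    (fun o => ls_resO D P hz1 hz2 hz3 hz4 o) P hz2
  have k7 : LS (fun x : ℕ => selF (fun o (z : ℕ × ℕ) => resO D P (nO z.1) (uO z.1) (vO z.1)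
      z.2 o) P (uO (hd x)) (hd x, tl x / 2)) :=
    LS.comp (g := fun z : ℕ × ℕ => selF (fun o (z : ℕ × ℕ) => resO D P (nO z.1) (uO z.1) (vO z.1)
      z.2 o) P (uO z.1) z) (f := fun x : ℕ => (hd x, tl x / 2)) k6 (by fun_prop)
  have k8 := ls_kap3 P hn hv
  have k9 : LS (fun x : ℕ => sto 0 6 (nO (hd x)) (kap3 P (nO (hd x)) (vO (hd x))).unpair.1
      (kap3 P (nO (hd x)) (vO (hd x))).unpair.2) :=
    ls_sto z (LS.const 6) hn (by fun_prop) (by fun_prop)
  exact LS.ifz hp k0 (LS.ifz (by fun_prop) k1 (LS.ifz (by fun_prop) k2 (LS.ifz (by fun_prop) k3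
    (LS.ifz (by fun_prop) k4 (LS.ifz (by fun_prop) k5 (LS.ifz (by fun_prop) k7
      (LS.ifz (by fun_prop) k9 dd)))))))

theorem ls_writeF (P : List Ins) : LS (writeF P) := by
  have hh := ls_hd
  have ht := ls_tl
  have hi : LS (fun x : ℕ => hd (tl x)) := LS.comp (g := hd) hh ht
  have hc : LS (fun x : ℕ => tl (tl x)) := LS.comp (g := tl) ht ht
  have hp : LS (fun x : ℕ => pO (hd x)) := ls_pO hh
  have hn : LS (fun x : ℕ => nO (hd x)) := ls_nO hh
  have hu : LS (fun x : ℕ => uO (hd x)) := ls_uO hh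
  have hv : LS (fun x : ℕ => vO (hd x)) := ls_vO hh
  have k1 : LS (fun x : ℕ => 2 * (tl (tl x)) ^ 2) := LS.mul (LS.const 2) (LS.pow_const hc 2)
  have hu1 : LS (fun x : ℕ => (uO (hd x)).unpair.1) := by fun_prop
  have hu2 : LS (fun x : ℕ => (uO (hd x)).unpair.2) := by fun_prop
  have hi2 : LS (fun x : ℕ => hd (tl x) / 2) := LS.div hi (LS.const 2)
  have k2 := LS.add (ls_top hc) (ls_newV P hn hu1 hu2 hv hi2 hc)
  exact LS.ifz (by fun_prop) k1 k2

/-- The machine with messages which runs the program on the words `F w` and `y`. -/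
noncomputable def mach (D : LD) (P : List Ins) : NBM where
  start := wd (sto 0 0 0 0 0)
  init a b := wd (1 + lett a + 3 * lett b)
  addr := wf (addrF D P)
  next := wf (nextF D P)
  write := wf (writeF P)
  ask u := decide (pO (num u) < 2)
  msg u := decide (pO (num u) = 5 ∨ pO (num u) = 7)
  reset _ := false
  addr_lin := linComp_wf (ls_addrF D P)
  next_lin := linComp_wf (ls_nextF D P)
  write_lin := linComp_wf (ls_writeF P)
  ask_lin := by
    have hp : LS (fun x : ℕ => pO x) := ls_pO (by fun_prop)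
    refine Pool.Agent.Helper31.TMS.linComp_of_ls (F := fun x => 2 + lt01 (pO x) 2)
      (by fun_prop) fun u => ?_
    unfold lt01
    by_cases h : pO (num u) < 2
    · simp [h, num]
    · simp [h, num]
  msg_lin := by
    have hp : LS (fun x : ℕ => pO x) := ls_pO (by fun_prop)
    refine Pool.Agent.Helper31.TMS.linComp_of_ls
      (F := fun x => 2 + (eq01 (pO x) 5 + eq01 (pO x) 7)) (by fun_prop) fun u => ?_
    unfold eq01
    by_cases h : pO (num u) = 5
    · simp [h, num]
    · by_cases h' : pO (num u) = 7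
      · simp [h', num]
      · simp [h, h', num]
  reset_lin := Pool.Agent.Helper31.TMS.linComp_of_ls (F := fun _ => 2) (LS.const 2) fun _ => rfl

end Pool.Agent.Helper92.RB
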