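import Pool.Agent.Helper92.RB.Time

/-!
# Programs with few expensive changes as machines with messages: the number of messages
-/

namespace Pool.Agent.Helper92.RB

open Pool.Agent.Helper65.LinSpace Pool.Agent.Helper78.Mpc Pool.Agent.Helper28.Ram Finset
open Pool.Agent.Helper81.RP (Ins lett step AcceptsAt conf a0 a1 dst npc uu bd cst cst_le conf_succ)
open Pool.Agent.Helper92.RE (inpL valL vvL step_eqL)
open Pool.Agent.Helper92.RF (dst_le)
open scoped Classical

section

variable {P : List Ins} {x y : List Bool} {m : ℕ}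

theorem a1_cases (P : List Ins) (pc u : ℕ) : a1 P[pc]? u ≤ bd P ∨
    ∃ i j, P[pc]? = some (.load i j) ∧ a1 P[pc]? u = u := by
  rcases h : P[pc]? with _ | o
  · exact Or.inl (Nat.zero_le _)
  · have h2 := cst_le h
    have h3 : (P.map cst).sum ≤ bd P := Nat.le_add_left _ _
    cases o with
    | load i j => exact Or.inr ⟨i, j, rfl, rfl⟩
    | _ => exact Or.inl (by simp only [a1, cst] at h2 ⊢; omega)

theorem letter_of_inp {c : ℕ × (ℕ → ℕ)} (h : inpL P[c.1]? ≠ 0) : Letter P c := by
  unfold Letter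
  rcases e : P[c.1]? with _ | o
  · rw [e] at h
    exact absurd rfl h
  · rw [e] at h
    cases o with
    | input i j => exact Or.inl ⟨i, j, rfl⟩
    | advice i j => exact Or.inr ⟨i, j, rfl⟩
    | _ => exact absurd rfl h

theorem acc_stays {k k' : ℕ} (h : k ≤ k') (ha : Acc P (conf P x y k)) :
    Acc P (conf P x y k') := by
  induction k' with
  | zero =>
    rw [show k = 0 by omega] at ha
    exact ha
  | succ k' ih =>
    rcases Nat.le_succ_iff.1 h with h1 | rfl
    · rw [conf_succ, step_acc (ih h1)]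
      exact ih h1
    · exact ha

/-- Two messages are not in one cheap part. -/
theorem not_cheap {k k' a b : ℕ} (h : MsgAt P x y m k) (h' : MsgAt P x y m k') (hkk : k < k')
    (ha : a ≤ k) (hb : k' < b) : ¬Cheap P x y m a b := by
  rintro ⟨β, hβ⟩
  obtain ⟨e, h1, h2, h3, h4⟩ := exists_next (P := P) (x := x) (y := y) (m := m) hkk h'.1
  rcases seg_cases h h1 h4 with g0 | g0 | g0
  · exact absurd g0.1 (by rw [h3]; omega)
  · exact absurd g0.1 (by rw [h3]; omega)
  · obtain ⟨-, k₂, g1, g2, g3, g4, g5, g6⟩ := g0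
    have hna : ¬Acc P (conf P x y e) := fun hacc => (al_msg (m := m) h'.2).2 (acc_stays h2 hacc)
    have hal : ¬Al P 0 0 0 (conf P x y e) := fun hal => g6 ⟨hal, hna⟩
    obtain ⟨i, j, hst, -⟩ := h.2
    have hS : Stores P (conf P x y k) ((conf P x y k).2 i) := ⟨i, j, hst, rfl⟩
    have hbk : bOf P m (conf P x y k) = (conf P x y k).2 i / m := by
      unfold bOf uu
      rw [hst]
      rfl
    obtain ⟨c1, c2⟩ := hβ k e _ ha h1 (by omega) hS
    unfold Al at hal
    rw [alN_ne] at hal
    have hinp : inpL P[(conf P x y e).1]? = 0 := by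
      by_contra hcon
      exact c1 (letter_of_inp hcon)
    have ha1 : ¬a1 P[(conf P x y e).1]? (uu P (conf P x y e)) ≤ bd P := fun hle =>
      hal ⟨hinp, Or.inl hle, Or.inr (Or.inl rfl)⟩
    rcases a1_cases P (conf P x y e).1 (uu P (conf P x y e)) with h5 | ⟨i', j', h5, h6⟩
    · exact ha1 h5
    · have hu : uu P (conf P x y e) = (conf P x y e).2 j' := by
        unfold uu
        rw [h5]
        rfl
      obtain ⟨d1, d2⟩ := c2 _ ⟨i', j', h5, hu.symm⟩
      rcases Nat.eq_or_lt_of_le g2 with h7 | h7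
      · refine g4 ⟨?_, by rw [h7]; exact hna⟩
        rw [h7]
        unfold Al
        rw [alN_ne]
        refine ⟨hinp, Or.inr ⟨one_ne_zero, ?_⟩, Or.inl ?_⟩
        · rw [h6, d2, hbk, d1]
        · rcases dst_le P (conf P x y e).1 (uu P (conf P x y e)) with h8 | ⟨i'', j'', h8, -⟩
          · exact h8
          · rw [h5] at h8
            simp at h8
      · obtain ⟨q1, q2⟩ := g5 k₂ le_rfl h7
        have q3 := alN_ne.1 q1
        have q4 : a1 P[(conf P x y k₂).1]? (uu P (conf P x y k₂)) ≤ bd P := by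
          rcases q3.2.1 with q | ⟨q, -⟩
          · exact q
          · exact absurd rfl q
        have q5 : ¬Al P 1 m (bOf P m (conf P x y k)) (conf P x y k₂) := fun q => g4 ⟨q, q2⟩
        unfold Al at q5
        rw [alN_ne] at q5
        rcases dst_le P (conf P x y k₂).1 (uu P (conf P x y k₂)) with h8 | ⟨i'', j'', h8, h9⟩
        · exact q5 ⟨q3.1, Or.inl q4, Or.inl h8⟩
        · have hu2 : uu P (conf P x y k₂) = (conf P x y k₂).2 i'' := by
            unfold uu
            rw [h8]
            rfl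
          obtain ⟨-, c4⟩ := hβ k₂ e _ (by omega) h7 (by omega) ⟨i'', j'', h8, hu2.symm⟩
          obtain ⟨d3, -⟩ := c4 _ ⟨i', j', h5, hu.symm⟩
          refine q5 ⟨q3.1, Or.inl q4, Or.inr (Or.inr ?_)⟩
          rw [h9, d3, hbk, d1]

theorem exists_part {f : ℕ → ℕ} {r k : ℕ} (h0 : f 0 ≤ k) (hr : k < f r) :
    ∃ i < r, f i ≤ k ∧ k < f (i + 1) := by
  induction r with
  | zero => omega
  | succ r ih =>
    by_cases h : k < f r
    · obtain ⟨i, h1, h2⟩ := ih h
      exact ⟨i, by omega, h2⟩
    · exact ⟨r, Nat.lt_succ_self _, by omega, hr⟩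

/-- The number of messages. -/
theorem msgs_le_parts {r u v : ℕ} (h : Parts P x y m r u v) :
    {k : ℕ | u ≤ k ∧ k < v ∧ MsgAt P x y m k}.ncard ≤ r := by
  obtain ⟨f, h0, h1, h2⟩ := h
  have hex : ∀ k, u ≤ k ∧ k < v ∧ MsgAt P x y m k → ∃ i < r, f i ≤ k ∧ k < f (i + 1) :=
    fun k hk => exists_part (by omega) (by omega)
  choose! φ g1 g2 g3 using hex
  have h4 : {k : ℕ | u ≤ k ∧ k < v ∧ MsgAt P x y m k}.ncard ≤ (↑(range r) : Set ℕ).ncard := by
    refine Set.ncard_le_ncard_of_injOn φ (fun k hk => mem_coe.2 (mem_range.2 (g1 k hk))) ?_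
      (Finset.finite_toSet _)
    rintro k hk k' hk' he
    rcases lt_trichotomy k k' with h5 | h5 | h5
    · refine absurd (h2 (φ k) (g1 k hk)).2 (not_cheap hk.2.2 hk'.2.2 h5 (g2 k hk) ?_)
      have := g3 k' hk'
      rwa [← he] at this
    · exact h5
    · refine absurd (h2 (φ k') (g1 k' hk')).2 (not_cheap hk'.2.2 hk.2.2 h5 (g2 k' hk') ?_)
      have := g3 k hk
      rwa [he] at this
  rwa [Set.ncard_coe_finset, card_range] at h4

/-- Parts of a part. -/
theorem Cheap.mono {a b a' b' : ℕ} (h : Cheap P x y m a b) (ha : a ≤ a') (hb : b' ≤ b) :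
    Cheap P x y m a' b' := by
  obtain ⟨β, h⟩ := h
  exact ⟨β, fun j k i h1 h2 h3 h4 => h j k i (ha.trans h1) h2 (h3.trans_le hb) h4⟩

theorem Parts.mono {r u v u' v' : ℕ} (h : Parts P x y m r u v) (hu : u ≤ u') (huv : u' ≤ v')
    (hv : v' ≤ v) : Parts P x y m r u' v' := by
  obtain ⟨f, h0, h1, h2⟩ := h
  have hmono : ∀ i j, i ≤ j → j ≤ r → f i ≤ f j := by
    intro i j hij hj
    induction j with
    | zero => rw [show i = 0 by omega]
    | succ j ih =>
      rcases Nat.le_succ_iff.1 hij with h3 | rfl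
      · exact (ih h3 (by omega)).trans (h2 j (by omega)).1
      · exact le_rfl
  refine ⟨fun i => max u' (min v' (f i)), ?_, ?_, fun i hi => ⟨?_, ?_⟩⟩
  · dsimp only
    rw [h0]
    omega
  · dsimp only
    rw [h1]
    omega
  · have := (h2 i hi).1
    dsimp only
    omega
  · show Cheap P x y m (max u' (min v' (f i))) (max u' (min v' (f (i + 1))))
    rcases Nat.lt_or_ge (max u' (min v' (f i))) (max u' (min v' (f (i + 1)))) with h3 | h3
    · refine (h2 i hi).2.mono ?_ ?_
      · omega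
      · omega
    · exact ⟨0, fun j k i h4 h5 h6 => by omega⟩

end

end Pool.Agent.Helper92.RB
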