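import Pool.Agent.Helper92.RB.Mach
import Pool.Agent.Helper92.RF.Sim

/-!
# Programs with few expensive changes as machines with messages: one step
-/

namespace Pool.Agent.Helper92.RB

open Pool.Agent.Helper65.LinSpace Pool.Agent.Helper78.Mpc Pool.Agent.Helper28.Ram Finset
open Pool.Agent.Helper81.Sus2
open Pool.Agent.Helper81.RP (Ins lett step AcceptsAt conf wd wf num_wd wd_num wf_eq linComp_wf
  length_wd ls_pair hd tl ls_hd ls_tl hd_eq tl_eq a0 a1 dst npc uu ls_a1 ls_dst
  ls_npc selF selF_eq ls_selF isA accF accF_le accF_eq_one ls_accF bd pc_le a0_le a1_le npc_le cst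
  cst_le wd_one head_name wd_cons_false hd_read step_of head_wd conf_succ)
open Pool.Agent.Helper92.RE (LD inpL valL vvL step_eqL ls_valL lett_le lett_none lt_eq adr1 ls_adr1
  sto pO nO uO vO sto_pos pO_sto nO_sto uO_sto vO_sto ls_sto ls_pO ls_nO ls_uO ls_vO)
open Pool.Agent.Helper92.RF (setN setN_tab setN_lt uN ls_setN ls_uN cod cod_pc cod_reg Dead
  unpair_pair_fst unpair_pair_snd parN parW parW_pos top top_pos ls_parN ls_parW ls_top ifz_pos
  bitsN_pos top_top_add top_pow)

/-! ### The memory -/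

/-- The memory of the machine: the register with the number `2 g + 1` contains the block `g` of the
registers of the program, with the additional number `2 ^ l`. -/
noncomputable def memB (P : List Ins) (w y : List Bool) (W m l : ℕ) (R : ℕ → ℕ) :
    List Bool → List Bool
  | [] => wd (2 ^ l + blk P W m R 0)
  | false :: u => wd (1 + lett w[bval u]? + 3 * lett y[bval u]?)
  | true :: u => wd (2 ^ l + blk P W m R (num u))

theorem memB_num (P : List Ins) (w y : List Bool) (W m l : ℕ) (R : ℕ → ℕ) {i : List Bool}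
    (hi : i.head? ≠ some false) :
    memB P w y W m l R i = wd (2 ^ l + blk P W m R (num i / 2)) := by
  rcases i with _ | ⟨b, u⟩
  · rfl
  · cases b
    · exact absurd rfl hi
    · show wd (2 ^ l + blk P W m R (num u)) = wd (2 ^ l + blk P W m R ((true.toNat + 2 * num u) / 2))
      rw [Bool.toNat_true, show (1 + 2 * num u) / 2 = num u by omega]

theorem memB_name (P : List Ins) (w y : List Bool) (W m l : ℕ) (R : ℕ → ℕ) (g : ℕ) :
    num (memB P w y W m l R (wd (2 * g + 1))) = 2 ^ l + blk P W m R g := by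
  rw [memB_num P w y W m l R (head_name g), num_wd (by positivity), num_wd (Nat.succ_pos _),
    show (2 * g + 1) / 2 = g by omega]

theorem memB_one (P : List Ins) (w y : List Bool) (W m l : ℕ) (R : ℕ → ℕ) :
    num (memB P w y W m l R (wd 1)) = 2 ^ l + blk P W m R 0 := memB_name P w y W m l R 0

theorem memB_letter (P : List Ins) (w y : List Bool) (W m l : ℕ) (R : ℕ → ℕ) (u : ℕ) :
    num (memB P w y W m l R (wd (2 * bitsN u))) = lett w[u]? + 3 * lett y[u]? + 1 := by
  rw [wd_cons_false _ (by rw [bitsN_eq]; exact num_pos _), bitsN_eq, wd_num]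
  show num (wd (1 + lett w[bval u.bits]? + 3 * lett y[bval u.bits]?)) = _
  rw [Pool.Agent.Helper31.TMS.bval_bits, num_wd (by omega)]
  ring

theorem memB_congr (P : List Ins) (w y : List Bool) (W m l : ℕ) {R R' : ℕ → ℕ}
    (h : ∀ g, blk P W m R g = blk P W m R' g) : memB P w y W m l R = memB P w y W m l R' := by
  funext i
  rcases i with _ | ⟨b, u⟩
  · show wd _ = wd _
    rw [h]
  · cases b
    · rfl
    · show wd _ = wd _
      rw [h]

theorem blk_zero (P : List Ins) (W m g : ℕ) : blk P W m (fun _ => 0) g = 0 := by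
  unfold blk tab
  simp

theorem memB_zero (P : List Ins) (w y : List Bool) (W m W' m' l : ℕ) :
    memB P w y W m l (fun _ => 0) = memB P w y W' m' l fun _ => 0 := by
  funext i
  rcases i with _ | ⟨b, u⟩
  · show wd _ = wd _
    rw [blk_zero, blk_zero]
  · cases b
    · rfl
    · show wd _ = wd _
      rw [blk_zero, blk_zero]

theorem mem0_eq (D : LD) (P : List Ins) (w y : List Bool) (W m : ℕ) :
    (mach D P).mem0 w y = memB P w y W m 0 fun _ => 0 := by
  funext i
  rcases i with _ | ⟨b, u⟩
  · show [] = wd _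
    rw [blk_zero, pow_zero, add_zero, wd_one]
  · cases b
    · rfl
    · show [] = wd _
      rw [blk_zero, pow_zero, add_zero, wd_one]

theorem blk_lt {P : List Ins} {W m : ℕ} {R : ℕ → ℕ} (hR : ∀ i, R i < W) (g : ℕ) :
    blk P W m R g < W ^ m := by
  refine tab_lt fun i _ => ?_
  split_ifs
  · exact (Nat.zero_le _).trans_lt (hR 0)
  · exact hR _

/-! ### Positivity -/

theorem resO_pos (D : LD) (P : List Ins) (p pc N t : ℕ) (o : Option Ins) :
    0 < resO D P p pc N t o :=
  ifz_pos (ifz_pos (ifz_pos (sto_pos _ _ _ _ _) (sto_pos _ _ _ _ _)) (sto_pos _ _ _ _ _))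
    (sto_pos _ _ _ _ _)

theorem nextG_pos (D : LD) (P : List Ins) (x b t : ℕ) : 0 < nextG D P x b t := by
  unfold nextG
  refine ifz_pos (ifz_pos (sto_pos _ _ _ _ _) (sto_pos _ _ _ _ _)) (ifz_pos (sto_pos _ _ _ _ _)
    (ifz_pos (ifz_pos (sto_pos _ _ _ _ _) (sto_pos _ _ _ _ _))
    (ifz_pos (ifz_pos (sto_pos _ _ _ _ _) (sto_pos _ _ _ _ _))
    (ifz_pos (ifz_pos (sto_pos _ _ _ _ _) (sto_pos _ _ _ _ _))
    (ifz_pos (sto_pos _ _ _ _ _) (ifz_pos ?_ (ifz_pos (sto_pos _ _ _ _ _)
      (sto_pos _ _ _ _ _))))))))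
  rw [selF_eq]
  exact resO_pos _ _ _ _ _ _ _

theorem addrF_pos (D : LD) (P : List Ins) (x : ℕ) : 0 < addrF D P x := by
  unfold addrF
  refine ifz_pos Nat.one_pos (ifz_pos (Nat.mul_pos (by norm_num) (bitsN_pos _))
    (ifz_pos (Nat.mul_pos (by norm_num) (bitsN_pos _)) (ifz_pos Nat.one_pos (ifz_pos ?_
      Nat.one_pos))))
  rw [selF_eq]
  exact ifz_pos (Nat.succ_pos _) (Nat.mul_pos (by norm_num) (bitsN_pos _))

section

variable (D : LD) (P : List Ins)

theorem ask_wd {x : ℕ} (hx : 0 < x) : (mach D P).ask (wd x) = decide (pO x < 2) := by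
  show decide (pO (num (wd x)) < 2) = _
  rw [num_wd hx]

theorem msg_wd {x : ℕ} (hx : 0 < x) : (mach D P).msg (wd x) = decide (pO x = 5 ∨ pO x = 7) := by
  show decide (pO (num (wd x)) = 5 ∨ pO (num (wd x)) = 7) = _
  rw [num_wd hx]

/-- One step. -/
theorem step_gen {x : ℕ} (hx : 0 < x) (b : Bool) (M : List Bool → List Bool) :
    (mach D P).step b (wd x, M) =
      (wd (nextG D P x (decide (pO x < 2) && b).toNat (num (M (wd (addrF D P x))))), fun i =>
        (mach D P).upd (wd (nextG D P x (decide (pO x < 2) && b).toNat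
          (num (M (wd (addrF D P x)))))) i (M i)) := by
  have haddr : (mach D P).addr (wd x) = wd (addrF D P x) :=
    wf_eq (by rw [num_wd hx]) (addrF_pos D P x)
  refine step_of ?_
  rw [haddr, ask_wd D P hx]
  refine wf_eq ?_ (nextG_pos _ _ _ _ _)
  unfold nextF
  have h1 : tl (num (sd (wd x) ++ (decide (pO x < 2) && b) :: M (wd (addrF D P x)))) =
      (decide (pO x < 2) && b).toNat + 2 * num (M (wd (addrF D P x))) := tl_eq _ _
  have h2 : (decide (pO x < 2) && b).toNat ≤ 1 := toNat_le_one _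
  rw [hd_read hx, h1]
  generalize (decide (pO x < 2) && b).toNat = b' at h2 ⊢
  congr 1 <;> omega

/-- One step without guessed letter. -/
theorem step_det {x : ℕ} (hx : 0 < x) (hp : 2 ≤ pO x) (b : Bool) (M : List Bool → List Bool) :
    (mach D P).step b (wd x, M) =
      (wd (nextG D P x 0 (num (M (wd (addrF D P x))))), fun i =>
        (mach D P).upd (wd (nextG D P x 0 (num (M (wd (addrF D P x)))))) i (M i)) := by
  rw [step_gen D P hx]
  have h1 : decide (pO x < 2) = false := by
    rw [decide_eq_false_iff_not]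
    omega
  rw [h1]
  rfl

/-- A state which is no message does not change the memory. -/
theorem upd_silent {x : ℕ} (hx : 0 < x) (h5 : pO x ≠ 5) (h7 : pO x ≠ 7)
    (M : List Bool → List Bool) : (fun i => (mach D P).upd (wd x) i (M i)) = M := by
  funext i
  unfold NBM.upd
  rw [msg_wd D P hx]
  simp [h5, h7]

theorem upd_read {x : ℕ} (u c : List Bool) :
    (mach D P).upd (wd x) (false :: u) c = c := by
  unfold NBM.upd
  simp

theorem upd_msg {x : ℕ} (hx : 0 < x) (h : pO x = 5 ∨ pO x = 7) {i : List Bool}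
    (hi : i.head? ≠ some false) (c : List Bool) :
    (mach D P).upd (wd x) i c = wd (writeG P x (num i) (num c) - 1 + 1) := by
  unfold NBM.upd
  rw [msg_wd D P hx, if_pos ⟨decide_eq_true h, hi⟩]
  show wf (writeF P) (sd (wd x) ++ (sd i ++ c)) = _
  unfold wf writeF
  rw [hd_read hx, tl_eq, hd_eq, tl_eq]

end

/-! ### The two messages -/

section

variable (D : LD) (P : List Ins) (w y : List Bool)

theorem upd_five (p W m l : ℕ) :
    (fun i => (mach D P).upd (wd (sto 0 5 p 0 0)) i (memB P w y W m l (fun _ => 0) i)) =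
      memB P w y W m (2 * l + 1) fun _ => 0 := by
  funext i
  by_cases hi : i.head? = some false
  · rcases i with _ | ⟨b, u⟩
    · simp at hi
    · simp only [List.head?_cons, Option.some.injEq] at hi
      subst hi
      exact upd_read D P _ _
  · have e1 := pO_sto (f := 0) (by omega) 5 p 0 0
    rw [upd_msg D P (sto_pos _ _ _ _ _) (Or.inl e1) hi, memB_num P w y _ _ _ _ hi,
      memB_num P w y _ _ _ _ hi, blk_zero, add_zero, add_zero, num_wd (by positivity)]
    unfold writeG
    rw [e1, Nat.sub_self, ifz_zero]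
    have h1 : 2 * (2 ^ l) ^ 2 = 2 ^ (2 * l + 1) := by
      rw [← pow_mul, pow_succ, mul_comm l]
      ring
    rw [h1, Nat.sub_add_cancel Nat.one_le_two_pow]

/-- The message: the cells are changed by `newV`. -/
theorem upd_seven {p W m l : ℕ} {R R' : ℕ → ℕ} (hR : ∀ i, R i < W) (hl : W ^ m ≤ 2 ^ l)
    {q κ₁ κ₂ : ℕ} (h : ∀ g, newV P p q κ₁ κ₂ g (2 ^ l + blk P W m R g) = blk P W m R' g) :
    (fun i => (mach D P).upd (wd (sto 0 7 p (Nat.pair q κ₁) κ₂)) i (memB P w y W m l R i)) =
      memB P w y W m l R' := by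
  funext i
  by_cases hi : i.head? = some false
  · rcases i with _ | ⟨b, u⟩
    · simp at hi
    · simp only [List.head?_cons, Option.some.injEq] at hi
      subst hi
      exact upd_read D P _ _
  · have e1 := pO_sto (f := 0) (by omega) 7 p (Nat.pair q κ₁) κ₂
    have e2 := nO_sto (f := 0) (by omega) 7 p (Nat.pair q κ₁) κ₂
    have e3 := uO_sto (f := 0) (by omega) 7 p (Nat.pair q κ₁) κ₂
    have e4 := vO_sto (f := 0) (by omega) 7 p (Nat.pair q κ₁) κ₂
    rw [upd_msg D P (sto_pos _ _ _ _ _) (Or.inr e1) hi, memB_num P w y _ _ _ _ hi,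
      memB_num P w y _ _ _ _ hi, num_wd (by positivity)]
    unfold writeG
    have htop : top (2 ^ l + blk P W m R (num i / 2)) = 2 ^ l := by
      have h1 : blk P W m R (num i / 2) < top (2 ^ l) := by
        rw [top_pow]
        exact (blk_lt hR _).trans_le hl
      have h2 := top_top_add h1
      rwa [top_pow] at h2
    rw [e1, e2, e3, e4, Nat.unpair_pair, ifz_ne (by norm_num), h, htop]
    have := Nat.one_le_two_pow (n := l)
    rw [Nat.sub_add_cancel (by omega)]

end

end Pool.Agent.Helper92.RB
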