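import Pool.Agent.Helper92.RB.Steps

/-!
# Programs with few expensive changes as machines with messages: soundness
-/

namespace Pool.Agent.Helper92.RB

open Pool.Agent.Helper65.LinSpace Pool.Agent.Helper78.Mpc Pool.Agent.Helper28.Ram Finset
open Pool.Agent.Helper81.Sus2
open Pool.Agent.Helper81.RP (Ins lett step AcceptsAt conf wd wf num_wd wd_num a0 a1 dst npc uu
  isA bd conf_succ)
open Pool.Agent.Helper92.RE (LD inpL valL vvL step_eqL sto pO nO uO vO sto_pos pO_sto nO_sto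
  uO_sto vO_sto head_st nconf_succ)
open Pool.Agent.Helper92.RF (cod cod_pc cod_reg Dead parN parW parW_pos unpair_pair_fst
  unpair_pair_snd)

/-- The configurations of the machine. -/
def Inv (P : List Ins) (F : List Bool → List Bool) (w y : List Bool)
    (c : List Bool × (List Bool → List Bool)) : Prop :=
  (∃ G, (c.1 = wd (sto 0 0 0 G 0) ∨ c.1 = wd (sto 0 1 0 G 0) ∨ c.1 = wd (sto 0 2 G 0 0)) ∧
    c.2 = memB P w y 0 0 0 fun _ => 0) ∨
  (∃ G, c.1 = wd (sto 0 3 G 0 0) ∧ w.length ≤ parN G ∧ parN G ≠ 0 ∧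
    c.2 = memB P w y 0 0 0 fun _ => 0) ∨
  (∃ G l, (c.1 = wd (sto 0 4 G 0 0) ∨ c.1 = wd (sto 0 5 G 0 0)) ∧ parN G = w.length ∧
    c.2 = memB P w y 0 0 l fun _ => 0) ∨
  (∃ G l k, St P F w y G l k ∧ c = (wd (sto 0 6 G (conf P (F w) y k).1
    (tab (parW G) (bd P + 1) (conf P (F w) y k).2)),
      memB P w y (parW G) (parM G) l (conf P (F w) y k).2)) ∨
  (∃ G l e q κ, St P F w y G l e ∧ kap3 P G κ = cod (parW G) (bd P + 1) (conf P (F w) y e) ∧
      c = (wd (sto 0 7 G q κ), memB P w y (parW G) (parM G) l (conf P (F w) y e).2)) ∨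
  (∃ G N, c.1 = wd (sto 0 6 G P.length N)) ∨
  (∃ G q κ, c.1 = wd (sto 0 7 G q κ) ∧ Dead P (kap3 P G κ)) ∨
  (c.1 = wd (sto 1 9 0 0 0) ∧ ∃ t, AcceptsAt P (F w) y t) ∨ c.1 = wd (sto 0 10 0 0 0)

section

variable {D : LD} {P : List Ins} {F : List Bool → List Bool} {w y : List Bool}

/-- The beginning of the main phase. -/
theorem St.start {G l : ℕ} (hn : parN G = w.length) (hok : okN G (2 ^ l) ≠ 0) :
    St P F w y G l 0 :=
  ⟨hok, hn, fun _ => parW_pos G⟩

theorem tab_const_zero (W m : ℕ) : tab W m (fun _ => 0) = 0 := by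
  unfold tab
  simp

/-- The result of a message. -/
theorem St.msg_cases {G l k : ℕ} (h : St P F w y G l k) {κ₂ : ℕ}
    (hκ : κ₂ = (runB P 1 (parW G) (parM G) (bOf P (parM G) (conf P (F w) y k))
      (cb P (parW G) (parM G) (bOf P (parM G) (conf P (F w) y k)) (conf P (F w) y k))
      (capB P (cb P (parW G) (parM G) (bOf P (parM G) (conf P (F w) y k))
        (conf P (F w) y k)) (parW G ^ (bd P + 1)) (2 ^ l) + 1)).unpair.1) :
    Dead P (kap3 P G κ₂) ∨ ∃ e, St P F w y G l e ∧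
      kap3 P G κ₂ = cod (parW G) (bd P + 1) (conf P (F w) y e) ∧
      ∀ g, newV P G (bOf P (parM G) (conf P (F w) y k) + 1)
        (cod (parW G) (bd P + 1) (conf P (F w) y k)) κ₂ g
        (2 ^ l + blk P (parW G) (parM G) (conf P (F w) y k).2 g) =
        blk P (parW G) (parM G) (conf P (F w) y e).2 g := by
  rcases run1_sound (W := parW G) (m := parM G) (g := bOf P (parM G) (conf P (F w) y k)) (F w) y
    (parM_pos G) (c := conf P (F w) y k) h.lt
    (capB P (cb P (parW G) (parM G) (bOf P (parM G) (conf P (F w) y k))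
        (conf P (F w) y k)) (parW G ^ (bd P + 1)) (2 ^ l) + 1) with h1 | ⟨j, h1, h2, h3⟩
  · left
    rw [← hκ] at h1
    unfold kap3
    exact dead_runB (by rw [unpair_pair_fst]; exact h1) _
  · rw [← conf_add] at h1 h2 h3
    rw [h2, cb_fst] at hκ
    subst hκ
    rcases run0_sound (W := parW G) (F w) y (c := conf P (F w) y (k + j)) h1
      (capK P (cod (parW G) (bd P + 1) (conf P (F w) y (k + j))) (parW G ^ (bd P + 1)) + 1) with
      h4 | ⟨i, h4, h5⟩
    · exact Or.inl (h4 0 0)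
    · rw [← conf_add] at h4 h5
      exact Or.inr ⟨k + j + i, ⟨h.ok, h.len, h4⟩, kap3_eq h5, h.newV_eq h2 h3 h5⟩

/-- The invariant. -/
theorem inv_step (hF : D.Is F) {c : List Bool × (List Bool → List Bool)} (b : Bool)
    (h : Inv P F w y c) : Inv P F w y ((mach D P).step b c) := by
  have dead10 : ∀ M, Inv P F w y (wd (sto 0 10 0 0 0), M) := fun M =>
    Or.inr (Or.inr (Or.inr (Or.inr (Or.inr (Or.inr (Or.inr (Or.inr rfl)))))))
  rcases h with ⟨G, h1, h2⟩ | ⟨G, h1, h2, h3, h4⟩ | ⟨G, l, h1, h2, h3⟩ | ⟨G, l, k, h1, h2⟩ |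
    ⟨G, l, e, q, κ, h1, h2, h3⟩ | ⟨G, N, h1⟩ | ⟨G, q, κ, h1, h2⟩ | ⟨h1, h2⟩ | h1
  · obtain ⟨c1, c2⟩ := c
    rcases h1 with h1 | h1 | h1 <;> dsimp only at h1 h2 <;> subst h1
    · rw [step_p0]
      refine Or.inl ?_
      cases b
      · exact ⟨G, Or.inr (Or.inr rfl), h2⟩
      · exact ⟨G, Or.inr (Or.inl rfl), h2⟩
    · rw [step_p1]
      exact Or.inl ⟨_, Or.inl rfl, h2⟩
    · rw [h2, step_p2]
      by_cases h3 : w.length ≤ parN G
      · rw [if_pos h3]
        by_cases h4 : parN G = 0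
        · rw [if_pos h4]
          exact Or.inr (Or.inr (Or.inl ⟨G, 0, Or.inl rfl, by omega, rfl⟩))
        · rw [if_neg h4]
          exact Or.inr (Or.inl ⟨G, rfl, h3, h4, rfl⟩)
      · rw [if_neg h3]
        exact dead10 _
  · obtain ⟨c1, c2⟩ := c
    dsimp only at h1 h4
    subst h1
    rw [h4, step_p3]
    by_cases h5 : parN G - 1 < w.length
    · rw [if_pos h5]
      exact Or.inr (Or.inr (Or.inl ⟨G, 0, Or.inl rfl, by omega, rfl⟩))
    · rw [if_neg h5]
      exact dead10 _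
  · obtain ⟨c1, c2⟩ := c
    rcases h1 with h1 | h1 <;> dsimp only at h1 h3 <;> subst h1 h3
    · rw [step_p4 D P w y b G 0 0 l]
      by_cases h4 : okN G (2 ^ l) = 0
      · rw [if_pos h4]
        exact Or.inr (Or.inr (Or.inl ⟨G, 2 * l + 1, Or.inr rfl, h2, rfl⟩))
      · rw [if_neg h4]
        have h5 := St.start (P := P) (F := F) (w := w) (y := y) h2 h4
        refine Or.inr (Or.inr (Or.inr (Or.inl ⟨G, l, 0, h5, ?_⟩)))
        rw [show (conf P (F w) y 0).2 = fun _ => 0 from rfl, tab_const_zero,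
          memB_zero P w y 0 0 (parW G) (parM G)]
        rfl
    · rw [step_p5]
      exact Or.inr (Or.inr (Or.inl ⟨G, l, Or.inl rfl, h2, rfl⟩))
  · subst h2
    by_cases ha : Acc P (conf P (F w) y k)
    · rw [h1.step_acc D ha]
      exact Or.inr (Or.inr (Or.inr (Or.inr (Or.inr (Or.inr (Or.inr (Or.inl ⟨rfl, k, ha⟩)))))))
    by_cases hs : NSt P (conf P (F w) y k)
    · rw [h1.step_msg D hs]
      generalize hκ : (runB P 1 (parW G) (parM G) (bOf P (parM G) (conf P (F w) y k))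
        (cb P (parW G) (parM G) (bOf P (parM G) (conf P (F w) y k)) (conf P (F w) y k))
        (capB P (cb P (parW G) (parM G) (bOf P (parM G) (conf P (F w) y k))
          (conf P (F w) y k)) (parW G ^ (bd P + 1)) (2 ^ l) + 1)).unpair.1 = κ₂
      rcases h1.msg_cases hκ.symm with h2 | ⟨e, h2, h3, h4⟩
      · exact Or.inr (Or.inr (Or.inr (Or.inr (Or.inr (Or.inr (Or.inl ⟨G, _, _, rfl, h2⟩))))))
      · rw [upd_seven D P w y h1.lt (pow_le h1.ok) h4]
        exact Or.inr (Or.inr (Or.inr (Or.inr (Or.inl ⟨G, l, e, _, _, h2, h3, rfl⟩))))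
    · rcases lt_or_ge (valL P[(conf P (F w) y k).1]? (uu P (conf P (F w) y k))
        (vvL P (F w) y (conf P (F w) y k))) (parW G) with hr | hr
      · have hlt : ∀ i, (conf P (F w) y (k + 1)).2 i < parW G := by
          rw [conf_succ]
          exact step_lt h1.lt hr
        rw [h1.step_one hF ha hs hlt]
        exact Or.inr (Or.inr (Or.inr (Or.inl ⟨G, l, k + 1, ⟨h1.ok, h1.len, hlt⟩, rfl⟩)))
      · rw [h1.step_over hF ha hs hr]
        exact dead10 _
  · subst h3
    rw [step_p7, h2, cod_pc, cod_reg]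
    exact Or.inr (Or.inr (Or.inr (Or.inl ⟨G, l, e, h1, rfl⟩)))
  · obtain ⟨c1, c2⟩ := c
    dsimp only at h1
    subst h1
    obtain ⟨N', h2⟩ := step_dead D P b G N c2
    rw [h2]
    exact Or.inr (Or.inr (Or.inr (Or.inr (Or.inr (Or.inl ⟨G, N', rfl⟩)))))
  · obtain ⟨c1, c2⟩ := c
    dsimp only at h1
    subst h1
    unfold Dead at h2
    rw [step_p7, h2]
    generalize (kap3 P G κ).unpair.2 = N'
    exact Or.inr (Or.inr (Or.inr (Or.inr (Or.inr (Or.inl ⟨G, N', rfl⟩)))))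
  · obtain ⟨c1, c2⟩ := c
    dsimp only at h1
    subst h1
    rw [step_p9 D P (by omega) (by omega)]
    exact dead10 _
  · obtain ⟨c1, c2⟩ := c
    dsimp only at h1
    subst h1
    rw [step_p9 D P (by omega) (by omega)]
    exact dead10 _

theorem inv_conf (hF : D.Is F) (g : ℕ → Bool) (t : ℕ) :
    Inv P F w y ((mach D P).conf w y g t) := by
  induction t with
  | zero => exact Or.inl ⟨0, Or.inl rfl, mem0_eq D P w y 0 0⟩
  | succ t ih =>
    rw [nconf_succ]
    exact inv_step hF _ ih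

theorem inv_head {c : List Bool × (List Bool → List Bool)} (h : Inv P F w y c)
    (hA : c.1.head? = some true) : ∃ t, AcceptsAt P (F w) y t := by
  obtain ⟨c1, c2⟩ := c
  dsimp only at hA
  have key : ∀ ph p u v, c1 = wd (sto 0 ph p u v) → False := by
    intro ph p u v h1
    rw [h1, head_st (Nat.zero_le 1)] at hA
    exact absurd hA (by norm_num)
  rcases h with ⟨G, h1, -⟩ | ⟨G, h1, -⟩ | ⟨G, l, h1, -⟩ | ⟨G, l, k, -, h1⟩ |
    ⟨G, l, e, q, κ, -, -, h1⟩ | ⟨G, N, h1⟩ | ⟨G, q, κ, h1, -⟩ | ⟨-, h1⟩ | h1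
  · rcases h1 with h1 | h1 | h1
    · exact (key _ _ _ _ h1).elim
    · exact (key _ _ _ _ h1).elim
    · exact (key _ _ _ _ h1).elim
  · exact (key _ _ _ _ h1).elim
  · rcases h1 with h1 | h1
    · exact (key _ _ _ _ h1).elim
    · exact (key _ _ _ _ h1).elim
  · exact (key _ _ _ _ (Prod.mk.inj h1).1).elim
  · exact (key _ _ _ _ (Prod.mk.inj h1).1).elim
  · exact (key _ _ _ _ h1).elim
  · exact (key _ _ _ _ h1).elim
  · exact h1
  · exact (key _ _ _ _ h1).elim

/-- **Soundness.** -/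
theorem accepts_sound (hF : D.Is F) {g : ℕ → Bool} {r : ℕ}
    (h : (mach D P).AcceptsAt w y g r) : ∃ t, AcceptsAt P (F w) y t :=
  inv_head (inv_conf hF g r) h

end

end Pool.Agent.Helper92.RB
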