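import Pool.Agent.Helper92.RB.Sim
import Pool.Agent.Helper92.RF.Steps

/-!
# Programs with few expensive changes as machines with messages: the phases
-/

namespace Pool.Agent.Helper92.RB

open Pool.Agent.Helper65.LinSpace Pool.Agent.Helper78.Mpc Pool.Agent.Helper28.Ram Finset
open Pool.Agent.Helper81.Sus2
open Pool.Agent.Helper81.RP (Ins lett step AcceptsAt conf wd wf num_wd wd_num wf_eq linComp_wf
  length_wd ls_pair hd tl ls_hd ls_tl hd_eq tl_eq a0 a1 dst npc uu ls_a1 ls_dst
  ls_npc selF selF_eq ls_selF isA accF accF_le accF_eq_one ls_accF bd pc_le a0_le a1_le npc_le cst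
  cst_le wd_one head_name wd_cons_false hd_read step_of head_wd conf_succ)
open Pool.Agent.Helper92.RE (LD inpL valL vvL step_eqL ls_valL lett_le lett_none lt_eq adr1 ls_adr1
  sto pO nO uO vO sto_pos pO_sto nO_sto uO_sto vO_sto ls_sto ls_pO ls_nO ls_uO ls_vO)
open Pool.Agent.Helper92.RF (setN setN_tab setN_lt uN ls_setN ls_uN cod cod_pc cod_reg Dead
  unpair_pair_fst unpair_pair_snd parN parW parW_pos top top_pos ls_parN ls_parW ls_top ifz_pos
  bitsN_pos top_top_add top_pow)

section phases

variable (D : LD) (P : List Ins) (w y : List Bool)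

theorem nextG_0 (b G t : ℕ) : nextG D P (sto 0 0 0 G 0) b t =
    ifz b (sto 0 2 G 0 0) (sto 0 1 0 G 0) := by
  unfold nextG
  rw [pO_sto (by omega), uO_sto (by omega), ifz_zero]

theorem nextG_1 (b G t : ℕ) : nextG D P (sto 0 1 0 G 0) b t = sto 0 0 0 (2 * G + b) 0 := by
  unfold nextG
  rw [pO_sto (by omega), uO_sto (by omega), ifz_ne (by omega), ifz_zero]

theorem nextG_2 (b G t : ℕ) : nextG D P (sto 0 2 G 0 0) b t =
    ifz ((t - 1) % 3) (sto 0 (ifz (parN G) 4 3) G 0 0) (sto 0 10 0 0 0) := by
  unfold nextG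
  rw [pO_sto (by omega), nO_sto (by omega), ifz_ne (by omega), ifz_ne (by omega), ifz_zero]

theorem nextG_3 (b G t : ℕ) : nextG D P (sto 0 3 G 0 0) b t =
    ifz ((t - 1) % 3) (sto 0 10 0 0 0) (sto 0 4 G 0 0) := by
  unfold nextG
  rw [pO_sto (by omega), nO_sto (by omega), ifz_ne (by omega), ifz_ne (by omega),
    ifz_ne (by omega), ifz_zero]

theorem nextG_4 (b G t : ℕ) : nextG D P (sto 0 4 G 0 0) b t =
    ifz (okN G t) (sto 0 5 G 0 0) (sto 0 6 G 0 0) := by
  unfold nextG
  rw [pO_sto (by omega), nO_sto (by omega), ifz_ne (by omega), ifz_ne (by omega),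
    ifz_ne (by omega), ifz_ne (by omega), ifz_zero]

theorem nextG_5 (b G t : ℕ) : nextG D P (sto 0 5 G 0 0) b t = sto 0 4 G 0 0 := by
  unfold nextG
  rw [pO_sto (by omega), nO_sto (by omega), ifz_ne (by omega), ifz_ne (by omega),
    ifz_ne (by omega), ifz_ne (by omega), ifz_ne (by omega), ifz_zero]

theorem nextG_6 (b G pc N t : ℕ) : nextG D P (sto 0 6 G pc N) b t =
    resO D P G pc N t P[pc]? := by
  unfold nextG
  rw [pO_sto (by omega), ifz_ne (by omega), ifz_ne (by omega), ifz_ne (by omega),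
    ifz_ne (by omega), ifz_ne (by omega), ifz_ne (by omega), ifz_zero, selF_eq,
    nO_sto (by omega), uO_sto (by omega), vO_sto (by omega)]

theorem nextG_7 (b G q κ t : ℕ) : nextG D P (sto 0 7 G q κ) b t =
    sto 0 6 G (kap3 P G κ).unpair.1 (kap3 P G κ).unpair.2 := by
  unfold nextG
  rw [pO_sto (by omega), ifz_ne (by omega), ifz_ne (by omega), ifz_ne (by omega),
    ifz_ne (by omega), ifz_ne (by omega), ifz_ne (by omega), ifz_ne (by omega), ifz_zero,
    nO_sto (by omega), vO_sto (by omega)]

theorem nextG_9 {f ph : ℕ} (hf : f ≤ 1) (hph : 9 ≤ ph) (b p u v t : ℕ) :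
    nextG D P (sto f ph p u v) b t = sto 0 10 0 0 0 := by
  unfold nextG
  rw [pO_sto hf, ifz_ne (by omega), ifz_ne (by omega), ifz_ne (by omega),
    ifz_ne (by omega), ifz_ne (by omega), ifz_ne (by omega), ifz_ne (by omega),
    ifz_ne (by omega)]

theorem addrF_2 (G : ℕ) : addrF D P (sto 0 2 G 0 0) = 2 * bitsN (parN G) := by
  unfold addrF
  rw [pO_sto (by omega), nO_sto (by omega), ifz_ne (by omega), ifz_zero]

theorem addrF_3 (G : ℕ) : addrF D P (sto 0 3 G 0 0) = 2 * bitsN (parN G - 1) := by
  unfold addrF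
  rw [pO_sto (by omega), nO_sto (by omega), ifz_ne (by omega), ifz_ne (by omega), ifz_zero]

theorem addrF_45 {ph : ℕ} (h : ph = 4 ∨ ph = 5) (G u v : ℕ) :
    addrF D P (sto 0 ph G u v) = 1 := by
  unfold addrF
  rw [pO_sto (by omega), ifz_ne (by omega), ifz_ne (by omega), ifz_ne (by omega),
    show ph - 5 = 0 by omega, ifz_zero]

theorem addrF_6 (G pc N : ℕ) :
    addrF D P (sto 0 6 G pc N) = memA D G P[pc]? (uN P[pc]? (parW G) N) := by
  unfold addrF
  rw [pO_sto (by omega), ifz_ne (by omega), ifz_ne (by omega), ifz_ne (by omega),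
    ifz_ne (by omega), ifz_zero, selF_eq, nO_sto (by omega), uO_sto (by omega),
    vO_sto (by omega)]

theorem addrF_7 {f ph : ℕ} (hf : f ≤ 1) (hph : 7 ≤ ph) (p u v : ℕ) :
    addrF D P (sto f ph p u v) = 1 := by
  unfold addrF
  rw [pO_sto hf, ifz_ne (by omega), ifz_ne (by omega), ifz_ne (by omega),
    ifz_ne (by omega), ifz_ne (by omega)]

theorem step_p0 (b : Bool) (G : ℕ) (M : List Bool → List Bool) :
    (mach D P).step b (wd (sto 0 0 0 G 0), M) =
      (wd (if b then sto 0 1 0 G 0 else sto 0 2 G 0 0), M) := by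
  rw [step_gen D P (sto_pos _ _ _ _ _), nextG_0, pO_sto (by omega)]
  cases b
  · rw [show (decide (0 < 2) && false).toNat = 0 from rfl, ifz_zero]
    rw [upd_silent D P (sto_pos _ _ _ _ _) (by rw [pO_sto (by omega)]; omega)
      (by rw [pO_sto (by omega)]; omega)]
    rfl
  · rw [show (decide (0 < 2) && true).toNat = 1 from rfl, ifz_ne one_ne_zero]
    rw [upd_silent D P (sto_pos _ _ _ _ _) (by rw [pO_sto (by omega)]; omega)
      (by rw [pO_sto (by omega)]; omega)]
    rfl

theorem step_p1 (b : Bool) (G : ℕ) (M : List Bool → List Bool) :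
    (mach D P).step b (wd (sto 0 1 0 G 0), M) = (wd (sto 0 0 0 (2 * G + b.toNat) 0), M) := by
  rw [step_gen D P (sto_pos _ _ _ _ _), nextG_1, pO_sto (by omega),
    upd_silent D P (sto_pos _ _ _ _ _) (by rw [pO_sto (by omega)]; omega)
      (by rw [pO_sto (by omega)]; omega)]
  cases b <;> rfl

theorem step_silent {x x' : ℕ} (hx : 0 < x) (hp : 2 ≤ pO x) (b : Bool) {M : List Bool → List Bool}
    (h : nextG D P x 0 (num (M (wd (addrF D P x)))) = x') (hx' : 0 < x') (h5 : pO x' ≠ 5)
    (h7 : pO x' ≠ 7) : (mach D P).step b (wd x, M) = (wd x', M) := by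
  rw [step_det D P hx hp, h, upd_silent D P hx' h5 h7]

theorem step_p2 (b : Bool) (G W m l : ℕ) (R : ℕ → ℕ) :
    (mach D P).step b (wd (sto 0 2 G 0 0), memB P w y W m l R) =
      (wd (if w.length ≤ parN G then (if parN G = 0 then sto 0 4 G 0 0 else sto 0 3 G 0 0)
        else sto 0 10 0 0 0), memB P w y W m l R) := by
  refine step_silent D P (sto_pos _ _ _ _ _) (by rw [pO_sto (by omega)]) b ?_ ?_ ?_ ?_
  · rw [addrF_2, memB_letter, nextG_2]
    have h1 := lett_le w[parN G]?
    rw [show (lett w[parN G]? + 3 * lett y[parN G]? + 1 - 1) % 3 = lett w[parN G]? by omega]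
    by_cases h : w.length ≤ parN G
    · rw [lett_none.2 h, ifz_zero, if_pos h]
      by_cases h0 : parN G = 0
      · rw [if_pos h0, h0, ifz_zero]
      · rw [if_neg h0, ifz_ne h0]
    · rw [ifz_ne (fun h2 => h (lett_none.1 h2)), if_neg h]
  all_goals
    split_ifs <;> first | exact sto_pos _ _ _ _ _ | (rw [pO_sto (by omega)]; omega)

theorem step_p3 (b : Bool) (G W m l : ℕ) (R : ℕ → ℕ) :
    (mach D P).step b (wd (sto 0 3 G 0 0), memB P w y W m l R) =
      (wd (if parN G - 1 < w.length then sto 0 4 G 0 0 else sto 0 10 0 0 0),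
        memB P w y W m l R) := by
  refine step_silent D P (sto_pos _ _ _ _ _) (by rw [pO_sto (by omega)]; omega) b ?_ ?_ ?_ ?_
  · rw [addrF_3, memB_letter, nextG_3]
    have h1 := lett_le w[parN G - 1]?
    rw [show (lett w[parN G - 1]? + 3 * lett y[parN G - 1]? + 1 - 1) % 3 =
      lett w[parN G - 1]? by omega]
    by_cases h : parN G - 1 < w.length
    · rw [ifz_ne (fun h2 => absurd (lett_none.1 h2) (by omega)), if_pos h]
    · rw [lett_none.2 (by omega), ifz_zero, if_neg h]
  all_goals
    split_ifs <;> first | exact sto_pos _ _ _ _ _ | (rw [pO_sto (by omega)]; omega)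

theorem step_p4 (b : Bool) (G W m l : ℕ) :
    (mach D P).step b (wd (sto 0 4 G 0 0), memB P w y W m l fun _ => 0) =
      if okN G (2 ^ l) = 0 then (wd (sto 0 5 G 0 0), memB P w y W m (2 * l + 1) fun _ => 0)
      else (wd (sto 0 6 G 0 0), memB P w y W m l fun _ => 0) := by
  rw [step_det D P (sto_pos _ _ _ _ _) (by rw [pO_sto (by omega)]; omega),
    addrF_45 D P (Or.inl rfl), memB_one, blk_zero, add_zero, nextG_4]
  by_cases h : okN G (2 ^ l) = 0
  · rw [h, ifz_zero, if_pos rfl, upd_five D P w y G W m l]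
  · rw [ifz_ne h, if_neg h, upd_silent D P (sto_pos _ _ _ _ _) (by rw [pO_sto (by omega)]; omega)
      (by rw [pO_sto (by omega)]; omega)]

theorem step_p5 (b : Bool) (G : ℕ) (M : List Bool → List Bool) :
    (mach D P).step b (wd (sto 0 5 G 0 0), M) = (wd (sto 0 4 G 0 0), M) :=
  step_silent D P (sto_pos _ _ _ _ _) (by rw [pO_sto (by omega)]; omega) b (nextG_5 D P _ _ _)
    (sto_pos _ _ _ _ _) (by rw [pO_sto (by omega)]; omega) (by rw [pO_sto (by omega)]; omega)

theorem step_p7 (b : Bool) (G q κ : ℕ) (M : List Bool → List Bool) :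
    (mach D P).step b (wd (sto 0 7 G q κ), M) =
      (wd (sto 0 6 G (kap3 P G κ).unpair.1 (kap3 P G κ).unpair.2), M) :=
  step_silent D P (sto_pos _ _ _ _ _) (by rw [pO_sto (by omega)]; omega) b (nextG_7 D P _ _ _ _ _)
    (sto_pos _ _ _ _ _) (by rw [pO_sto (by omega)]; omega) (by rw [pO_sto (by omega)]; omega)

theorem step_p9 {f ph : ℕ} (hf : f ≤ 1) (hph : 9 ≤ ph) (b : Bool) (p u v : ℕ)
    (M : List Bool → List Bool) :
    (mach D P).step b (wd (sto f ph p u v), M) = (wd (sto 0 10 0 0 0), M) :=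
  step_silent D P (sto_pos _ _ _ _ _) (by rw [pO_sto hf]; omega) b (nextG_9 D P hf hph _ _ _ _ _)
    (sto_pos _ _ _ _ _) (by rw [pO_sto (by omega)]; omega) (by rw [pO_sto (by omega)]; omega)

/-- A dead state. -/
theorem step_dead (b : Bool) (G N : ℕ) (M : List Bool → List Bool) :
    ∃ N', (mach D P).step b (wd (sto 0 6 G P.length N), M) = (wd (sto 0 6 G P.length N'), M) := by
  refine ⟨setN (parW G) (bd P + 1) N 0 (dig (parW G) N 0), step_silent D P (sto_pos _ _ _ _ _)
    (by rw [pO_sto (by omega)]; omega) b ?_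
    (sto_pos _ _ _ _ _) (by rw [pO_sto (by omega)]; omega) (by rw [pO_sto (by omega)]; omega)⟩
  rw [nextG_6]
  have e1 : P[P.length]? = none := by simp
  have e2 : lt01 0 (bd P + 1) = 1 := by
    unfold lt01
    rw [if_pos (by omega)]
  rw [e1]
  unfold resO memR memV getN
  simp only [isA, isS, valL, npc, dst, inpL, a1, ifz_zero, zero_mul]
  rw [e2, ifz_ne one_ne_zero]
  have e3 : lt01 (dig (parW G) N 0) (parW G) = 1 := by
    unfold lt01
    rw [if_pos]
    unfold dig
    exact Nat.mod_lt _ (parW_pos G)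
  rw [e3, ifz_ne one_ne_zero]

end phases

/-! ### The main phase -/

/-- The next instruction stores into a register which is not named. -/
def NSt (P : List Ins) (c : ℕ × (ℕ → ℕ)) : Prop :=
  ∃ a b, P[c.1]? = some (.store a b) ∧ bd P < c.2 a

theorem nst_iff {P : List Ins} {c : ℕ × (ℕ → ℕ)} :
    NSt P c ↔ isS P[c.1]? * (1 - lt01 (dst P[c.1]? (uu P c)) (bd P + 1)) ≠ 0 := by
  unfold NSt uu
  rcases h : P[c.1]? with _ | o
  · simp [isS]
  · cases o with
    | store i j =>
      show (∃ a b, some (Ins.store i j) = some (Ins.store a b) ∧ bd P < c.2 a) ↔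
        1 * (1 - lt01 (c.2 i) (bd P + 1)) ≠ 0
      constructor
      · rintro ⟨a, b, e, h1⟩
        obtain ⟨rfl, rfl⟩ := Ins.store.inj (Option.some.inj e)
        unfold lt01
        rw [if_neg (by omega)]
        omega
      · intro h1
        refine ⟨i, j, rfl, ?_⟩
        by_contra hcon
        unfold lt01 at h1
        rw [if_pos (by omega)] at h1
        omega
    | _ => simp [isS]

/-- The machine is in phase `6` at the time `k` of the program. -/
structure St (P : List Ins) (F : List Bool → List Bool) (w y : List Bool) (G l k : ℕ) :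
    Prop where
  ok : okN G (2 ^ l) ≠ 0
  len : parN G = w.length
  lt : ∀ i, (conf P (F w) y k).2 i < parW G

section main

variable {P : List Ins} {F : List Bool → List Bool} {w y : List Bool} {G l k : ℕ}

theorem okN_congr {p c c' : ℕ} (h : top c = top c') : okN p c = okN p c' := by
  unfold okN
  rw [h]

theorem pow_le (hok : okN G (2 ^ l) ≠ 0) : parW G ^ parM G ≤ 2 ^ l := by
  have h := (okN_ne.1 hok).2
  rwa [top_pow] at h

theorem top_cell {R : ℕ → ℕ} (hok : okN G (2 ^ l) ≠ 0) (hR : ∀ i, R i < parW G) (g : ℕ) :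
    top (2 ^ l + blk P (parW G) (parM G) R g) = 2 ^ l := by
  have h1 : blk P (parW G) (parM G) R g < top (2 ^ l) := by
    rw [top_pow]
    exact (blk_lt hR _).trans_le (pow_le hok)
  have h2 := top_top_add h1
  rwa [top_pow] at h2

theorem gW_cell {R : ℕ → ℕ} (hok : okN G (2 ^ l) ≠ 0) (hR : ∀ i, R i < parW G) (g : ℕ) :
    gW G (2 ^ l + blk P (parW G) (parM G) R g) = parW G := by
  unfold gW
  rw [okN_congr (c' := 2 ^ l) (by rw [top_cell hok hR, top_pow]), ifz_ne hok]

theorem gM_cell {R : ℕ → ℕ} (hok : okN G (2 ^ l) ≠ 0) (hR : ∀ i, R i < parW G) (g : ℕ) :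
    gM G (2 ^ l + blk P (parW G) (parM G) R g) = parM G := by
  unfold gM
  rw [okN_congr (c' := 2 ^ l) (by rw [top_cell hok hR, top_pow]), ifz_ne hok]

theorem sub_cell {R : ℕ → ℕ} (hok : okN G (2 ^ l) ≠ 0) (hR : ∀ i, R i < parW G) (g : ℕ) :
    2 ^ l + blk P (parW G) (parM G) R g - top (2 ^ l + blk P (parW G) (parM G) R g) =
      blk P (parW G) (parM G) R g := by
  rw [top_cell hok hR, Nat.add_sub_cancel_left]

/-- The run inside a block, on codes. -/
theorem seg1_eq {c : ℕ × (ℕ → ℕ)} (hok : okN G (2 ^ l) ≠ 0) (hR : ∀ i, c.2 i < parW G) (g : ℕ) :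
    seg1 P G g (cod (parW G) (bd P + 1) c) (2 ^ l + blk P (parW G) (parM G) c.2 g) =
      runB P 1 (parW G) (parM G) g (cb P (parW G) (parM G) g c)
        (capB P (cb P (parW G) (parM G) g c) (parW G ^ (bd P + 1)) (2 ^ l) + 1) := by
  unfold seg1
  rw [sub_cell hok hR, gW_cell hok hR, gM_cell hok hR, top_cell hok hR]
  rfl

/-- The run without reading, on codes. -/
theorem seg0_eq {R : ℕ → ℕ} (hok : okN G (2 ^ l) ≠ 0) (hR : ∀ i, R i < parW G) (g κ z : ℕ) :
    seg0 P G g κ z (2 ^ l + blk P (parW G) (parM G) R g) =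
      runB P 0 (parW G) (parM G) g z (capK P κ (parW G ^ (bd P + 1)) + 1) := by
  unfold seg0
  rw [gW_cell hok hR, gM_cell hok hR]

theorem uN_nam (hlt : ∀ i, (conf P (F w) y k).2 i < parW G) :
    uN P[(conf P (F w) y k).1]? (parW G) (tab (parW G) (bd P + 1) (conf P (F w) y k).2) =
      uu P (conf P (F w) y k) := uN_cod hlt

/-- The value in phase `6`. -/
theorem memR_eq {D : LD} (hF : D.Is F) (h : St P F w y G l k) :
    memR D P G (tab (parW G) (bd P + 1) (conf P (F w) y k).2)
      (num (memB P w y (parW G) (parM G) l (conf P (F w) y k).2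
        (wd (memA D G P[(conf P (F w) y k).1]? (uu P (conf P (F w) y k))))))
      P[(conf P (F w) y k).1]? =
      valL P[(conf P (F w) y k).1]? (uu P (conf P (F w) y k))
        (vvL P (F w) y (conf P (F w) y k)) := by
  have hb : (P.map cst).sum ≤ bd P := Nat.le_add_left _ _
  unfold memR
  rw [uN_nam h.lt]
  congr 1
  unfold memV vvL
  by_cases h0 : inpL P[(conf P (F w) y k).1]? = 0
  · rw [h0, ifz_zero, ifz_zero]
    rcases le_or_gt (a1 P[(conf P (F w) y k).1]? (uu P (conf P (F w) y k))) (bd P) with h1 | h1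
    · exact getN_named h.lt _ h1
    · have h2 : rgO P[(conf P (F w) y k).1]? (uu P (conf P (F w) y k)) =
          a1 P[(conf P (F w) y k).1]? (uu P (conf P (F w) y k)) := by
        unfold rgO
        have h3 : isS P[(conf P (F w) y k).1]? = 0 := by
          rcases e : P[(conf P (F w) y k).1]? with _ | o
          · rfl
          · cases o with
            | store i j =>
              have h4 := cst_le e
              rw [e] at h1
              simp only [a1, cst] at h1 h4
              omega
            | _ => rfl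
        rw [h3, ifz_zero]
      unfold memA
      rw [h0, ifz_zero, memB_name, h2, sub_cell h.ok h.lt]
      exact getN_blk (parM_pos G) h.lt (Or.inr rfl)
  · rw [ifz_ne h0, ifz_ne h0]
    unfold memA
    rw [ifz_ne h0, memB_letter, Nat.add_sub_cancel]
    by_cases h1 : inpL P[(conf P (F w) y k).1]? - 1 = 0
    · rw [h1, ifz_zero, ifz_zero, ifz_zero, h.len]
      have h2 := lett_le w[adr1 D w.length (uu P (conf P (F w) y k))]?
      rw [show ∀ z, (lett w[adr1 D w.length (uu P (conf P (F w) y k))]? + 3 * z) % 3 =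
        lett w[adr1 D w.length (uu P (conf P (F w) y k))]? from fun z => by omega, lt_eq hF]
    · rw [ifz_ne h1, ifz_ne h1, ifz_ne h1]
      have h2 := lett_le w[uu P (conf P (F w) y k)]?
      omega

/-- The last step. -/
theorem St.step_acc (D : LD) (h : St P F w y G l k) (ha : Acc P (conf P (F w) y k)) (b : Bool) :
    (mach D P).step b (wd (sto 0 6 G (conf P (F w) y k).1
        (tab (parW G) (bd P + 1) (conf P (F w) y k).2)),
        memB P w y (parW G) (parM G) l (conf P (F w) y k).2) =
      (wd (sto 1 9 0 0 0), memB P w y (parW G) (parM G) l (conf P (F w) y k).2) := by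
  refine step_silent D P (sto_pos _ _ _ _ _) (by rw [pO_sto (by omega)]; omega) b ?_
    (sto_pos _ _ _ _ _) (by rw [pO_sto (by omega)]; omega) (by rw [pO_sto (by omega)]; omega)
  rw [nextG_6, show P[(conf P (F w) y k).1]? = some .accept from ha]
  unfold resO
  rw [ifz_ne (show isA (some .accept) ≠ 0 from one_ne_zero)]

theorem isA_zero {c : ℕ × (ℕ → ℕ)} (ha : ¬Acc P c) : isA P[c.1]? = 0 := by
  unfold isA
  split
  · rename_i h2
    exact absurd h2 ha
  · rfl

/-- A step without message. -/
theorem St.step_one {D : LD} (hF : D.Is F) (h : St P F w y G l k)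
    (ha : ¬Acc P (conf P (F w) y k)) (hs : ¬NSt P (conf P (F w) y k))
    (hlt : ∀ i, (conf P (F w) y (k + 1)).2 i < parW G) (b : Bool) :
    (mach D P).step b (wd (sto 0 6 G (conf P (F w) y k).1
        (tab (parW G) (bd P + 1) (conf P (F w) y k).2)),
        memB P w y (parW G) (parM G) l (conf P (F w) y k).2) =
      (wd (sto 0 6 G (conf P (F w) y (k + 1)).1
        (tab (parW G) (bd P + 1) (conf P (F w) y (k + 1)).2)),
        memB P w y (parW G) (parM G) l (conf P (F w) y (k + 1)).2) := by
  have hr : valL P[(conf P (F w) y k).1]? (uu P (conf P (F w) y k))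
      (vvL P (F w) y (conf P (F w) y k)) < parW G := by
    have h2 := hlt (dst P[(conf P (F w) y k).1]? (uu P (conf P (F w) y k)))
    rw [conf_succ, step_eqL] at h2
    simpa using h2
  have hmem : memB P w y (parW G) (parM G) l (conf P (F w) y (k + 1)).2 =
      memB P w y (parW G) (parM G) l (conf P (F w) y k).2 := by
    refine memB_congr P w y _ _ _ fun g => ?_
    rw [conf_succ, step_eqL]
    refine blk_update_out (Or.inl ?_)
    rcases Pool.Agent.Helper92.RF.dst_le P (conf P (F w) y k).1 (uu P (conf P (F w) y k)) with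
      h1 | ⟨i', j', e', h1⟩
    · exact h1
    · by_contra hcon
      refine hs ⟨i', j', e', ?_⟩
      have h2 : uu P (conf P (F w) y k) = (conf P (F w) y k).2 i' := by
        unfold uu
        rw [e']
        rfl
      omega
  rw [hmem]
  refine step_silent D P (sto_pos _ _ _ _ _) (by rw [pO_sto (by omega)]; omega) b ?_
    (sto_pos _ _ _ _ _) (by rw [pO_sto (by omega)]; omega) (by rw [pO_sto (by omega)]; omega)
  rw [nextG_6, addrF_6, uN_nam h.lt]
  unfold resO
  have hs' := nst_iff.not.1 hs
  rw [not_not] at hs'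
  rw [isA_zero ha, ifz_zero, uN_nam h.lt, hs', ifz_zero, memR_eq hF h, lt01, if_pos hr,
    ifz_ne one_ne_zero, nam_update h.lt hr, conf_succ, step_eqL]

/-- A step without message, with a number which is too large. -/
theorem St.step_over {D : LD} (hF : D.Is F) (h : St P F w y G l k)
    (ha : ¬Acc P (conf P (F w) y k)) (hs : ¬NSt P (conf P (F w) y k))
    (hr : parW G ≤ valL P[(conf P (F w) y k).1]? (uu P (conf P (F w) y k))
      (vvL P (F w) y (conf P (F w) y k))) (b : Bool) :
    (mach D P).step b (wd (sto 0 6 G (conf P (F w) y k).1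
        (tab (parW G) (bd P + 1) (conf P (F w) y k).2)),
        memB P w y (parW G) (parM G) l (conf P (F w) y k).2) =
      (wd (sto 0 10 0 0 0), memB P w y (parW G) (parM G) l (conf P (F w) y k).2) := by
  refine step_silent D P (sto_pos _ _ _ _ _) (by rw [pO_sto (by omega)]; omega) b ?_
    (sto_pos _ _ _ _ _) (by rw [pO_sto (by omega)]; omega) (by rw [pO_sto (by omega)]; omega)
  rw [nextG_6, addrF_6, uN_nam h.lt]
  unfold resO
  have hs' := nst_iff.not.1 hs
  rw [not_not] at hs'
  rw [isA_zero ha, ifz_zero, uN_nam h.lt, hs', ifz_zero, memR_eq hF h, lt01,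
    if_neg (not_lt.2 hr), ifz_zero]

/-- The block of the register into which the next instruction stores. -/
def bOf (P : List Ins) (m : ℕ) (c : ℕ × (ℕ → ℕ)) : ℕ := dst P[c.1]? (uu P c) / m

/-- The state at a message. -/
theorem St.step_msg (D : LD) (h : St P F w y G l k) (hs : NSt P (conf P (F w) y k)) (b : Bool) :
    (mach D P).step b (wd (sto 0 6 G (conf P (F w) y k).1
        (tab (parW G) (bd P + 1) (conf P (F w) y k).2)),
        memB P w y (parW G) (parM G) l (conf P (F w) y k).2) =
      (wd (sto 0 7 G (Nat.pair (bOf P (parM G) (conf P (F w) y k) + 1)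
          (cod (parW G) (bd P + 1) (conf P (F w) y k)))
        (runB P 1 (parW G) (parM G) (bOf P (parM G) (conf P (F w) y k))
          (cb P (parW G) (parM G) (bOf P (parM G) (conf P (F w) y k)) (conf P (F w) y k))
          (capB P (cb P (parW G) (parM G) (bOf P (parM G) (conf P (F w) y k))
            (conf P (F w) y k)) (parW G ^ (bd P + 1)) (2 ^ l) + 1)).unpair.1), fun i =>
        (mach D P).upd (wd (sto 0 7 G (Nat.pair (bOf P (parM G) (conf P (F w) y k) + 1)
          (cod (parW G) (bd P + 1) (conf P (F w) y k)))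
        (runB P 1 (parW G) (parM G) (bOf P (parM G) (conf P (F w) y k))
          (cb P (parW G) (parM G) (bOf P (parM G) (conf P (F w) y k)) (conf P (F w) y k))
          (capB P (cb P (parW G) (parM G) (bOf P (parM G) (conf P (F w) y k))
            (conf P (F w) y k)) (parW G ^ (bd P + 1)) (2 ^ l) + 1)).unpair.1)) i
          (memB P w y (parW G) (parM G) l (conf P (F w) y k).2 i)) := by
  have ha : ¬Acc P (conf P (F w) y k) := by
    rintro ha
    obtain ⟨i, j, e, -⟩ := hs
    rw [show P[(conf P (F w) y k).1]? = some .accept from ha] at e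
    simp at e
  have key : nextG D P (sto 0 6 G (conf P (F w) y k).1
      (tab (parW G) (bd P + 1) (conf P (F w) y k).2)) 0
      (num (memB P w y (parW G) (parM G) l (conf P (F w) y k).2
        (wd (addrF D P (sto 0 6 G (conf P (F w) y k).1
          (tab (parW G) (bd P + 1) (conf P (F w) y k).2)))))) =
      sto 0 7 G (Nat.pair (bOf P (parM G) (conf P (F w) y k) + 1)
          (cod (parW G) (bd P + 1) (conf P (F w) y k)))
        (runB P 1 (parW G) (parM G) (bOf P (parM G) (conf P (F w) y k))
          (cb P (parW G) (parM G) (bOf P (parM G) (conf P (F w) y k)) (conf P (F w) y k))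
          (capB P (cb P (parW G) (parM G) (bOf P (parM G) (conf P (F w) y k))
            (conf P (F w) y k)) (parW G ^ (bd P + 1)) (2 ^ l) + 1)).unpair.1 := by
    rw [nextG_6, addrF_6, uN_nam h.lt]
    unfold resO
    rw [isA_zero ha, ifz_zero, uN_nam h.lt, ifz_ne (nst_iff.1 hs)]
    have h1 : num (memB P w y (parW G) (parM G) l (conf P (F w) y k).2
        (wd (memA D G P[(conf P (F w) y k).1]? (uu P (conf P (F w) y k))))) =
        2 ^ l + blk P (parW G) (parM G) (conf P (F w) y k).2
          (bOf P (parM G) (conf P (F w) y k)) := by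
      obtain ⟨i, j, e, -⟩ := hs
      unfold memA rgO bOf
      rw [e]
      simp only [inpL, isS, ifz_zero]
      rw [ifz_ne one_ne_zero, memB_name]
    rw [h1]
    have h2 := seg1_eq (P := P) h.ok h.lt (bOf P (parM G) (conf P (F w) y k))
    unfold bOf at h2 ⊢
    unfold cod at h2 ⊢
    rw [h2]
  rw [step_det D P (sto_pos _ _ _ _ _) (by rw [pO_sto (by omega)]; omega), key]

/-- The cells after a message. -/
theorem St.newV_eq (h : St P F w y G l k) {k₂ e : ℕ}
    (h1 : runB P 1 (parW G) (parM G) (bOf P (parM G) (conf P (F w) y k))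
      (cb P (parW G) (parM G) (bOf P (parM G) (conf P (F w) y k)) (conf P (F w) y k))
      (capB P (cb P (parW G) (parM G) (bOf P (parM G) (conf P (F w) y k))
        (conf P (F w) y k)) (parW G ^ (bd P + 1)) (2 ^ l) + 1) =
      cb P (parW G) (parM G) (bOf P (parM G) (conf P (F w) y k)) (conf P (F w) y k₂))
    (h2 : ∀ g', g' ≠ bOf P (parM G) (conf P (F w) y k) →
      blk P (parW G) (parM G) (conf P (F w) y k₂).2 g' =
        blk P (parW G) (parM G) (conf P (F w) y k).2 g')
    (h3 : ∀ m g, runB P 0 (parW G) m g (cb P (parW G) m g (conf P (F w) y k₂))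
      (capK P (cod (parW G) (bd P + 1) (conf P (F w) y k₂)) (parW G ^ (bd P + 1)) + 1) =
        cb P (parW G) m g (conf P (F w) y e)) (g : ℕ) :
    newV P G (bOf P (parM G) (conf P (F w) y k) + 1) (cod (parW G) (bd P + 1) (conf P (F w) y k))
      (cod (parW G) (bd P + 1) (conf P (F w) y k₂)) g
      (2 ^ l + blk P (parW G) (parM G) (conf P (F w) y k).2 g) =
      blk P (parW G) (parM G) (conf P (F w) y e).2 g := by
  unfold newV
  rw [seg0_eq h.ok h.lt]
  have h4 : ifz (eq01 (g + 1) (bOf P (parM G) (conf P (F w) y k) + 1))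
      (Nat.pair (cod (parW G) (bd P + 1) (conf P (F w) y k₂))
        (2 ^ l + blk P (parW G) (parM G) (conf P (F w) y k).2 g -
          top (2 ^ l + blk P (parW G) (parM G) (conf P (F w) y k).2 g)))
      (seg1 P G g (cod (parW G) (bd P + 1) (conf P (F w) y k))
        (2 ^ l + blk P (parW G) (parM G) (conf P (F w) y k).2 g)) =
      cb P (parW G) (parM G) g (conf P (F w) y k₂) := by
    by_cases hg : g = bOf P (parM G) (conf P (F w) y k)
    · have e1 : eq01 (g + 1) (bOf P (parM G) (conf P (F w) y k) + 1) = 1 := by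
        unfold eq01
        rw [if_pos (by rw [hg])]
      rw [e1, ifz_ne one_ne_zero, seg1_eq h.ok h.lt, hg]
      exact h1
    · have e1 : eq01 (g + 1) (bOf P (parM G) (conf P (F w) y k) + 1) = 0 := by
        unfold eq01
        rw [if_neg (by omega)]
      rw [e1, ifz_zero, sub_cell h.ok h.lt, ← h2 g hg]
      rfl
  rw [h4, h3, cb_snd]

/-- The code after a message. -/
theorem kap3_eq {k₂ e : ℕ}
    (h3 : ∀ m g, runB P 0 (parW G) m g (cb P (parW G) m g (conf P (F w) y k₂))
      (capK P (cod (parW G) (bd P + 1) (conf P (F w) y k₂)) (parW G ^ (bd P + 1)) + 1) =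
        cb P (parW G) m g (conf P (F w) y e)) :
    kap3 P G (cod (parW G) (bd P + 1) (conf P (F w) y k₂)) =
      cod (parW G) (bd P + 1) (conf P (F w) y e) := by
  have h4 := congrArg (fun z => z.unpair.1) (h3 0 0)
  rw [cb_fst] at h4
  unfold kap3
  exact h4

end main

end Pool.Agent.Helper92.RB
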