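import Pool.Agent.Helper92.RB.Sound

/-!
# Programs with few expensive changes as machines with messages: the computation
-/

namespace Pool.Agent.Helper92.RB

open Pool.Agent.Helper65.LinSpace Pool.Agent.Helper78.Mpc Pool.Agent.Helper28.Ram Finset
open Pool.Agent.Helper81.Sus2
open Pool.Agent.Helper81.RP (Ins lett step AcceptsAt conf wd wf num_wd wd_num a0 a1 dst npc uu
  isA bd conf_succ cst cst_le)
open Pool.Agent.Helper92.RE (LD inpL valL vvL step_eqL sto pO nO uO vO sto_pos pO_sto nO_sto
  uO_sto vO_sto head_st nconf_succ)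
open Pool.Agent.Helper92.RF (cod cod_pc cod_reg Dead parN parW parW_pos unpair_pair_fst
  unpair_pair_snd dst_le top)
open scoped Classical

section

/-- The mode after a step inside the block `g`: `g + 2` if the next step is allowed inside the block, `1`
if it is allowed without reading, `0` if the segment ends. -/
noncomputable def cls (P : List Ins) (m g : ℕ) (c : ℕ × (ℕ → ℕ)) : ℕ :=
  if Al P 1 m g c ∧ ¬Acc P c then g + 2 else if Al P 0 0 0 c ∧ ¬Acc P c then 1 else 0

/-- The mode after a step without reading. -/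
noncomputable def cls0 (P : List Ins) (c : ℕ × (ℕ → ℕ)) : ℕ :=
  if Al P 0 0 0 c ∧ ¬Acc P c then 1 else 0

/-- The mode at the time `k`. -/
noncomputable def md (P : List Ins) (x y : List Bool) (m : ℕ) : ℕ → ℕ
  | 0 => 0
  | k + 1 => if md P x y m k = 0 then
      (if NSt P (conf P x y k) then cls P m (bOf P m (conf P x y k)) (conf P x y (k + 1)) else 0)
    else if md P x y m k = 1 then cls0 P (conf P x y (k + 1))
    else cls P m (md P x y m k - 2) (conf P x y (k + 1))

/-- The time of the machine. -/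
noncomputable def mt (P : List Ins) (x y : List Bool) (m : ℕ) : ℕ → ℕ
  | 0 => 0
  | k + 1 => mt P x y m k +
      if md P x y m k = 0 then (if NSt P (conf P x y k) then 2 else 1) else 0

/-- The machine sends a message at the time `k` of the program. -/
def MsgAt (P : List Ins) (x y : List Bool) (m k : ℕ) : Prop :=
  md P x y m k = 0 ∧ NSt P (conf P x y k)

variable {P : List Ins} {x y : List Bool} {m : ℕ}

theorem md_acc {k : ℕ} (h : Acc P (conf P x y k)) : md P x y m k = 0 := by
  rcases k with _ | k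
  · rfl
  · unfold md cls cls0
    split_ifs <;> first | rfl | (exfalso; simp_all)

theorem md_succ_nst {k : ℕ} (h0 : md P x y m k = 0) (h : ¬NSt P (conf P x y k)) :
    md P x y m (k + 1) = 0 := by
  show (if md P x y m k = 0 then _ else _) = _
  rw [if_pos h0, if_neg h]

theorem mt_succ_nst {k : ℕ} (h0 : md P x y m k = 0) (h : ¬NSt P (conf P x y k)) :
    mt P x y m (k + 1) = mt P x y m k + 1 := by
  show mt P x y m k + (if md P x y m k = 0 then _ else _) = _
  rw [if_pos h0, if_neg h]

theorem mt_succ_msg {k : ℕ} (h : MsgAt P x y m k) : mt P x y m (k + 1) = mt P x y m k + 2 := by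
  show mt P x y m k + (if md P x y m k = 0 then _ else _) = _
  rw [if_pos h.1, if_pos h.2]

theorem mt_succ_in {k : ℕ} (h : md P x y m k ≠ 0) : mt P x y m (k + 1) = mt P x y m k := by
  show mt P x y m k + (if md P x y m k = 0 then _ else _) = _
  rw [if_neg h, add_zero]

theorem mt_succ_le (k : ℕ) : mt P x y m (k + 1) ≤ mt P x y m k + 2 := by
  show mt P x y m k + (if md P x y m k = 0 then _ else _) ≤ _
  split_ifs <;> omega

theorem mt_mono {k k' : ℕ} (h : k ≤ k') : mt P x y m k ≤ mt P x y m k' := by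
  induction k' with
  | zero => rw [show k = 0 by omega]
  | succ k' ih =>
    rcases Nat.le_succ_iff.1 h with h1 | rfl
    · exact (ih h1).trans (Nat.le_add_right _ _)
    · exact le_rfl

theorem mt_in {k k' : ℕ} (h : k ≤ k') (hi : ∀ i, k ≤ i → i < k' → md P x y m i ≠ 0) :
    mt P x y m k' = mt P x y m k := by
  induction k' with
  | zero => rw [show k = 0 by omega]
  | succ k' ih =>
    rcases Nat.le_succ_iff.1 h with h1 | rfl
    · rw [mt_succ_in (hi k' h1 (Nat.lt_succ_self _)), ih h1 fun i h2 h3 => hi i h2 (by omega)]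
    · rfl

/-! ### Segments -/

/-- Inside the block. -/
def PA (P : List Ins) (x y : List Bool) (m g k₀ k : ℕ) : Prop :=
  md P x y m k = g + 2 ∧ ∀ i, k₀ < i → i ≤ k → Al P 1 m g (conf P x y i) ∧ ¬Acc P (conf P x y i)

/-- Without reading. -/
def PB (P : List Ins) (x y : List Bool) (m g k₀ k : ℕ) : Prop :=
  md P x y m k = 1 ∧ ∃ k₂, k₀ < k₂ ∧ k₂ ≤ k ∧
    (∀ i, k₀ < i → i < k₂ → Al P 1 m g (conf P x y i) ∧ ¬Acc P (conf P x y i)) ∧
    ¬(Al P 1 m g (conf P x y k₂) ∧ ¬Acc P (conf P x y k₂)) ∧
    ∀ i, k₂ ≤ i → i ≤ k → Al P 0 0 0 (conf P x y i) ∧ ¬Acc P (conf P x y i)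

/-- At the end. -/
def PC (P : List Ins) (x y : List Bool) (m g k₀ k : ℕ) : Prop :=
  md P x y m k = 0 ∧ ∃ k₂, k₀ < k₂ ∧ k₂ ≤ k ∧
    (∀ i, k₀ < i → i < k₂ → Al P 1 m g (conf P x y i) ∧ ¬Acc P (conf P x y i)) ∧
    ¬(Al P 1 m g (conf P x y k₂) ∧ ¬Acc P (conf P x y k₂)) ∧
    (∀ i, k₂ ≤ i → i < k → Al P 0 0 0 (conf P x y i) ∧ ¬Acc P (conf P x y i)) ∧
    ¬(Al P 0 0 0 (conf P x y k) ∧ ¬Acc P (conf P x y k))

theorem cls_cases {g k₀ k : ℕ} (hk : k₀ ≤ k)
    (hA : ∀ i, k₀ < i → i ≤ k → Al P 1 m g (conf P x y i) ∧ ¬Acc P (conf P x y i))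
    (hm : md P x y m (k + 1) = cls P m g (conf P x y (k + 1))) :
    PA P x y m g k₀ (k + 1) ∨ PB P x y m g k₀ (k + 1) ∨ PC P x y m g k₀ (k + 1) := by
  unfold cls at hm
  split_ifs at hm with h1 h2
  · refine Or.inl ⟨hm, fun i h3 h4 => ?_⟩
    rcases Nat.le_succ_iff.1 h4 with h5 | rfl
    · exact hA i h3 h5
    · exact h1
  · refine Or.inr (Or.inl ⟨hm, k + 1, by omega, le_rfl, fun i h3 h4 => hA i h3 (by omega), h1,
      fun i h3 h4 => ?_⟩)
    rw [show i = k + 1 by omega]
    exact h2
  · exact Or.inr (Or.inr ⟨hm, k + 1, by omega, le_rfl, fun i h3 h4 => hA i h3 (by omega), h1,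
      fun i h3 h4 => by omega, h2⟩)

theorem seg_cases {k₀ : ℕ} (h : MsgAt P x y m k₀) {k : ℕ} (hk : k₀ < k)
    (hi : ∀ i, k₀ < i → i < k → md P x y m i ≠ 0) :
    PA P x y m (bOf P m (conf P x y k₀)) k₀ k ∨ PB P x y m (bOf P m (conf P x y k₀)) k₀ k ∨
      PC P x y m (bOf P m (conf P x y k₀)) k₀ k := by
  induction k with
  | zero => omega
  | succ k ih =>
    rcases Nat.lt_succ_iff_lt_or_eq.1 hk with h1 | rfl
    · have h2 : md P x y m k ≠ 0 := hi k h1 (Nat.lt_succ_self _)
      rcases ih h1 fun i h3 h4 => hi i h3 (by omega) with h3 | h3 | h3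
      · refine cls_cases h1.le h3.2 ?_
        show (if md P x y m k = 0 then _ else _) = _
        rw [if_neg h2, if_neg (by rw [h3.1]; omega), h3.1, Nat.add_sub_cancel]
      · have h4 : md P x y m (k + 1) = cls0 P (conf P x y (k + 1)) := by
          show (if md P x y m k = 0 then _ else _) = _
          rw [if_neg h2, if_pos h3.1]
        obtain ⟨-, k₂, g1, g2, g3, g4, g5⟩ := h3
        unfold cls0 at h4
        split_ifs at h4 with h5
        · refine Or.inr (Or.inl ⟨h4, k₂, g1, by omega, g3, g4, fun i h6 h7 => ?_⟩)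
          rcases Nat.le_succ_iff.1 h7 with h8 | rfl
          · exact g5 i h6 h8
          · exact h5
        · exact Or.inr (Or.inr ⟨h4, k₂, g1, by omega, g3, g4, fun i h6 h7 => g5 i h6 (by omega),
            h5⟩)
      · exact absurd h3.1 h2
    · refine cls_cases (k₀ := k₀) (k := k₀) le_rfl (fun i h3 h4 => by omega) ?_
      show (if md P x y m k₀ = 0 then _ else _) = _
      rw [if_pos h.1, if_pos h.2]

/-- The last time in phase `6` before the time `k`. -/
theorem exists_sync {k : ℕ} (hk : 0 < k) : ∃ k₀ < k, md P x y m k₀ = 0 ∧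
    ∀ i, k₀ < i → i < k → md P x y m i ≠ 0 := by
  induction k with
  | zero => omega
  | succ k ih =>
    by_cases h : md P x y m k = 0
    · exact ⟨k, Nat.lt_succ_self _, h, fun i h1 h2 => by omega⟩
    · have hk0 : 0 < k := by
        rcases Nat.eq_zero_or_pos k with rfl | h1
        · exact absurd rfl h
        · exact h1
      obtain ⟨k₀, h1, h2, h3⟩ := ih hk0
      refine ⟨k₀, by omega, h2, fun i h4 h5 => ?_⟩
      rcases Nat.lt_succ_iff_lt_or_eq.1 h5 with h6 | rfl
      · exact h3 i h4 h6
      · exact h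

/-- The next time in phase `6`. -/
theorem exists_next {k T : ℕ} (hk : k < T) (hT : md P x y m T = 0) : ∃ e, k < e ∧ e ≤ T ∧
    md P x y m e = 0 ∧ ∀ i, k < i → i < e → md P x y m i ≠ 0 := by
  have hex : ∃ e, k < e ∧ md P x y m e = 0 := ⟨T, hk, hT⟩
  obtain ⟨h1, h2⟩ := Nat.find_spec hex
  exact ⟨Nat.find hex, h1, Nat.find_min' hex ⟨hk, hT⟩, h2, fun i h3 h4 h5 =>
    Nat.find_min hex h4 ⟨h3, h5⟩⟩

theorem al_msg {k : ℕ} (h : NSt P (conf P x y k)) :
    Al P 1 m (bOf P m (conf P x y k)) (conf P x y k) ∧ ¬Acc P (conf P x y k) := by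
  obtain ⟨i, j, e, -⟩ := h
  have hc := cst_le e
  have hb : (P.map cst).sum ≤ bd P := Nat.le_add_left _ _
  constructor
  · unfold Al
    rw [alN_ne]
    unfold bOf
    rw [e]
    simp only [inpL, a1, cst] at hc ⊢
    exact ⟨trivial, Or.inl (by omega), Or.inr (Or.inr trivial)⟩
  · intro ha
    rw [show P[(conf P x y k).1]? = some .accept from ha] at e
    simp at e

end

theorem dead_snd {P : List Ins} {e W m g z : ℕ} (h : Dead P z.unpair.1) :
    (bst P e W m g z).unpair.2 = z.unpair.2 := by
  unfold Dead at h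
  have e2 : P[z.unpair.1.unpair.1]? = none := by rw [h]; simp
  have e3 : lt01 0 (bd P + 1) = 1 := by
    unfold lt01
    rw [if_pos (by omega)]
  unfold bst
  rw [e2]
  unfold bstO
  rw [show dst none (Pool.Agent.Helper92.RF.uN none W z.unpair.1.unpair.2) = 0 from rfl, e3,
    ifz_ne one_ne_zero]
  unfold ifz
  split_ifs <;> rw [unpair_pair_snd]

section main

variable {D : LD} {P : List Ins} {F : List Bool → List Bool} {w y : List Bool} {G : ℕ}

/-- The computation of the machine which follows the program. -/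
structure Run (D : LD) (P : List Ins) (F : List Bool → List Bool) (w y : List Bool)
    (g : ℕ → Bool) (G T τ l : ℕ) : Prop where
  hF : D.Is F
  start : (mach D P).conf w y g τ =
    (wd (sto 0 6 G 0 0), memB P w y (parW G) (parM G) l fun _ => 0)
  len : parN G = w.length
  ok : okN G (2 ^ l) ≠ 0
  lt : ∀ k ≤ T, ∀ i, (conf P (F w) y k).2 i < parW G
  acc : Acc P (conf P (F w) y T)
  first : ∀ k < T, ¬Acc P (conf P (F w) y k)

variable {g : ℕ → Bool} {T τ l : ℕ}

theorem Run.st (H : Run D P F w y g G T τ l) {k : ℕ} (hk : k ≤ T) : St P F w y G l k :=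
  ⟨H.ok, H.len, H.lt k hk⟩

/-- The run without reading, from the time `k` to the time `e`. -/
theorem Run.blind (H : Run D P F w y g G T τ l) {k e : ℕ} (hke : k ≤ e) (he : e ≤ T)
    (hal : ∀ i, k ≤ i → i < e → Al P 0 0 0 (conf P (F w) y i) ∧ ¬Acc P (conf P (F w) y i))
    (hend : ¬(Al P 0 0 0 (conf P (F w) y e) ∧ ¬Acc P (conf P (F w) y e))) (m g : ℕ) :
    runB P 0 (parW G) m g (cb P (parW G) m g (conf P (F w) y k))
      (capK P (cod (parW G) (bd P + 1) (conf P (F w) y k)) (parW G ^ (bd P + 1)) + 1) =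
        cb P (parW G) m g (conf P (F w) y e) := by
  obtain ⟨j, rfl⟩ := Nat.exists_eq_add_of_le hke
  refine run0_reach (parW_pos G) (fun i hi r => H.lt _ (by omega) r)
    (fun i hi => hal (k + i) (by omega) (by omega)) ?_ m g
  by_contra hcon
  push Not at hcon
  exact hend hcon

/-- The run inside a block, from the time `k` to the time `e`. -/
theorem Run.inner (H : Run D P F w y g G T τ l) {k e b : ℕ} (hke : k ≤ e) (he : e ≤ T)
    (hal : ∀ i, k ≤ i → i < e →
      Al P 1 (parM G) b (conf P (F w) y i) ∧ ¬Acc P (conf P (F w) y i))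
    (hend : ¬(Al P 1 (parM G) b (conf P (F w) y e) ∧ ¬Acc P (conf P (F w) y e))) :
    runB P 1 (parW G) (parM G) b (cb P (parW G) (parM G) b (conf P (F w) y k))
      (capB P (cb P (parW G) (parM G) b (conf P (F w) y k)) (parW G ^ (bd P + 1)) (2 ^ l) + 1) =
        cb P (parW G) (parM G) b (conf P (F w) y e) := by
  obtain ⟨j, rfl⟩ := Nat.exists_eq_add_of_le hke
  refine run1_reach (parM_pos G) (parW_pos G) (pow_le H.ok) (fun i hi r => H.lt _ (by omega) r)
    (fun i hi => hal (k + i) (by omega) (by omega)) ?_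
  by_contra hcon
  push Not at hcon
  exact hend hcon

/-- Inside a block, the other blocks are not changed. -/
theorem blk_inner {x : List Bool} {W m b k : ℕ} {e : ℕ} (hke : k ≤ e)
    (hal : ∀ i, k ≤ i → i < e → Al P 1 m b (conf P x y i)) {g' : ℕ} (hg : g' ≠ b) :
    blk P W m (conf P x y e).2 g' = blk P W m (conf P x y k).2 g' := by
  induction e with
  | zero => rw [show k = 0 by omega]
  | succ e ih =>
    rcases Nat.le_succ_iff.1 hke with h1 | rfl
    · rw [← ih h1 fun i h2 h3 => hal i h2 (by omega), conf_succ, step_eqL]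
      refine blk_update_out ?_
      rcases (alN_ne.1 (hal e h1 (Nat.lt_succ_self _))).2.2 with h4 | h4 | h4
      · exact Or.inl h4
      · exact absurd h4 one_ne_zero
      · exact Or.inr fun h5 => hg (h5.symm.trans h4)
    · rfl

/-- The two steps of the machine for a segment. -/
theorem Run.two (H : Run D P F w y g G T τ l) {k e t : ℕ} (hk : MsgAt P (F w) y (parM G) k)
    (hke : k < e) (he : e ≤ T) (he0 : md P (F w) y (parM G) e = 0)
    (hi : ∀ i, k < i → i < e → md P (F w) y (parM G) i ≠ 0)
    (hc : (mach D P).conf w y g t = (wd (sto 0 6 G (conf P (F w) y k).1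
      (tab (parW G) (bd P + 1) (conf P (F w) y k).2)),
      memB P w y (parW G) (parM G) l (conf P (F w) y k).2)) :
    ∃ k₂, k₂ ≤ e ∧ (mach D P).conf w y g (t + 1) =
      (wd (sto 0 7 G (Nat.pair (bOf P (parM G) (conf P (F w) y k) + 1)
          (cod (parW G) (bd P + 1) (conf P (F w) y k)))
        (cod (parW G) (bd P + 1) (conf P (F w) y k₂))),
        memB P w y (parW G) (parM G) l (conf P (F w) y e).2) ∧
      (mach D P).conf w y g (t + 2) = (wd (sto 0 6 G (conf P (F w) y e).1
      (tab (parW G) (bd P + 1) (conf P (F w) y e).2)),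
      memB P w y (parW G) (parM G) l (conf P (F w) y e).2) := by
  rcases seg_cases hk hke hi with h1 | h1 | h1
  · exact absurd h1.1 (by rw [he0]; omega)
  · exact absurd h1.1 (by rw [he0]; omega)
  · obtain ⟨-, k₂, g1, g2, g3, g4, g5, g6⟩ := h1
    have a1 : ∀ i, k ≤ i → i < k₂ → Al P 1 (parM G) (bOf P (parM G) (conf P (F w) y k))
        (conf P (F w) y i) ∧ ¬Acc P (conf P (F w) y i) := by
      intro i h2 h3
      rcases Nat.eq_or_lt_of_le h2 with rfl | h4
      · exact al_msg hk.2
      · exact g3 i h4 h3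
    have b1 := H.inner g1.le (g2.trans he) a1 g4
    have b2 := fun g' hg' => blk_inner (P := P) (x := F w) (y := y) (W := parW G)
      g1.le (fun i h2 h3 => (a1 i h2 h3).1) (g' := g') hg'
    have b3 := fun m g => H.blind g2 he g5 g6 m g
    have c1 : (mach D P).conf w y g (t + 1) =
        (wd (sto 0 7 G (Nat.pair (bOf P (parM G) (conf P (F w) y k) + 1)
          (cod (parW G) (bd P + 1) (conf P (F w) y k)))
        (cod (parW G) (bd P + 1) (conf P (F w) y k₂))),
        memB P w y (parW G) (parM G) l (conf P (F w) y e).2) := by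
      have h := H.st (k := k) (by omega)
      rw [nconf_succ, hc, h.step_msg D hk.2, b1, cb_fst]
      refine Prod.ext rfl ?_
      exact upd_seven D P w y h.lt (pow_le h.ok) (h.newV_eq b1 b2 b3)
    refine ⟨k₂, g2, c1, ?_⟩
    rw [show t + 2 = t + 1 + 1 by ring, nconf_succ, c1, step_p7, kap3_eq b3, cod_pc, cod_reg]

/-- The configurations of the machine in the main phase. -/
theorem Run.main (H : Run D P F w y g G T τ l) {k : ℕ} (hk : k ≤ T)
    (h0 : md P (F w) y (parM G) k = 0) :
    (mach D P).conf w y g (τ + mt P (F w) y (parM G) k) =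
      (wd (sto 0 6 G (conf P (F w) y k).1 (tab (parW G) (bd P + 1) (conf P (F w) y k).2)),
        memB P w y (parW G) (parM G) l (conf P (F w) y k).2) := by
  induction k using Nat.strong_induction_on with
  | _ k ih =>
    rcases Nat.eq_zero_or_pos k with rfl | hk0
    · rw [show (conf P (F w) y 0).2 = fun _ => 0 from rfl, tab_const_zero]
      exact H.start
    · obtain ⟨k₀, h1, h2, h3⟩ := exists_sync (P := P) (x := F w) (y := y) (m := parM G) hk0
      have h4 := ih k₀ h1 (by omega) h2
      have h5 := mt_in (P := P) (x := F w) (y := y) (m := parM G) (k := k₀ + 1) (k' := k)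
        (by omega) fun i h6 h7 => h3 i (by omega) h7
      by_cases hs : NSt P (conf P (F w) y k₀)
      · obtain ⟨k₂, -, -, h6⟩ := H.two ⟨h2, hs⟩ h1 hk h0 h3 h4
        rw [h5, mt_succ_msg ⟨h2, hs⟩]
        exact h6
      · have h6 : k = k₀ + 1 := by
          by_contra hcon
          exact h3 (k₀ + 1) (by omega) (by omega) (md_succ_nst h2 hs)
        subst h6
        rw [mt_succ_nst h2 hs, ← Nat.add_assoc, nconf_succ, h4,
          (H.st (by omega)).step_one H.hF (H.first k₀ (by omega)) hs (H.lt _ hk)]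

theorem Run.mdT (H : Run D P F w y g G T τ l) : md P (F w) y (parM G) T = 0 := md_acc H.acc

/-- The states at the messages. -/
theorem Run.atMsg (H : Run D P F w y g G T τ l) {k : ℕ} (hk : k < T)
    (hm : MsgAt P (F w) y (parM G) k) :
    ∃ k₂ e, k₂ ≤ T ∧ e ≤ T ∧ (mach D P).conf w y g (τ + mt P (F w) y (parM G) k + 1) =
      (wd (sto 0 7 G (Nat.pair (bOf P (parM G) (conf P (F w) y k) + 1)
          (cod (parW G) (bd P + 1) (conf P (F w) y k)))
        (cod (parW G) (bd P + 1) (conf P (F w) y k₂))),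
        memB P w y (parW G) (parM G) l (conf P (F w) y e).2) := by
  obtain ⟨e, h1, h2, h3, h4⟩ := exists_next hk H.mdT
  obtain ⟨k₂, h5, h6, -⟩ := H.two hm h1 h2 h3 h4 (H.main hk.le hm.1)
  exact ⟨k₂, e, h5.trans h2, h2, h6⟩

/-- The last state. -/
theorem Run.last (H : Run D P F w y g G T τ l) :
    (mach D P).conf w y g (τ + mt P (F w) y (parM G) T + 1) =
      (wd (sto 1 9 0 0 0), memB P w y (parW G) (parM G) l (conf P (F w) y T).2) := by
  rw [nconf_succ, H.main le_rfl H.mdT, (H.st le_rfl).step_acc D H.acc]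

/-- The machine accepts. -/
theorem Run.accepts (H : Run D P F w y g G T τ l) :
    (mach D P).AcceptsAt w y g (τ + mt P (F w) y (parM G) T + 1) := by
  show ((mach D P).conf w y g _).1.head? = some true
  rw [H.last]
  exact (head_st (f := 1) le_rfl 9 0 0 0).2 rfl

/-- The memory at the time `k` of the program: it is computed from the registers at this time. -/
theorem Run.mem (H : Run D P F w y g G T τ l) {k : ℕ} (hk : k ≤ T) :
    ∃ e q κ₁ κ₂, e ≤ T ∧ ((mach D P).conf w y g (τ + mt P (F w) y (parM G) k)).2 =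
      memB P w y (parW G) (parM G) l (conf P (F w) y e).2 ∧
      (∀ b, newV P G q κ₁ κ₂ b (2 ^ l + blk P (parW G) (parM G) (conf P (F w) y k).2 b) =
        blk P (parW G) (parM G) (conf P (F w) y e).2 b) ∧
      (κ₁ = Nat.pair P.length 0 ∨ ∃ i ≤ T, κ₁ = cod (parW G) (bd P + 1) (conf P (F w) y i)) ∧
      (κ₂ = Nat.pair P.length 0 ∨ ∃ i ≤ T, κ₂ = cod (parW G) (bd P + 1) (conf P (F w) y i)) ∧
      (q = 0 ∨ ∃ i ≤ T, q = bOf P (parM G) (conf P (F w) y i) + 1) := by
  have hst := H.st hk
  by_cases h0 : md P (F w) y (parM G) k = 0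
  · refine ⟨k, 0, Nat.pair P.length 0, Nat.pair P.length 0, hk, ?_, fun b => ?_, Or.inl rfl,
      Or.inl rfl, Or.inl rfl⟩
    · rw [H.main hk h0]
    · unfold newV
      rw [seg0_eq hst.ok hst.lt]
      have e1 : eq01 (b + 1) 0 = 0 := by
        unfold eq01
        rw [if_neg (by omega)]
      rw [e1, ifz_zero, sub_cell hst.ok hst.lt]
      have key : ∀ J, Dead P (runB P 0 (parW G) (parM G) b (Nat.pair (Nat.pair P.length 0)
          (blk P (parW G) (parM G) (conf P (F w) y k).2 b)) J).unpair.1 ∧
          (runB P 0 (parW G) (parM G) b (Nat.pair (Nat.pair P.length 0)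
          (blk P (parW G) (parM G) (conf P (F w) y k).2 b)) J).unpair.2 =
            blk P (parW G) (parM G) (conf P (F w) y k).2 b := by
        intro J
        induction J with
        | zero =>
          refine ⟨?_, ?_⟩
          · show Dead P (Nat.pair (Nat.pair P.length 0) _).unpair.1
            unfold Dead
            rw [unpair_pair_fst, unpair_pair_fst]
          · show (Nat.pair (Nat.pair P.length 0) _).unpair.2 = _
            rw [unpair_pair_snd]
        | succ J ih =>
          rw [runB_succ]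
          exact ⟨dead_bst ih.1, (dead_snd ih.1).trans ih.2⟩
      exact (key _).2
  · have hk0 : 0 < k := by
      rcases Nat.eq_zero_or_pos k with rfl | h1
      · exact absurd rfl h0
      · exact h1
    have hkT : k < T := by
      rcases Nat.eq_or_lt_of_le hk with rfl | h1
      · exact absurd H.mdT h0
      · exact h1
    obtain ⟨k₀, h1, h2, h3⟩ := exists_sync (P := P) (x := F w) (y := y) (m := parM G) hk0
    obtain ⟨e, h4, h5, h6, h7⟩ := exists_next hkT H.mdT
    have hin : ∀ i, k₀ < i → i < e → md P (F w) y (parM G) i ≠ 0 := by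
      intro i h8 h9
      rcases lt_trichotomy i k with h10 | rfl | h10
      · exact h3 i h8 h10
      · exact h0
      · exact h7 i h10 h9
    have hs : NSt P (conf P (F w) y k₀) := by
      by_contra hs
      have h8 := md_succ_nst h2 hs
      rcases Nat.eq_or_lt_of_le (Nat.succ_le_of_lt h1) with h9 | h9
      · exact h0 (by rw [← h9]; exact h8)
      · exact h3 _ (Nat.lt_succ_self _) h9 h8
    have hmt : mt P (F w) y (parM G) e = mt P (F w) y (parM G) k :=
      mt_in h4.le fun i h8 h9 => hin i (by omega) h9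
    have hmem : ((mach D P).conf w y g (τ + mt P (F w) y (parM G) k)).2 =
        memB P w y (parW G) (parM G) l (conf P (F w) y e).2 := by
      rw [← hmt, H.main h5 h6]
    rcases seg_cases ⟨h2, hs⟩ (h1.trans h4) hin with g0 | g0 | g0
    · exact absurd g0.1 (by rw [h6]; omega)
    · exact absurd g0.1 (by rw [h6]; omega)
    · obtain ⟨-, k₂, g1, g2, g3, g4, g5, g6⟩ := g0
      rcases Nat.lt_or_ge k k₂ with h8 | h8
      · -- inside the block
        have a1 : ∀ i, k ≤ i → i < k₂ → Al P 1 (parM G) (bOf P (parM G) (conf P (F w) y k₀))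
            (conf P (F w) y i) ∧ ¬Acc P (conf P (F w) y i) := fun i h9 h10 =>
          g3 i (by omega) h10
        have b1 := H.inner h8.le (g2.trans h5) a1 g4
        have b2 := fun g' hg' => blk_inner (P := P) (x := F w) (y := y) (W := parW G)
          h8.le (fun i h9 h10 => (a1 i h9 h10).1) (g' := g') hg'
        have b3 := fun m g => H.blind g2 h5 g5 g6 m g
        refine ⟨e, bOf P (parM G) (conf P (F w) y k₀) + 1, cod (parW G) (bd P + 1)
          (conf P (F w) y k), cod (parW G) (bd P + 1) (conf P (F w) y k₂), h5, hmem, fun b => ?_,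
          Or.inr ⟨k, hk, rfl⟩, Or.inr ⟨k₂, g2.trans h5, rfl⟩, Or.inr ⟨k₀, by omega, rfl⟩⟩
        unfold newV
        rw [seg0_eq hst.ok hst.lt]
        have e4 : ifz (eq01 (b + 1) (bOf P (parM G) (conf P (F w) y k₀) + 1))
            (Nat.pair (cod (parW G) (bd P + 1) (conf P (F w) y k₂))
              (2 ^ l + blk P (parW G) (parM G) (conf P (F w) y k).2 b -
                top (2 ^ l + blk P (parW G) (parM G) (conf P (F w) y k).2 b)))
            (seg1 P G b (cod (parW G) (bd P + 1) (conf P (F w) y k))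
              (2 ^ l + blk P (parW G) (parM G) (conf P (F w) y k).2 b)) =
            cb P (parW G) (parM G) b (conf P (F w) y k₂) := by
          by_cases hg : b = bOf P (parM G) (conf P (F w) y k₀)
          · have e1 : eq01 (b + 1) (bOf P (parM G) (conf P (F w) y k₀) + 1) = 1 := by
              unfold eq01
              rw [if_pos (by rw [hg])]
            rw [e1, ifz_ne one_ne_zero, seg1_eq hst.ok hst.lt, hg]
            exact b1
          · have e1 : eq01 (b + 1) (bOf P (parM G) (conf P (F w) y k₀) + 1) = 0 := by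
              unfold eq01
              rw [if_neg (by omega)]
            rw [e1, ifz_zero, sub_cell hst.ok hst.lt, ← b2 b hg]
            rfl
        rw [e4, b3, cb_snd]
      · -- without reading
        have b3 := fun m g => H.blind h4.le h5 (fun i h9 h10 => g5 i (by omega) h10) g6 m g
        refine ⟨e, 0, Nat.pair P.length 0, cod (parW G) (bd P + 1) (conf P (F w) y k), h5, hmem,
          fun b => ?_, Or.inl rfl, Or.inr ⟨k, hk, rfl⟩, Or.inl rfl⟩
        unfold newV
        rw [seg0_eq hst.ok hst.lt]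
        have e1 : eq01 (b + 1) 0 = 0 := by
          unfold eq01
          rw [if_neg (by omega)]
        rw [e1, ifz_zero, sub_cell hst.ok hst.lt]
        exact (congrArg (fun z => z.unpair.2) (b3 (parM G) b)).trans (cb_snd _ _ _ _)

end main

end Pool.Agent.Helper92.RB
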